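import Pool.Agent.MP_8e55f0_lc.Defs

-- part MP_8e55f0_lc.Rich
section

namespace Pool.Agent.MP_8e55f0_lc

variable {α β : Type}

/-- palindromic factors -/
def pals (u : List α) : Set (List α) := {v : List α | v <:+: u ∧ v.reverse = v}

lemma pals_finite (u : List α) : (pals u).Finite := by
  classical
  refine (u.sublists.toFinset.finite_toSet).subset ?_
  intro v hv
  simp only [List.coe_toFinset, List.mem_sublists, Set.mem_ofPred_eq]
  exact hv.1.sublist

lemma pals_sub (u : List α) (x : α) : pals u ⊆ pals (u ++ [x]) :=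
  fun _ hv => ⟨hv.1.trans (List.prefix_append u [x]).isInfix, hv.2⟩

lemma new_suffix {u : List α} {x : α} {v : List α} (h : v ∈ pals (u ++ [x]) \ pals u) :
    v <:+ u ++ [x] ∧ v.reverse = v ∧ ¬ v <:+: u := by
  obtain ⟨⟨h1, h2⟩, h3⟩ := h
  have h4 : ¬ v <:+: u := fun h => h3 ⟨h, h2⟩
  refine ⟨?_, h2, h4⟩
  rcases List.infix_concat_iff.mp h1 with h | h
  · exact h
  · exact absurd h h4

lemma new_unique {u : List α} {x : α} {v w : List α} (hv : v ∈ pals (u ++ [x]) \ pals u)
    (hw : w ∈ pals (u ++ [x]) \ pals u) (hl : v.length ≤ w.length) : v = w := by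
  obtain ⟨a1, a2, a3⟩ := new_suffix hv
  obtain ⟨b1, b2, _⟩ := new_suffix hw
  have h1 : v <:+ w := List.suffix_of_suffix_length_le a1 b1 hl
  have h2 : v <+: w := by
    have := List.reverse_prefix.mpr h1
    rwa [a2, b2] at this
  obtain ⟨t, ht⟩ := h2
  obtain ⟨s, hs⟩ := b1
  rcases List.eq_nil_or_concat t with rfl | ⟨t', y, rfl⟩
  · simpa using ht
  · exfalso
    apply a3
    rw [← ht] at hs
    have : (s ++ v ++ t') ++ [y] = u ++ [x] := by simpa using hs
    have := List.append_inj_left' this rfl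
    exact ⟨s, t', this⟩

lemma new_subsingleton (u : List α) (x : α) : (pals (u ++ [x]) \ pals u).Subsingleton := by
  intro v hv w hw
  rcases le_total v.length w.length with h | h
  · exact new_unique hv hw h
  · exact (new_unique hw hv h).symm

lemma ncard_concat (u : List α) (x : α) :
    (pals (u ++ [x])).ncard = (pals u).ncard + (pals (u ++ [x]) \ pals u).ncard := by
  have := Set.ncard_sdiff_add_ncard_of_subset (pals_sub u x) (pals_finite _)
  omega

lemma pals_nil : (pals ([] : List α)).ncard = 1 := by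
  have : pals ([] : List α) = {[]} := by
    ext v
    simp only [pals, List.infix_nil, Set.mem_ofPred_eq, Set.mem_singleton_iff]
    exact ⟨fun h => h.1, fun h => by simp [h]⟩
  rw [this, Set.ncard_singleton]

lemma ncard_le (u : List α) : (pals u).ncard ≤ u.length + 1 := by
  induction u using List.reverseRecOn with
  | nil => simp [pals_nil]
  | append_singleton u x ih =>
    have h1 := ncard_concat u x
    have h2 := (Set.ncard_le_one ((pals_finite _).subset Set.sdiff_subset)).mpr
      fun a ha b hb => new_subsingleton u x ha hb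
    simp only [List.length_append, List.length_singleton]
    omega

lemma rich_nil : Rich ([] : List α) := pals_nil

lemma rich_concat (u : List α) (x : α) : Rich (u ++ [x]) ↔
    Rich u ∧ ∃ v, v <:+ u ++ [x] ∧ v.reverse = v ∧ ¬ v <:+: u := by
  have h1 := ncard_concat u x
  have hf : (pals (u ++ [x]) \ pals u).Finite := (pals_finite _).subset Set.sdiff_subset
  have h2 := (Set.ncard_le_one hf).mpr fun a ha b hb => new_subsingleton u x ha hb
  have h3 := ncard_le u
  have h4 : 0 < (pals (u ++ [x]) \ pals u).ncard ↔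
      ∃ v, v <:+ u ++ [x] ∧ v.reverse = v ∧ ¬ v <:+: u := by
    rw [Set.ncard_pos hf]
    constructor
    · rintro ⟨v, hv⟩
      exact ⟨v, new_suffix hv⟩
    · rintro ⟨v, a, b, c⟩
      exact ⟨v, ⟨a.isInfix, b⟩, fun h => c h.1⟩
  rw [← h4]
  change (pals (u ++ [x])).ncard = _ ↔ (pals u).ncard = _ ∧ _
  simp only [List.length_append, List.length_singleton]
  omega

/-- segment of a bi-infinite word -/
def seg (f : ℤ → α) (a : ℤ) (n : ℕ) : List α := (List.range n).map fun k : ℕ => f (a + k)

@[simp] lemma seg_length (f : ℤ → α) (a : ℤ) (n : ℕ) : (seg f a n).length = n := by simp [seg]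

lemma seg_getElem (f : ℤ → α) (a : ℤ) (n k : ℕ) (h : k < (seg f a n).length) :
    (seg f a n)[k] = f (a + k) := by simp [seg]

lemma seg_succ (f : ℤ → α) (a : ℤ) (n : ℕ) : seg f a (n + 1) = seg f a n ++ [f (a + n)] := by
  simp [seg, List.range_succ]

lemma seg_add (f : ℤ → α) (a : ℤ) (m n : ℕ) :
    seg f a (m + n) = seg f a m ++ seg f (a + m) n := by
  induction n with
  | zero => simp [seg]
  | succ n ih =>
    rw [← add_assoc, seg_succ, seg_succ, ih, List.append_assoc]
    congr 4
    push_cast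
    ring

lemma seg_cons (f : ℤ → α) (a : ℤ) (n : ℕ) : seg f a (n + 1) = f a :: seg f (a + 1) n := by
  rw [add_comm n 1, seg_add]
  simp [seg]

lemma seg_eq_iff (f g : ℤ → α) (a b : ℤ) (n : ℕ) :
    seg f a n = seg g b n ↔ ∀ k : ℕ, k < n → f (a + k) = g (b + k) := by
  simp [seg]

lemma seg_eq_append {f : ℤ → α} {a : ℤ} {n : ℕ} {u v : List α} (h : seg f a n = u ++ v) :
    u = seg f a u.length ∧ v = seg f (a + u.length) v.length := by
  have hn : n = u.length + v.length := by simpa using congrArg List.length h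
  rw [hn, seg_add] at h
  have := List.append_inj h (by simp)
  exact ⟨this.1.symm, this.2.symm⟩

lemma mem_seg {f : ℤ → α} {a : ℤ} {n : ℕ} {x : α} :
    x ∈ seg f a n ↔ ∃ i, a ≤ i ∧ i < a + n ∧ f i = x := by
  simp only [seg, List.mem_map, List.mem_range]
  constructor
  · rintro ⟨k, h1, h2⟩
    exact ⟨a + k, by omega, by omega, h2⟩
  · rintro ⟨i, h1, h2, h3⟩
    refine ⟨(i - a).toNat, by omega, ?_⟩
    rw [← h3]
    congr 1
    omega

/-- the window is a palindrome -/
def Pal (f : ℤ → α) (a b : ℤ) : Prop := ∀ i, a ≤ i → i ≤ b → f i = f (a + b - i)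

/-- the window occurs `d` places earlier -/
def Occ (f : ℤ → α) (a b d : ℤ) : Prop := ∀ i, a ≤ i → i ≤ b → f (i - d) = f i

/-- the window does not occur earlier -/
def New (f : ℤ → α) (lo a b : ℤ) : Prop := ∀ d, 0 < d → lo ≤ a - d → ¬ Occ f a b d

/-- richness of the right-infinite word starting at `lo` -/
def RichFrom (f : ℤ → α) (lo : ℤ) : Prop :=
  ∀ b, lo ≤ b → ∃ a, lo ≤ a ∧ a ≤ b ∧ Pal f a b ∧ New f lo a b

lemma seg_pal (f : ℤ → α) (a : ℤ) (n : ℕ) :
    (seg f a n).reverse = seg f a n ↔ Pal f a (a + n - 1) := by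
  constructor
  · intro h i h1 h2
    have h3 : (i - a).toNat < (seg f a n).length := by simp; omega
    have h4 := List.getElem_of_eq h.symm h3
    rw [List.getElem_reverse, seg_getElem, seg_getElem] at h4
    simp only [seg_length] at h4 h3
    convert h4 using 2 <;> omega
  · intro h
    apply List.ext_getElem (by simp)
    intro k h1 h2
    rw [List.getElem_reverse, seg_getElem, seg_getElem]
    simp only [seg_length] at h2 ⊢
    rw [h (a + k) (by omega) (by omega)]
    congr 1
    omega

lemma new_iff (f : ℤ → α) (lo : ℤ) (n : ℕ) :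
    (∃ v, v <:+ seg f lo n ++ [f (lo + n)] ∧ v.reverse = v ∧ ¬ v <:+: seg f lo n) ↔
    ∃ a, lo ≤ a ∧ a ≤ lo + n ∧ Pal f a (lo + n) ∧ New f lo a (lo + n) := by
  rw [← seg_succ]
  constructor
  · rintro ⟨v, ⟨s, hs⟩, h2, h3⟩
    have hl : s.length + v.length = n + 1 := by simpa using congrArg List.length hs
    have hv := (seg_eq_append hs.symm).2
    have hv0 : v.length ≠ 0 := by
      intro h
      rw [List.length_eq_zero_iff] at h
      exact h3 (h ▸ List.nil_infix)
    refine ⟨lo + s.length, by omega, by omega, ?_, ?_⟩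
    · rw [hv, seg_pal] at h2
      convert h2 using 1
      omega
    · intro d hd h1 h4
      apply h3
      have e : n = (s.length - d.toNat) + v.length + (d.toNat - 1) := by omega
      refine ⟨seg f lo (s.length - d.toNat), seg f (lo + ((s.length - d.toNat) + v.length : ℕ))
        (d.toNat - 1), ?_⟩
      conv_rhs => rw [e, seg_add, seg_add]
      congr 2
      rw [hv]
      simp only [seg_length]
      rw [seg_eq_iff]
      intro k hk
      rw [← h4 _ (by omega) (by omega)]
      congr 1
      omega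
  · rintro ⟨a, h1, h2, h3, h4⟩
    obtain ⟨p, rfl⟩ : ∃ p : ℕ, a = lo + p := ⟨(a - lo).toNat, by omega⟩
    obtain ⟨m, rfl⟩ : ∃ m : ℕ, n = p + m := ⟨n - p, by omega⟩
    refine ⟨seg f (lo + p) (m + 1), ⟨seg f lo p, by rw [add_assoc p, seg_add f lo p]⟩, ?_, ?_⟩
    · rw [seg_pal]
      convert h3 using 1
      push_cast
      ring
    · rintro ⟨s, t, hs⟩
      have hl : s.length + (m + 1 + t.length) = p + m := by simpa using congrArg List.length hs
      have hv := (seg_eq_append (seg_eq_append hs.symm).1.symm).2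
      simp only [seg_length] at hv
      rw [seg_eq_iff] at hv
      refine h4 (p - s.length) (by omega) (by omega) ?_
      intro i hi1 hi2
      have := hv (i - (lo + p)).toNat (by omega)
      convert this.symm using 2 <;> omega

lemma richFrom_iff (f : ℤ → α) (lo : ℤ) : RichFrom f lo ↔ ∀ n, Rich (seg f lo n) := by
  constructor
  · intro h n
    induction n with
    | zero => exact rich_nil
    | succ n ih =>
      rw [seg_succ, rich_concat, new_iff]
      exact ⟨ih, h _ (by omega)⟩
  · intro h b hb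
    obtain ⟨n, rfl⟩ : ∃ n : ℕ, b = lo + n := ⟨(b - lo).toNat, by omega⟩
    have := h (n + 1)
    rw [seg_succ, rich_concat, new_iff] at this
    exact this.2

/-- complete returns to palindromes are palindromes -/
lemma RichFrom.ret {f : ℤ → α} {lo : ℤ} (h : RichFrom f lo) (a b d : ℤ) (h1 : lo ≤ a - d)
    (h2 : a ≤ b) (h3 : 0 < d) (h4 : Pal f a b) (h5 : Occ f a b d)
    (h6 : ∀ d', 0 < d' → d' < d → ¬ Occ f a b d') : Pal f (a - d) b := by
  obtain ⟨n, hn⟩ : ∃ n : ℕ, b = lo + n := ⟨(b - lo).toNat, by omega⟩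
  induction n using Nat.strong_induction_on generalizing a b d with
  | _ n ih =>
  obtain ⟨a0, e1, e2, e3, e4⟩ := h b (by omega)
  have ha : a0 < a := by
    by_contra hc
    exact e4 d h3 (by omega) fun i i1 i2 => h5 i (by omega) i2
  have hocc : Occ f a b (a - a0) := by
    intro i i1 i2
    rw [h4 i i1 i2, e3 (a + b - i) (by omega) (by omega)]
    congr 1
    omega
  have hd : d ≤ a - a0 := by
    by_contra hc
    exact h6 (a - a0) (by omega) (by omega) hocc
  rcases hd.eq_or_lt with hd | hd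
  · rw [show a - d = a0 by omega]
    exact e3
  · have mir : ∀ i, a0 ≤ i → i ≤ b → f (a0 + b - i) = f i := fun i i1 i2 => (e3 i i1 i2).symm
    have key := ih (a0 + b - a + d - lo).toNat (by omega) (a0 + d) (a0 + b - a + d) d (by omega)
      (by omega) h3 ?_ ?_ ?_ (by omega)
    · intro i i1 i2
      have := key (a0 + b - i) (by omega) (by omega)
      rw [mir i (by omega) i2] at this
      rw [this, ← mir (a - d + b - i) (by omega) (by omega)]
      congr 1
      omega
    · intro i i1 i2
      rw [← mir i (by omega) (by omega), ← mir (a0 + d + (a0 + b - a + d) - i) (by omega) (by omega)]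
      have k1 := h5 (a0 + b - i + d) (by omega) (by omega)
      have k2 := h5 (a0 + b - (a0 + d + (a0 + b - a + d) - i) + d) (by omega) (by omega)
      simp only [add_sub_cancel_right] at k1 k2
      rw [k1, k2, h4 _ (by omega) (by omega)]
      congr 1
      omega
    · intro i i1 i2
      rw [← mir i (by omega) (by omega), ← mir (i - d) (by omega) (by omega)]
      have k1 := h5 (a0 + b - i + d) (by omega) (by omega)
      simp only [add_sub_cancel_right] at k1
      rw [k1]
      congr 1
      omega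
    · intro d' d1 d2 hc
      apply h6 (d - d') (by omega) (by omega)
      intro i i1 i2
      have k1 := hc (a0 + b - i + d) (by omega) (by omega)
      rw [← mir (a0 + b - i + d - d') (by omega) (by omega),
        ← mir (a0 + b - i + d) (by omega) (by omega)] at k1
      rw [← h5 i i1 i2]
      convert k1 using 2 <;> omega

lemma richFrom_of_ret {f : ℤ → α} {lo : ℤ}
    (h : ∀ a b d, lo ≤ a - d → a ≤ b → 0 < d → Pal f a b → Occ f a b d →
      (∀ d', 0 < d' → d' < d → ¬ Occ f a b d') → Pal f (a - d) b) : RichFrom f lo := by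
  intro b hb
  obtain ⟨a, ⟨a1, a2, a3⟩, amin⟩ := Int.exists_least_of_bdd
    (P := fun a => lo ≤ a ∧ a ≤ b ∧ Pal f a b) ⟨lo, fun z hz => hz.1⟩
    ⟨b, hb, le_rfl, fun i i1 i2 => by congr 1; omega⟩
  refine ⟨a, a1, a2, a3, fun d d1 d2 d3 => ?_⟩
  obtain ⟨d', ⟨c1, c2⟩, cmin⟩ := Int.exists_least_of_bdd
    (P := fun d => 0 < d ∧ Occ f a b d) ⟨0, fun z hz => hz.1.le⟩ ⟨d, d1, d3⟩
  have := cmin d ⟨d1, d3⟩
  have hp := h a b d' (by omega) a2 c1 a3 c2 fun e e1 e2 e3 => by
    have := cmin e ⟨e1, e3⟩
    omega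
  have := amin (a - d') ⟨by omega, by omega, hp⟩
  omega

lemma RichFrom.mono {f : ℤ → α} {lo lo' : ℤ} (h : RichFrom f lo) (hl : lo ≤ lo') :
    RichFrom f lo' :=
  richFrom_of_ret fun a b d h1 => h.ret a b d (hl.trans h1)

/-- local form of transport along a recoding -/
lemma richFrom_of_local {g : ℤ → β} {lo : ℤ}
    (h : ∀ T, ∃ f : ℤ → α, RichFrom f lo ∧
      ∀ s t, lo ≤ s → s ≤ T → lo ≤ t → t ≤ T → (f s = f t ↔ g s = g t)) : RichFrom g lo := by
  intro b hb
  obtain ⟨f, hf, e⟩ := h b
  obtain ⟨a, a1, a2, a3, a4⟩ := hf b hb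
  refine ⟨a, a1, a2, fun i i1 i2 => ?_, fun d d1 d2 d3 => a4 d d1 d2 fun i i1 i2 => ?_⟩
  · exact (e _ _ (by omega) (by omega) (by omega) (by omega)).mp (a3 i i1 i2)
  · exact (e _ _ (by omega) (by omega) (by omega) (by omega)).mpr (d3 i i1 i2)

lemma RichFrom.recode {f : ℤ → α} {g : ℤ → β} {lo : ℤ} (h : RichFrom f lo)
    (e : ∀ s t, lo ≤ s → lo ≤ t → (f s = f t ↔ g s = g t)) : RichFrom g lo :=
  richFrom_of_local fun _ => ⟨f, h, fun s t a _ b _ => e s t a b⟩

lemma RichFrom.congr {f g : ℤ → α} {lo : ℤ} (h : RichFrom f lo)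
    (e : ∀ s, lo ≤ s → f s = g s) : RichFrom g lo :=
  h.recode fun s t a b => by rw [e s a, e t b]

lemma RichFrom.shift {f : ℤ → α} {lo : ℤ} (c : ℤ) (h : RichFrom f (lo + c)) :
    RichFrom (fun t => f (t + c)) lo := by
  intro b hb
  obtain ⟨a, a1, a2, a3, a4⟩ := h (b + c) (by omega)
  refine ⟨a - c, by omega, by omega, fun i i1 i2 => ?_, fun d d1 d2 d3 => a4 d d1 (by omega) ?_⟩
  · simp only
    rw [a3 (i + c) (by omega) (by omega)]
    congr 1
    omega
  · intro i i1 i2
    have := d3 (i - c) (by omega) (by omega)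
    simp only at this
    convert this using 2 <;> omega

/-- return to a letter -/
lemma RichFrom.letter {f : ℤ → α} {lo : ℤ} (h : RichFrom f lo) {a b : ℤ} (h1 : lo ≤ a)
    (h2 : a < b) (h3 : f a = f b) (h4 : ∀ i, a < i → i < b → f i ≠ f b) : Pal f a b := by
  have := h.ret b b (b - a) (by omega) le_rfl (by omega)
    (fun i i1 i2 => by congr 1; omega)
    (fun i i1 i2 => by
      obtain rfl : i = b := by omega
      rw [← h3]; congr 1; omega)
    (fun d d1 d2 hc => h4 (b - d) (by omega) (by omega) (hc b le_rfl le_rfl))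
  rwa [show b - (b - a) = a by omega] at this

lemma richFrom_of_eqpal {f : ℤ → α} {lo : ℤ}
    (h : ∀ a b, lo ≤ a → a < b → f a = f b → Pal f a b) : RichFrom f lo := by
  intro b hb
  obtain ⟨a, ⟨a1, a2, a3⟩, amin⟩ := Int.exists_least_of_bdd
    (P := fun a => lo ≤ a ∧ a ≤ b ∧ f a = f b) ⟨lo, fun z hz => hz.1⟩ ⟨b, hb, le_rfl, rfl⟩
  refine ⟨a, a1, a2, ?_, fun d d1 d2 d3 => ?_⟩
  · rcases a2.eq_or_lt with rfl | a2
    · intro i i1 i2
      congr 1
      omega
    · exact h a b a1 a2 a3
  · have := amin (a - d) ⟨d2, by omega, (d3 a le_rfl a2).trans a3⟩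
    omega

lemma richFrom_const (x : α) (lo : ℤ) : RichFrom (fun _ => x) lo :=
  richFrom_of_eqpal fun _ _ _ _ _ _ _ _ => rfl

/-- a column: runs of distinct letters followed by a rich tail over other letters -/
lemma richFrom_col {f : ℤ → α} {T : ℤ} (h1 : RichFrom f T)
    (h2 : ∀ a b, a < b → b < T → f a = f b → ∀ i, a ≤ i → i ≤ b → f i = f a)
    (h3 : ∀ a b, a < T → T ≤ b → f a ≠ f b) (lo : ℤ) : RichFrom f lo := by
  refine richFrom_of_ret fun a b d e1 e2 e3 e4 e5 e6 => ?_
  by_cases hT : T ≤ a - d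
  · exact h1.ret a b d hT e2 e3 e4 e5 e6
  · have k1 := e5 a le_rfl e2
    have ha : a < T := by
      by_contra hc
      exact h3 _ _ (by omega) (by omega) k1
    have k2 := e4 a le_rfl e2
    rw [show a + b - a = b by omega] at k2
    have hb : b < T := by
      by_contra hc
      exact h3 _ _ ha (by omega) k2
    have k3 := h2 (a - d) b (by omega) hb (k1.trans k2)
    intro i i1 i2
    rw [k3 i i1 i2, k3 (a - d + b - i) (by omega) (by omega)]

/-- the guard lemma -/
lemma RichFrom.guard {f : ℤ → α} {lo T t : ℤ} (h : RichFrom f lo) (W : α → Prop) (hT : T < t)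
    (h1 : ∀ s, T ≤ s → s < t → W (f s)) (h2 : ∀ s, lo ≤ s → s < T → ¬ W (f s))
    (h3 : ¬ W (f t) → ∃ s, lo ≤ s ∧ s < T ∧ f s = f t) :
    W (f t) ∨ (f t = f (T - 1) ∧ Pal f T (t - 1)) := by
  by_cases hw : W (f t)
  · exact Or.inl hw
  right
  obtain ⟨s, ⟨s1, s2, s3⟩, smax⟩ := Int.exists_greatest_of_bdd
    (P := fun s => lo ≤ s ∧ s < T ∧ f s = f t) ⟨T, fun z hz => hz.2.1.le⟩ (h3 hw)
  have hp := h.letter s1 (by omega : s < t) s3 fun i i1 i2 hc => by
    by_cases hi : i < T
    · have := smax i ⟨by omega, hi, hc⟩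
      omega
    · exact hw (hc ▸ h1 i (by omega) i2)
  have hs : s = T - 1 := by
    by_contra hc
    have k := hp (s + 1) (by omega) (by omega)
    apply h2 (s + 1) (by omega) (by omega)
    rw [k]
    exact h1 _ (by omega) (by omega)
  subst hs
  refine ⟨s3.symm, fun i i1 i2 => ?_⟩
  rw [hp i (by omega) (by omega)]
  congr 1
  omega

end Pool.Agent.MP_8e55f0_lc

end

-- part MP_8e55f0_lc.Rows
section

namespace Pool.Agent.MP_8e55f0_lc

variable {α β : Type}

/-- complete returns to letters are palindromes -/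
def LRet (u : List α) : Prop :=
  ∀ l1 x m l2, u = l1 ++ x :: m ++ x :: l2 → x ∉ m → m.reverse = m

/-- all returns to letters are palindromes -/
def EqPal (u : List α) : Prop :=
  ∀ l1 x m l2, u = l1 ++ x :: m ++ x :: l2 → m.reverse = m

lemma RichFrom.lret {f : ℤ → α} {lo : ℤ} (h : RichFrom f lo) (n : ℕ) : LRet (seg f lo n) := by
  intro l1 x m l2 e hx
  obtain ⟨e1, e2⟩ := seg_eq_append e
  obtain ⟨-, e3⟩ := seg_eq_append e1.symm
  simp only [List.length_cons, seg_cons, List.cons.injEq, List.length_append] at e2 e3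
  obtain ⟨e4, e5⟩ := e3
  have hp := h.letter (a := lo + l1.length) (b := lo + (l1.length + (m.length + 1) : ℕ))
    (by omega) (by omega) (e4.symm.trans e2.1) fun i i1 i2 hc => hx (by
      rw [e5, mem_seg]
      exact ⟨i, by omega, by omega, hc.trans e2.1.symm⟩)
  rw [e5, seg_pal]
  intro i i1 i2
  rw [hp i (by omega) (by omega)]
  congr 1
  omega

lemma LRet.of_append {l1 u l2 : List α} (h : LRet (l1 ++ u ++ l2)) : LRet u := by
  intro a x m b e hx
  exact h (l1 ++ a) x m (b ++ l2) (by simp [e]) hx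

lemma pal_center {l1 l2 : List α} {x : α} (h : (l1 ++ x :: l2).reverse = l1 ++ x :: l2)
    (h1 : x ∉ l1) (h2 : x ∉ l2) : l1.length = l2.length := by
  classical
  have := congrArg (List.idxOf x) h
  simpa [List.idxOf_append, h1, h2, eq_comm] using this

lemma exists_last {l : List α} {x : α} (h : x ∈ l) : ∃ a b, l = a ++ x :: b ∧ x ∉ b := by
  obtain ⟨a, b, e, hb⟩ := List.eq_append_cons_of_mem (List.mem_reverse.mpr h)
  refine ⟨b.reverse, a.reverse, ?_, by simpa using hb⟩
  have := congrArg List.reverse e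
  simpa using this

/-- two adjacent unique letters separate -/
lemma LRet.sep {A B : List α} {s s' : α} (h : LRet (A ++ s :: s' :: B)) (h0 : s ≠ s')
    (h1 : s ∉ A) (h2 : s ∉ B) (h3 : s' ∉ A) (h4 : s' ∉ B) {x : α} (hA : x ∈ A) (hB : x ∈ B) :
    False := by
  obtain ⟨a1, a2, rfl, ha⟩ := exists_last hA
  obtain ⟨b1, b2, rfl, hb⟩ := List.eq_append_cons_of_mem hB
  simp only [List.mem_append, List.mem_cons, not_or] at h1 h2 h3 h4
  have := h a1 x (a2 ++ s :: s' :: b1) b2 (by simp) (by
    simp only [List.mem_append, List.mem_cons, not_or]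
    exact ⟨ha, fun e => h1.2.1 e.symm, fun e => h3.2.1 e.symm, hb⟩)
  have k1 := pal_center this h1.2.2 (by simp [h0, h2.1])
  have k2 := pal_center (l1 := a2 ++ [s]) (x := s') (l2 := b1) (by simpa using this)
    (by simp [h3.2.2, h0.symm]) h4.1
  simp at k1 k2
  omega

lemma EqPal.append {u v : List α} (hu : EqPal u) (hv : EqPal v) (h : u.Disjoint v) :
    EqPal (u ++ v) := by
  intro l1 x m l2 e
  rcases List.append_eq_append_iff.mp e with ⟨a, e1, e2⟩ | ⟨c, e1, e2⟩
  · rcases List.append_eq_append_iff.mp e1 with ⟨c, e3, e4⟩ | ⟨c, e3, e4⟩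
    · cases c with
      | nil => exact hv [] x m l2 (by simp_all)
      | cons y c =>
        simp only [List.cons_append, List.cons.injEq] at e4
        exact (h (a := x) (by simp [e3, e4.1]) (by simp [e2])).elim
    · exact hv c x m l2 (by simp [e2, e4])
  · cases c with
    | nil => exact (h (a := x) (by simp [e1]) (by simp at e2; simp [← e2])).elim
    | cons y c =>
      simp only [List.cons_append, List.cons.injEq] at e2
      exact hu l1 x m c (by simp [e1, e2.1])

lemma eqPal_nodup {u : List α} (h : u.Nodup) : EqPal u := by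
  intro l1 x m l2 e
  subst e
  simp [List.nodup_append] at h

lemma eqPal_const {u : List α} {y : α} (h : ∀ x ∈ u, x = y) : EqPal u := by
  intro l1 x m l2 e
  have : m = List.replicate m.length y :=
    List.eq_replicate_iff.mpr ⟨rfl, fun b hb => h b (by simp [e, hb])⟩
  rw [this]
  simp

lemma EqPal.wrap {u : List α} {x : α} (hu : EqPal u) (hx : x ∉ u) (hp : u.reverse = u) :
    EqPal (x :: (u ++ [x])) := by
  intro l1 y m l2 e
  rcases List.eq_nil_or_concat l2 with rfl | ⟨l2, w, rfl⟩
  · have e' : (x :: u) ++ [x] = (l1 ++ y :: m) ++ [y] := by simpa using e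
    obtain ⟨e1, e2⟩ := List.append_inj' e' rfl
    obtain rfl : x = y := by simpa using e2
    cases l1 with
    | nil =>
      obtain rfl : u = m := by simpa using e1
      exact hp
    | cons w l1 =>
      simp only [List.cons_append, List.cons.injEq] at e1
      exact (hx (by simp [e1.2])).elim
  · have e' : (x :: u) ++ [x] = (l1 ++ y :: m ++ y :: l2) ++ [w] := by simpa using e
    have e1 := List.append_inj_left' e' rfl
    cases l1 with
    | nil =>
      simp only [List.nil_append, List.cons_append, List.cons.injEq] at e1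
      exact (hx (by simp [e1.2, e1.1])).elim
    | cons w l1 =>
      simp only [List.cons_append, List.cons.injEq] at e1
      exact hu l1 y m l2 e1.2

lemma eqPal_mirror {l : List α} (h : l.Nodup) : EqPal (l ++ l.reverse) := by
  induction l with
  | nil => exact eqPal_nodup (by simp)
  | cons x l ih =>
    rw [List.nodup_cons] at h
    have := (ih h.2).wrap (x := x) (by simp [h.1]) (by simp)
    simpa using this

lemma eqPal_flatMap {L : List β} {F : β → List α} (h1 : ∀ b ∈ L, EqPal (F b))
    (h2 : L.Pairwise fun b b' => (F b).Disjoint (F b')) : EqPal (L.flatMap F) := by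
  induction L with
  | nil => exact eqPal_nodup (by simp)
  | cons b L ih =>
    rw [List.pairwise_cons] at h2
    rw [List.flatMap_cons]
    refine (h1 b (by simp)).append (ih (fun b hb => h1 b (by simp [hb])) h2.2) ?_
    intro x hx hx'
    obtain ⟨b', hb', hx'⟩ := List.mem_flatMap.mp hx'
    exact h2.1 b' hb' hx hx'

lemma EqPal.pal {f : ℤ → α} {lo : ℤ} {n : ℕ} (h : EqPal (seg f lo n)) {a b : ℤ} (h1 : lo ≤ a)
    (h2 : a < b) (h3 : b < lo + n) (h4 : f a = f b) : Pal f a b := by
  obtain ⟨p, rfl⟩ : ∃ p : ℕ, a = lo + p := ⟨(a - lo).toNat, by omega⟩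
  obtain ⟨q, rfl⟩ : ∃ q : ℕ, b = lo + p + 1 + q := ⟨(b - (lo + p + 1)).toNat, by omega⟩
  obtain ⟨r, rfl⟩ : ∃ r, n = p + (q + 1) + (r + 1) := ⟨n - (p + q + 2), by omega⟩
  have := h (seg f lo p) (f (lo + p)) (seg f (lo + p + 1) q) (seg f (lo + p + 1 + q + 1) r) (by
    rw [seg_add, seg_add, seg_cons, seg_cons, h4]
    congr 3 <;> push_cast <;> ring)
  rw [seg_pal] at this
  intro i i1 i2
  by_cases k1 : i = lo + p
  · rw [k1, h4]
    congr 1
    omega
  by_cases k2 : i = lo + p + 1 + q
  · rw [k2, ← h4]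
    congr 1
    omega
  · rw [this i (by omega) (by omega)]
    congr 1
    omega

lemma exists_split {L : List β} {x y : β} (hx : x ∈ L) (hy : y ∈ L) (h : x ≠ y) :
    (∃ a b, L = a ++ y :: b ∧ x ∈ a) ∨ ∃ a b, L = a ++ x :: b ∧ y ∈ a := by
  obtain ⟨a, b, rfl⟩ := List.append_of_mem hy
  rcases List.mem_append.mp hx with h1 | h1
  · exact Or.inl ⟨a, b, rfl, h1⟩
  · obtain ⟨c, d, rfl⟩ := List.append_of_mem ((List.mem_cons.mp h1).resolve_left h)
    exact Or.inr ⟨a ++ y :: c, d, by simp, by simp⟩

end Pool.Agent.MP_8e55f0_lc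

end
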