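import Pool.Agent.MP_8e55f0_lc.Mg.Runs
import Pool.Agent.MP_8e55f0_lc.Mg.Rows

-- part MP_8e55f0_lc.Sig
section

namespace Pool.Agent.MP_8e55f0_lc

variable {α : Type}

/-- a sparse family of intervals with fast growing gaps -/
lemma richFrom_subset {f : ℤ → Bool} (S : ℕ → Prop) (s e : ℕ → ℤ) (k0 : ℕ)
    (hS : ∀ k k', S k → S k' → k < k' → k + 12 ≤ k') (hS0 : ∀ k, S k → k0 ≤ k)
    (h1 : ∀ k, k0 ≤ k → 0 ≤ s k ∧ s k < e k)
    (h2 : ∀ k k', k0 ≤ k → k + 12 ≤ k' → s k + 1 < s k' - e k ∧ e k - s k ≤ e k' - s k')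
    (h3 : ∀ T, ∃ K, ∀ k, K ≤ k → T < s k)
    (hf : ∀ t, 0 ≤ t → (f t = true ↔ ∃ k, S k ∧ s k ≤ t ∧ t < e k)) : RichFrom f 0 := by
  classical
  refine richFrom_of_local (α := Bool) fun T => ?_
  obtain ⟨K, hK⟩ := h3 T
  let S' : ℕ → Prop := fun k => (S k ∧ k < K) ∨ (K + k0 + 12 ≤ k ∧ k % 12 = 0)
  have inf : {k | S' k}.Infinite := by
    refine Set.infinite_of_forall_exists_gt fun n => ⟨12 * (n + K + k0 + 12), Or.inr ?_, ?_⟩ <;>
      omega
  have um : StrictMono (Nat.nth S') := Nat.nth_strictMono inf
  have uin : ∀ i, S' (Nat.nth S' i) := Nat.nth_mem_of_infinite inf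
  have u0 : ∀ i, k0 ≤ Nat.nth S' i := fun i => by
    rcases uin i with h | h
    · exact hS0 _ h.1
    · omega
  have usep : ∀ i, Nat.nth S' i + 12 ≤ Nat.nth S' (i + 1) := fun i => by
    have := um (Nat.lt_succ_self i)
    rcases uin i with h | h <;> rcases uin (i + 1) with h' | h'
    · exact hS _ _ h.1 h'.1 this
    all_goals (simp only [Nat.succ_eq_add_one] at this; omega)
  let a : ℕ → ℤ := fun i => Nat.casesOn i (-1) fun i => e (Nat.nth S' i)
  have ha : ∀ i, -1 ≤ a i := fun i => by
    cases i with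
    | zero => exact le_rfl
    | succ i =>
      have := h1 _ (u0 i)
      change _ ≤ e _
      omega
  let g : ℤ → Bool := fun t => decide (∃ i, s (Nat.nth S' i) ≤ t ∧ t < a (i + 1))
  have hg : RichFrom g (a 0) := by
    refine richFrom_intervals (s := fun i => s (Nat.nth S' i)) (fun i => ?_)
      (fun i => (h1 _ (u0 i)).2) (fun i => ?_) (fun i => (h2 _ _ (u0 i) (usep i)).2)
      fun t _ => by simp [g]
    · cases i with
      | zero =>
        have := h1 _ (u0 0)
        change -1 < _
        omega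
      | succ i =>
        have := h1 _ (u0 i)
        have := h2 _ _ (u0 i) (usep i)
        change e _ < _
        omega
    · have := ha i
      have := h2 _ _ (u0 i) (usep i)
      change _ < _ - e _
      omega
  have eq : ∀ t, 0 ≤ t → t ≤ T → g t = f t := by
    intro t t1 t2
    rw [Bool.eq_iff_iff, hf t t1]
    simp only [g, decide_eq_true_iff]
    constructor
    · rintro ⟨i, i1, i2⟩
      rcases uin i with h | h
      · exact ⟨_, h.1, i1, i2⟩
      · have := hK (Nat.nth S' i) (by omega)
        omega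
    · rintro ⟨k, k1, k2, k3⟩
      have hk : S' k := Or.inl ⟨k1, by
        by_contra hc
        have := hK k (by omega)
        omega⟩
      refine ⟨Nat.count S' k, ?_, ?_⟩
      · rwa [Nat.nth_count hk]
      · change t < e _
        rwa [Nat.nth_count hk]
  exact ⟨g, hg.mono (by change (-1 : ℤ) ≤ 0; omega), fun s t a b c d => by
    rw [eq s a b, eq t c d]⟩

/-- the morphism `u ↦ c u u` preserves richness -/
lemma RichFrom.cuu {u : ℤ → α} (h : RichFrom u 0) :
    RichFrom (fun t => if t % 3 = 0 then none else some (u (t / 3))) 0 := by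
  intro b hb
  by_cases hr : b % 3 = 0
  · by_cases hb0 : b = 0
    · subst hb0
      exact ⟨0, le_rfl, le_rfl, fun i i1 i2 => by congr 1 <;> simp [show i = 0 by omega],
        fun d d1 d2 => by omega⟩
    obtain ⟨a, a1, a2, a3, a4⟩ := h (b / 3 - 1) (by omega)
    refine ⟨3 * a, by omega, by omega, fun i i1 i2 => ?_, fun d d1 d2 d3 => ?_⟩
    · simp only
      by_cases hi : i % 3 = 0
      · rw [if_pos hi, if_pos (by omega)]
      · rw [if_neg hi, if_neg (by omega), a3 (i / 3) (by omega) (by omega)]
        congr 2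
        omega
    · have k := d3 (3 * a) le_rfl (by omega)
      simp only [Int.mul_emod_right, if_true, ite_eq_left_iff, reduceCtorEq, imp_false,
        not_not] at k
      refine a4 (d / 3) (by omega) (by omega) fun i i1 i2 => ?_
      have k' := d3 (3 * i + 1) (by omega) (by omega)
      simp only at k'
      rw [if_neg (by omega), if_neg (by omega), Option.some.injEq] at k'
      convert k' using 2 <;> omega
  · obtain ⟨a, a1, a2, a3, a4⟩ := h (b / 3) (by omega)
    rcases a2.eq_or_lt with a2 | a2
    · refine ⟨3 * a + 1, by omega, by omega, fun i i1 i2 => ?_, fun d d1 d2 d3 => ?_⟩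
      · simp only
        rw [if_neg (by omega), if_neg (by omega)]
        congr 2
        omega
      · have k := d3 b (by omega) le_rfl
        have k' := d3 (3 * a + 1) (by omega) (by omega)
        simp only at k k'
        rw [if_neg hr] at k
        rw [if_neg (show ¬ (3 * a + 1) % 3 = 0 by omega)] at k'
        have k1 : ¬ (b - d) % 3 = 0 := fun hc => by simp [hc] at k
        have k2 : ¬ (3 * a + 1 - d) % 3 = 0 := fun hc => by simp [hc] at k'
        rw [if_neg k1, Option.some.injEq] at k
        refine a4 (b / 3 - (b - d) / 3) (by omega) (by omega) fun i i1 i2 => ?_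
        convert k using 2 <;> omega
    refine ⟨3 * a + 3 - b % 3, by omega, by omega, fun i i1 i2 => ?_, fun d d1 d2 d3 => ?_⟩
    · simp only
      by_cases hi : i % 3 = 0
      · rw [if_pos hi, if_pos (by omega)]
      · rw [if_neg hi, if_neg (by omega), a3 (i / 3) (by omega) (by omega)]
        congr 2
        omega
    · have k := d3 (3 * a + 3) (by omega) (by omega)
      simp only at k
      rw [if_pos (show (3 * a + 3) % 3 = 0 by omega)] at k
      have k1 : (3 * a + 3 - d) % 3 = 0 := by
        by_contra hc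
        simp [hc] at k
      refine a4 (d / 3) (by omega) (by omega) fun i i1 i2 => ?_
      by_cases hi : i = a
      · have k' := d3 (3 * i + 2) (by omega) (by omega)
        simp only at k'
        rw [if_neg (by omega), if_neg (by omega), Option.some.injEq] at k'
        convert k' using 2 <;> omega
      · have k' := d3 (3 * i + 1) (by omega) (by omega)
        simp only at k'
        rw [if_neg (by omega), if_neg (by omega), Option.some.injEq] at k'
        convert k' using 2 <;> omega

lemma richFrom_clock (i : Fin 3) : RichFrom (fun t => decide (t % 3 = i)) 0 := by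
  have h := ((richFrom_const () 0).cuu.mono (show (0 : ℤ) ≤ 0 + (3 - i) by omega)).shift
  refine h.recode fun s t _ _ => ?_
  simp only [decide_eq_decide]
  split_ifs <;> simp <;> omega

lemma cert_check (f : ℤ → Bool) (lo : ℤ) (n : ℕ)
    (h : ∀ b < n, ∃ a < b + 1, (∀ i < b + 1 - a, f (lo + a + i) = f (lo + b - i)) ∧
      ∀ d < a, ∃ i < b + 1 - a, f (lo + d + i) ≠ f (lo + a + i)) (b : ℤ) (h1 : lo ≤ b)
    (h2 : b < lo + n) : ∃ a, lo ≤ a ∧ a ≤ b ∧ Pal f a b ∧ New f lo a b := by
  obtain ⟨b, rfl⟩ : ∃ k : ℕ, b = lo + k := ⟨(b - lo).toNat, by omega⟩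
  obtain ⟨a, a1, a2, a3⟩ := h b (by omega)
  refine ⟨lo + a, by omega, by omega, fun i i1 i2 => ?_, fun d d1 d2 d3 => ?_⟩
  · have := a2 (i - (lo + a)).toNat (by omega)
    convert this using 2 <;> omega
  · obtain ⟨i, i1, i2⟩ := a3 (a - d).toNat (by omega)
    apply i2
    rw [← d3 (lo + a + i) (by omega) (by omega)]
    congr 1
    omega

/-- first clock word -/
def wA (t : ℤ) : Bool := decide (t = -9 ∨ t = -8 ∨ t = -4 ∨ (-2 ≤ t ∧ t % 3 = 1))

/-- second clock word -/
def wB (t : ℤ) : Bool := decide (t = -14 ∨ t = -12 ∨ t = -11 ∨ t = -7 ∨ (-6 ≤ t ∧ t % 3 = 0))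

lemma rich_wA : RichFrom wA (-14) := by
  intro b hb
  by_cases h : b < 12
  · exact cert_check wA (-14) 26 (by decide +kernel) b hb (by omega)
  · refine ⟨-1 - b % 3, by omega, by omega, fun i i1 i2 => ?_, fun d d1 d2 d3 => ?_⟩
    · simp only [wA, decide_eq_decide]
      omega
    · have k1 := d3 (d - 4)
      have k2 := d3 10 (by omega) (by omega)
      simp only [wA, decide_eq_decide] at k1 k2
      omega

lemma rich_wB : RichFrom wB (-14) := by
  intro b hb
  by_cases h : b < 12
  · exact cert_check wB (-14) 26 (by decide +kernel) b hb (by omega)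
  · refine ⟨-4 - (b + 2) % 3, by omega, by omega, fun i i1 i2 => ?_, fun d d1 d2 d3 => ?_⟩
    · simp only [wB, decide_eq_decide]
      omega
    · have k1 := d3 (d - 7)
      have k2 := d3 9 (by omega) (by omega)
      simp only [wB, decide_eq_decide] at k1 k2
      omega

/-- between two long empty runs the word is symmetric -/
lemma RichFrom.symm {f : ℤ → Bool} {lo u v L : ℤ} (h : RichFrom f lo) (hL : 1 ≤ L)
    (h1 : lo ≤ u - L) (h2 : u ≤ v) (h3 : ∀ t, u - L ≤ t → t < u → f t = false)
    (h4 : ∀ t, v < t → t ≤ v + L → f t = false)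
    (h5 : ∀ s, u - L < s → s ≤ v → ∃ t, s ≤ t ∧ t < s + L ∧ f t = true) :
    ∀ i, u ≤ i → i ≤ v → f i = f (u + v - i) := by
  have := h.ret (v + 1) (v + L) (v + 1 - (u - L)) (by omega) (by omega) (by omega)
    (fun i i1 i2 => by rw [h4 _ (by omega) (by omega), h4 _ (by omega) (by omega)])
    (fun i i1 i2 => by rw [h3 _ (by omega) (by omega), h4 _ (by omega) (by omega)])
    (fun d d1 d2 hc => by
      obtain ⟨t, t1, t2, t3⟩ := h5 (v + 1 - d) (by omega) (by omega)
      have := hc (t + d) (by omega) (by omega)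
      rw [add_sub_cancel_right, t3, h4 _ (by omega) (by omega)] at this
      simp at this)
  intro i i1 i2
  rw [this i (by omega) (by omega)]
  congr 1
  omega

/-- deadline -/
lemma RichFrom.deadline {f : ℤ → Bool} {lo a b c L : ℤ} (h : RichFrom f lo) (h1 : lo ≤ a - L)
    (h2 : a < b) (h3 : b < c) (h4 : b - a ≤ L) (h5 : c - b ≤ L) (h6 : b - a ≠ c - b)
    (hf : ∀ t, a - L ≤ t → t ≤ c → (f t = true ↔ t = a ∨ t = b ∨ t = c)) :
    ∃ t, c < t ∧ t ≤ c + L ∧ f t = true := by
  by_contra hc
  push Not at hc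
  have := h.symm (u := a) (v := c) (L := L) (by omega) h1 (by omega)
    (fun t t1 t2 => by rw [← Bool.not_eq_true, hf t t1 (by omega)]; omega)
    (fun t t1 t2 => by simpa using hc t t1 t2)
    (fun s s1 s2 => by
      by_cases k1 : s ≤ a
      · exact ⟨a, k1, by omega, by rw [hf _ (by omega) (by omega)]; omega⟩
      by_cases k2 : s ≤ b
      · exact ⟨b, k2, by omega, by rw [hf _ (by omega) (by omega)]; omega⟩
      · exact ⟨c, s2, by omega, by rw [hf _ (by omega) (by omega)]; omega⟩) b (by omega) (by omega)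
  rw [Bool.eq_iff_iff, hf _ (by omega) (by omega), hf _ (by omega) (by omega)] at this
  omega

/-- copying a length -/
lemma RichFrom.copy {f : ℤ → Bool} {lo a b c d L : ℤ} (h : RichFrom f lo) (h1 : lo ≤ a - L)
    (h2 : a < b) (h3 : b < c) (h3' : c < d) (h4 : b - a ≤ L) (h5 : c - b ≤ L) (h6 : d - c ≤ L)
    (hf : ∀ t, a - L ≤ t → t ≤ d + L → (f t = true ↔ t = a ∨ t = b ∨ t = c ∨ t = d)) :
    d - c = b - a := by
  have key := h.symm (u := a) (v := d) (L := L) (by omega) h1 (by omega)
    (fun t t1 t2 => by rw [← Bool.not_eq_true, hf t t1 (by omega)]; omega)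
    (fun t t1 t2 => by rw [← Bool.not_eq_true, hf t (by omega) t2]; omega)
    (fun s s1 s2 => by
      by_cases k1 : s ≤ a
      · exact ⟨a, k1, by omega, by rw [hf _ (by omega) (by omega)]; omega⟩
      by_cases k2 : s ≤ b
      · exact ⟨b, k2, by omega, by rw [hf _ (by omega) (by omega)]; omega⟩
      by_cases k3 : s ≤ c
      · exact ⟨c, k3, by omega, by rw [hf _ (by omega) (by omega)]; omega⟩
      · exact ⟨d, s2, by omega, by rw [hf _ (by omega) (by omega)]; omega⟩)
  have k1 := key b (by omega) (by omega)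
  have k2 := key c (by omega) (by omega)
  rw [Bool.eq_iff_iff, hf _ (by omega) (by omega), hf _ (by omega) (by omega)] at k1 k2
  omega

/-- lower bound for gaps whose residues cycle through all classes -/
lemma RichFrom.lower {f : ℤ → Bool} {lo : ℤ} (h : RichFrom f lo) (ex : ℕ → Prop) (m : ℕ → ℤ)
    (j0 : ℕ) (h0 : ∀ j, j0 ≤ j → ex (j + 1) → ex j ∧ m j < m (j + 1))
    (h1 : ∀ j, j0 ≤ j → ex j → lo ≤ m j ∧ m j % 3 = if j % 3 = 2 then 1 else 0)
    (hf : ∀ t, lo ≤ t → (f t = true ↔ ∃ j, j0 ≤ j ∧ ex j ∧ m j = t))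
    (i j : ℕ) (hi : j0 ≤ i) (hij : i < j) (hj : ex (j + 2)) :
    m (i + 1) - m i ≤ m (j + 1) - m j ∨ m (i + 1) - m i ≤ m (j + 2) - m (j + 1) := by
  classical
  have mono : ∀ x y, j0 ≤ x → x < y → ex y → ex x ∧ m x < m y := by
    intro x y hx hxy
    induction y, hxy using Nat.le_induction with
    | base => exact h0 x hx
    | succ y hy ih =>
      intro k
      have a := h0 y (by omega) k
      have b := ih a.1
      exact ⟨b.1, b.2.trans a.2⟩
  have mle : ∀ x y, j0 ≤ x → x ≤ y → ex y → ex x ∧ m x ≤ m y := by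
    intro x y hx hxy k
    rcases hxy.eq_or_lt with rfl | hxy
    · exact ⟨k, le_rfl⟩
    · exact ⟨(mono x y hx hxy k).1, (mono x y hx hxy k).2.le⟩
  have K : ∀ (μ : ℤ) (i l : ℕ), j0 ≤ i → i + 3 ≤ l → ex l → μ < m (i + 1) - m i →
      (ex (l + 1) → μ < m (l + 1) - m l) → (∀ x, i < x → x < l → m (x + 1) - m x ≤ μ) → False := by
    intro μ i l a1 a2 a3 a4 a5 a6
    obtain ⟨l, rfl⟩ : ∃ l', l = l' + 2 := ⟨l - 2, by omega⟩
    have e0 := mono i (l + 2) a1 (by omega) a3
    have e1 := mono (i + 1) (l + 2) (by omega) (by omega) a3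
    have e2 := mono (i + 2) (l + 2) (by omega) (by omega) a3
    have e3 := mle (i + 3) (l + 2) (by omega) (by omega) a3
    have e4 := mono (l + 1) (l + 2) (by omega) (by omega) a3
    have e5 := mono l (l + 1) (by omega) (by omega) e4.1
    have e6 := mono (i + 1) (i + 2) (by omega) (by omega) e2.1
    have e7 := mono (i + 2) (i + 3) (by omega) (by omega) e3.1
    have e8 := mle (i + 1) l (by omega) (by omega) e5.1
    have e9 := a6 (i + 1) (by omega) (by omega)
    have r0 := h1 i a1 e0.1
    change m (i + 2) - _ ≤ _ at e9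
    have sy := h.symm (u := m (i + 1)) (v := m (l + 2)) (L := μ) (by omega) (by omega) (by omega)
      (fun t t1 t2 => by
        rw [← Bool.not_eq_true, hf t (by omega)]
        rintro ⟨x, x1, x2, rfl⟩
        by_cases hx : x ≤ i
        · have := mle x i x1 hx e0.1
          omega
        · have := mle (i + 1) x (by omega) (by omega) x2
          omega)
      (fun t t1 t2 => by
        rw [← Bool.not_eq_true, hf t (by omega)]
        rintro ⟨x, x1, x2, rfl⟩
        by_cases hx : x ≤ l + 2
        · have := mle x (l + 2) x1 hx a3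
          omega
        · have := mle (l + 2 + 1) x (by omega) (by omega) x2
          have := a5 this.1
          omega)
      (fun s s1 s2 => by
        have hex : ∃ x, i + 1 ≤ x ∧ x ≤ l + 2 ∧ s ≤ m x := ⟨l + 2, by omega, le_rfl, s2⟩
        obtain ⟨x1, x2, x3⟩ := Nat.find_spec hex
        have x4 := @Nat.find_min _ _ hex
        generalize Nat.find hex = x at x1 x2 x3 x4
        have ex' := mle x (l + 2) (by omega) x2 a3
        refine ⟨m x, x3, ?_, (hf _ (h1 x (by omega) ex'.1).1).mpr ⟨x, by omega, ex'.1, rfl⟩⟩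
        rcases x1.eq_or_lt with rfl | x1
        · omega
        · obtain ⟨x, rfl⟩ : ∃ y, x = y + 1 := ⟨x - 1, by omega⟩
          have := @x4 x (by omega)
          have := a6 x (by omega) (by omega)
          omega)
    have refl : ∀ x, i + 1 ≤ x → x ≤ l + 2 →
        ∃ y, j0 ≤ y ∧ ex y ∧ m y = m (i + 1) + m (l + 2) - m x := by
      intro x x1 x2
      have k1 := mle x (l + 2) (by omega) x2 a3
      have k2 := mle (i + 1) x (by omega) x1 k1.1
      rw [← hf _ (by omega), ← sy _ k2.2 k1.2, hf _ (by omega)]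
      exact ⟨x, by omega, k1.1, rfl⟩
    have up : ∀ x y, j0 ≤ x → j0 ≤ y → ex y → ex (x + 1) → m y < m (x + 1) → m y ≤ m x := by
      intro x y b1 b2 b3 b4 b5
      by_cases hx : y ≤ x
      · exact (mle y x b2 hx (h0 x b1 b4).1).2
      · have := mle (x + 1) y (by omega) (by omega) b3
        omega
    have dn : ∀ x y, j0 ≤ x → j0 ≤ y → ex y → ex x → m x < m y → m (x + 1) ≤ m y := by
      intro x y b1 b2 b3 b4 b5
      by_cases hx : y ≤ x
      · have := mle y x b2 hx b4
        omega
      · exact (mle (x + 1) y (by omega) (by omega) b3).2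
    obtain ⟨y1, b1, c1, d1⟩ := refl (i + 2) (by omega) (by omega)
    obtain ⟨y2, b2, c2, d2⟩ := refl (l + 1) (by omega) (by omega)
    obtain ⟨y3, b3, c3, d3⟩ := refl (i + 3) (by omega) (by omega)
    obtain ⟨y4, b4, c4, d4⟩ := refl l (by omega) (by omega)
    have f1 := up (l + 1) y1 (by omega) b1 c1 a3 (by change _ < m (l + 2); omega)
    have f2 := dn (i + 1) y2 (by omega) b2 c2 e1.1 (by omega)
    change m (i + 2) ≤ _ at f2
    have f3 := up l y3 (by omega) b3 c3 e4.1 (by omega)
    have f4 := dn (i + 2) y4 (by omega) b4 c4 e2.1 (by omega)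
    change m (i + 3) ≤ _ at f4
    have r1 := (h1 (i + 1) (by omega) e1.1).2
    have r2 := (h1 (i + 2) (by omega) e2.1).2
    have r3 := (h1 (i + 3) (by omega) e3.1).2
    have r4 := (h1 l (by omega) e5.1).2
    have r5 := (h1 (l + 1) (by omega) e4.1).2
    have r6 := (h1 (l + 2) (by omega) a3).2
    split_ifs at r1 r2 r3 r4 r5 r6 <;> omega
  have main : ∀ (μ : ℕ) (j : ℕ), i < j → ex (j + 2) → μ < m (i + 1) - m i →
      m (j + 1) - m j ≤ μ → m (j + 2) - m (j + 1) ≤ μ → False := by
    intro μ
    induction μ with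
    | zero =>
      intro j a1 a2 _ _ a5
      have := mono (j + 1) (j + 2) (by omega) (by omega) a2
      omega
    | succ μ ih =>
      intro j a1 a2 a3 a4 a5
      obtain ⟨i', ⟨p1, p2, p3⟩, p4⟩ : ∃ i', (i ≤ i' ∧ i' < j ∧ (μ + 1 : ℕ) < m (i' + 1) - m i') ∧
          ∀ x, i' < x → x < j → m (x + 1) - m x ≤ (μ + 1 : ℕ) := by
        let P : ℕ → Prop := fun x => i ≤ x ∧ x < j ∧ (μ + 1 : ℕ) < m (x + 1) - m x
        refine ⟨Nat.findGreatest P j, Nat.findGreatest_spec (P := P) a1.le ⟨le_rfl, a1, a3⟩,
          fun x x1 x2 => ?_⟩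
        have k1 := Nat.findGreatest_is_greatest x1 x2.le
        have k2 : i ≤ Nat.findGreatest P j := Nat.le_findGreatest a1.le ⟨le_rfl, a1, a3⟩
        by_contra hc
        exact k1 ⟨by omega, x2, by omega⟩
      have all : ∀ n, ex (j + 2 + n) ∧ ∀ x, i' < x → x < j + 2 + n →
          m (x + 1) - m x ≤ (μ + 1 : ℕ) := by
        intro n
        induction n with
        | zero =>
          refine ⟨a2, fun x x1 x2 => ?_⟩
          by_cases k1 : x < j
          · exact p4 x x1 k1
          by_cases k2 : x = j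
          · rwa [k2]
          · rwa [show x = j + 1 by omega]
        | succ n ihn =>
          have : ex (j + 2 + n + 1) ∧ m (j + 2 + n + 1) - m (j + 2 + n) ≤ (μ + 1 : ℕ) := by
            by_contra hc
            refine K (μ + 1 : ℕ) i' (j + 2 + n) (by omega) (by omega) ihn.1 p3 (fun k => ?_) ihn.2
            by_contra hc'
            exact hc ⟨k, by omega⟩
          refine ⟨this.1, fun x x1 x2 => ?_⟩
          by_cases k1 : x < j + 2 + n
          · exact ihn.2 x x1 k1
          · rw [show x = j + 2 + n by omega]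
            exact this.2
      obtain ⟨q1, q2⟩ := all 2
      have g2 : m (j + 3) - m (j + 2) ≤ _ := q2 (j + 2) (by omega) (by omega)
      have g3 : m (j + 4) - m (j + 3) ≤ _ := q2 (j + 3) (by omega) (by omega)
      have q3 := (mono (j + 3) (j + 4) (by omega) (by omega) q1).1
      have r0 := (h1 j (by omega) (mono j (j + 4) (by omega) (by omega) q1).1).2
      have r1 := (h1 (j + 1) (by omega) (mono (j + 1) (j + 4) (by omega) (by omega) q1).1).2
      have r2 := (h1 (j + 2) (by omega) a2).2
      have r3 := (h1 (j + 3) (by omega) q3).2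
      have r4 := (h1 (j + 4) (by omega) q1).2
      have i0 : ¬ (m (j + 1) - m j ≤ μ ∧ m (j + 2) - m (j + 1) ≤ μ) :=
        fun k => ih j a1 a2 (by omega) k.1 k.2
      have i1 : ¬ (m (j + 2) - m (j + 1) ≤ μ ∧ m (j + 3) - m (j + 2) ≤ μ) :=
        fun k => ih (j + 1) (by omega) q3 (by omega) k.1 k.2
      have i2 : ¬ (m (j + 3) - m (j + 2) ≤ μ ∧ m (j + 4) - m (j + 3) ≤ μ) :=
        fun k => ih (j + 2) (by omega) q1 (by omega) k.1 k.2
      split_ifs at r0 r1 r2 r3 r4 <;> omega
  by_contra hc
  have := mono i (i + 1) hi (by omega) (mle (i + 1) (j + 2) (by omega) (by omega) hj).1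
  exact main (m (i + 1) - m i - 1).toNat j hij hj (by omega) (by omega) (by omega)

end Pool.Agent.MP_8e55f0_lc

end

-- part MP_8e55f0_lc.Strip
section

namespace Pool.Agent.MP_8e55f0_lc

open Classical

/-- literals: signed variables and negated clocks -/
abbrev Lit (V : Type) := (V × Bool) ⊕ Fin 3

/-- gates -/
abbrev Gate (V : Type) := Lit V × Lit V × Lit V × V

/-- the five literal occurrences of a gate -/
def Gate.lit {V : Type} (g : Gate V) : Fin 5 → Lit V :=
  ![g.1, g.2.1, g.2.2.1, .inl (g.2.2.2, false), .inl (g.2.2.2, true)]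

/-- truth value of a literal -/
def tv {V : Type} (val : V → ℤ → Bool) (t : ℤ) : Lit V → Prop
  | .inl (v, b) => val v t = b
  | .inr i => t % 3 ≠ i

/-- letters -/
inductive Let (V G : Type)
  | y | z | al | ga (i : Fin 3) | da (i : Fin 3) | db (i : Fin 3)
  | s1 (b : Lit V ⊕ G) | s2 (b : Lit V ⊕ G) | lam (b : Lit V ⊕ G) | sv (v : V)
  | sg (g : G) (o : Fin 5) | p1 (g : G) (o : Fin 5) | p2 (g : G) (o : Fin 5) | p3 (g : G)
  deriving Fintype

/-- columns -/
inductive Col (V G : Type)
  | h1 | h2 | ca (i : Fin 3) | cb (i : Fin 3)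
  | cs1 (b : Lit V ⊕ G) | cs2 (b : Lit V ⊕ G) | cA (b : Lit V ⊕ G) | cA' (b : Lit V ⊕ G)
  | cB (g : G) (o : Fin 5) | cB' (g : G) (o : Fin 5) | gB (g : G) | gB' (g : G)

variable {V G : Type}

/-- link letter of a literal -/
def lnk : Lit V → Let V G
  | .inl (v, _) => .sv v
  | .inr i => if i = 0 then .db 1 else if i = 1 then .da 1 else .ga 1

/-- admissible letters of a column -/
def opt : Col V G → Let V G → Prop
  | .h1, x => x = .al ∨ x = .db 2
  | .h2, x => x = .al ∨ x = .ga 2
  | .ca i, x => x = .ga i ∨ x = .da i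
  | .cb i, x => x = .ga i ∨ x = .db i
  | .cs1 b, x => x = .s1 b
  | .cs2 b, x => x = .s2 b
  | .cA (.inl L), x => x = .lam (.inl L) ∨ x = lnk L
  | .cA (.inr g), x => x = .lam (.inr g) ∨ x = .sg g 0
  | .cA' (.inl L), x => x = .lam (.inl L)
  | .cA' (.inr g), x => x = .lam (.inr g) ∨ x = .sg g 1
  | .cB g o, x => x = .sg g o ∨ x = .p1 g o
  | .cB' g o, x => x = .sg g o ∨ x = .p2 g o
  | .gB g, x => x = .sg g 2 ∨ x = .sg g 3 ∨ x = .sg g 4
  | .gB' g, x => x = .sg g 2 ∨ x = .p3 g

/-- canonical letter of an active column -/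
noncomputable def cur (γ : G → Gate V) (val : V → ℤ → Bool) (t : ℤ) : Col V G → Let V G
  | .h1 => if t % 3 = 0 then .db 2 else .al
  | .h2 => if t % 3 = 2 then .ga 2 else .al
  | .ca i => if wA t = true then .ga i else .da i
  | .cb i => if wB t = true then .ga i else .db i
  | .cs1 b => .s1 b
  | .cs2 b => .s2 b
  | .cA (.inl L) => if tv val t L then .lam (.inl L) else lnk L
  | .cA (.inr g) => if tv val t ((γ g).lit 0) then .lam (.inr g) else .sg g 0
  | .cA' (.inl L) => .lam (.inl L)
  | .cA' (.inr g) => if tv val t ((γ g).lit 1) then .lam (.inr g) else .sg g 1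
  | .cB g o => if tv val t ((γ g).lit o) then .sg g o else .p1 g o
  | .cB' g o => if tv val t ((γ g).lit o) then .sg g o else .p2 g o
  | .gB g => if tv val t ((γ g).lit 2) then
      (if val (γ g).2.2.2 t = true then .sg g 3 else .sg g 4) else .sg g 2
  | .gB' g => if tv val t ((γ g).lit 2) then .p3 g else .sg g 2

/-- activation time -/
def act : Col V G → ℤ
  | .ca _ => -14
  | .cb _ => -14
  | .h2 => -1
  | _ => 0

/-- start of the guard run -/
def gs : Col V G → ℤ
  | .h1 => -1
  | .h2 => -2
  | _ => -14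

/-- guard letter -/
def gd : Col V G → Let V G
  | .h1 => .ga 2
  | .h2 => .da 2
  | .ca _ => .y
  | .cb _ => .y
  | _ => .al

lemma lnk_cases (L : Lit V) : (∃ v b, L = .inl (v, b) ∧ (lnk L : Let V G) = .sv v) ∨
    (L = .inr 0 ∧ (lnk L : Let V G) = .db 1) ∨ (L = .inr 1 ∧ (lnk L : Let V G) = .da 1) ∨
    (L = .inr 2 ∧ (lnk L : Let V G) = .ga 1) := by
  rcases L with ⟨v, b⟩ | i
  · exact Or.inl ⟨v, b, rfl, rfl⟩
  · fin_cases i <;> simp [lnk]

lemma opt_cur (γ : G → Gate V) (val : V → ℤ → Bool) (t : ℤ) (c : Col V G) :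
    opt c (cur γ val t c) := by
  rcases c with _ | _ | i | i | b | b | b | b | _ | _ | _ | _
  any_goals rcases b with L | g
  all_goals simp only [opt, cur]
  all_goals (split_ifs <;> simp)

lemma not_opt (c : Col V G) : ¬ opt c .y ∧ ¬ opt c .z ∧ ¬ opt c (gd c) := by
  rcases c with _ | _ | i | i | b | b | b | b | _ | _ | _ | _
  any_goals rcases b with L | g
  all_goals simp only [opt, gd]
  any_goals (simp; done)
  rcases lnk_cases (G := G) L with ⟨v, b, -, h⟩ | ⟨-, h⟩ | ⟨-, h⟩ | ⟨-, h⟩ <;> simp [h]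

lemma gs_act (c : Col V G) : -14 ≤ gs c ∧ gs c ≤ act c ∧ act c ≤ 0 ∧ gd c ≠ .z ∧
    (gs c < act c → gd c ≠ .y) ∧ (gs c = act c → gd c = .y) := by
  cases c <;> simp [gs, act, gd]

/-- the rigid core -/
def core : List (Col V G) := [.h1, .h2, .ca 0, .ca 1, .ca 2, .cb 0, .cb 1, .cb 2]

/-- owner block of a column -/
def own (γ : G → Gate V) : Col V G → Option (Lit V ⊕ G)
  | .cs1 b => some b
  | .cs2 b => some b
  | .cA b => some b
  | .cA' b => some b
  | .cB g o => some (.inl ((γ g).lit o))
  | .cB' g o => some (.inl ((γ g).lit o))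
  | .gB g => some (.inr g)
  | .gB' g => some (.inr g)
  | _ => none

variable [Fintype V] [Fintype G] (γ : G → Gate V)

/-- occurrences of a literal -/
noncomputable def occs (L : Lit V) : List (G × Fin 5) :=
  (Finset.univ.filter fun x : G × Fin 5 => (γ x.1).lit x.2 = L).toList

/-- inner columns of a block -/
noncomputable def inner : Lit V ⊕ G → List (Col V G)
  | .inl L => (occs γ L).map (fun x => .cB x.1 x.2) ++ ((occs γ L).map fun x => .cB' x.1 x.2).reverse
  | .inr g => [.gB g, .gB' g]

/-- columns of a block -/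
noncomputable def block (b : Lit V ⊕ G) : List (Col V G) :=
  .cs1 b :: .cs2 b :: .cA b :: (inner γ b ++ [.cA' b])

/-- all blocks -/
noncomputable def blocks : List (Lit V ⊕ G) := Finset.univ.toList

/-- all columns -/
noncomputable def cols : List (Col V G) := core ++ blocks.flatMap (block γ)

omit [Fintype V] in
lemma mem_occs {L : Lit V} {x : G × Fin 5} : x ∈ occs γ L ↔ (γ x.1).lit x.2 = L := by
  simp [occs]

omit [Fintype V] in
lemma mem_inner {b : Lit V ⊕ G} {c : Col V G} : c ∈ inner γ b ↔
    (∃ g o, b = .inl ((γ g).lit o) ∧ (c = .cB g o ∨ c = .cB' g o)) ∨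
    ∃ g, b = .inr g ∧ (c = .gB g ∨ c = .gB' g) := by
  rcases b with L | g
  · simp only [inner, List.mem_append, List.mem_map, List.mem_reverse, mem_occs, Prod.exists,
      Sum.inl.injEq, reduceCtorEq, false_and, exists_false, or_false]
    constructor
    · rintro (⟨g, o, h, rfl⟩ | ⟨g, o, h, rfl⟩)
      · exact ⟨g, o, h.symm, Or.inl rfl⟩
      · exact ⟨g, o, h.symm, Or.inr rfl⟩
    · rintro ⟨g, o, rfl, rfl | rfl⟩
      · exact Or.inl ⟨g, o, rfl, rfl⟩
      · exact Or.inr ⟨g, o, rfl, rfl⟩
  · simp [inner]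

omit [Fintype V] in
lemma mem_block {b : Lit V ⊕ G} {c : Col V G} : c ∈ block γ b ↔ own γ c = some b := by
  simp only [block, List.mem_cons, List.mem_append, mem_inner, List.not_mem_nil, or_false]
  constructor
  · rintro (rfl | rfl | rfl | (⟨g, o, rfl, rfl | rfl⟩ | ⟨g, rfl, rfl | rfl⟩) | rfl) <;> rfl
  · intro h
    cases c <;> simp only [own, reduceCtorEq, Option.some.injEq] at h <;> subst h <;> simp

omit [Fintype V] in
lemma nodup_block (b : Lit V ⊕ G) : (block γ b).Nodup := by
  have h : (inner γ b).Nodup := by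
    rcases b with L | g
    · have := Finset.nodup_toList (Finset.univ.filter fun x : G × Fin 5 => (γ x.1).lit x.2 = L)
      simp only [inner, List.nodup_append, List.nodup_reverse]
      refine ⟨this.map fun x y h => ?_, this.map fun x y h => ?_, ?_⟩
      · simpa [Prod.ext_iff] using h
      · simpa [Prod.ext_iff] using h
      · simp only [List.mem_map, List.mem_reverse]
        rintro _ ⟨x, -, rfl⟩ _ ⟨y, -, rfl⟩
        simp
    · simp [inner]
  simp [block, List.nodup_append, h, mem_inner]
  rintro a (⟨g, o, -, rfl | rfl⟩ | ⟨g, -, rfl | rfl⟩) <;> simp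

lemma nodup_cols : (cols γ).Nodup := by
  simp only [cols, List.nodup_append, List.nodup_flatMap]
  refine ⟨by simp [core], ⟨fun b _ => nodup_block γ b, ?_⟩, ?_⟩
  · refine (Finset.nodup_toList _).imp fun {a b} h c ha hb => h ?_
    rw [mem_block] at ha hb
    simpa [ha] using hb
  · intro a ha b hb e
    obtain ⟨B, -, hB⟩ := List.mem_flatMap.mp hb
    rw [mem_block, ← e] at hB
    simp only [core, List.mem_cons, List.not_mem_nil, or_false] at ha
    rcases ha with rfl | rfl | rfl | rfl | rfl | rfl | rfl | rfl <;> simp [own] at hB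

lemma mem_cols (c : Col V G) : c ∈ cols γ := by
  simp only [cols, List.mem_append, List.mem_flatMap, mem_block, blocks, Finset.mem_toList,
    Finset.mem_univ, true_and]
  rcases c with _ | _ | i | i | b | b | b | b | _ | _ | _ | _
  any_goals (right; exact ⟨_, rfl⟩)
  any_goals fin_cases i
  all_goals simp [core]

/-- letters written in the history of a column -/
noncomputable def hist (c : Col V G) : List (Let V G) :=
  (Finset.univ.filter fun x => ¬ opt c x ∧ x ≠ .y ∧ x ≠ .z ∧ x ≠ gd c).toList

/-- first row of the history block of column `j` -/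
noncomputable def t1 (j : ℕ) : ℤ :=
  -14 - (Fintype.card (Let V G) * (cols γ).length : ℕ) + (Fintype.card (Let V G) * j : ℕ)

/-- canonical content of a strip column -/
noncomputable def cell (val : V → ℤ → Bool) (j : ℕ) (c : Col V G) (t : ℤ) : Let V G :=
  if act c ≤ t then cur γ val t c else if gs c ≤ t then gd c else if t < t1 γ j then .z
  else (hist c).getD (t - t1 γ j).toNat .y

/-- the canonical plane -/
noncomputable def plane (val : V → ℤ → Bool) (t j : ℤ) : Let V G :=
  if j < 0 then .y else
    if h : j.toNat < (cols γ).length then cell γ val j.toNat (cols γ)[j.toNat] t else .z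

omit [Fintype V] [Fintype G] in
lemma getD_cases (l : List (Let V G)) (k : ℕ) :
    (∃ h : k < l.length, l.getD k .y = l[k]) ∨ (l.length ≤ k ∧ l.getD k .y = .y) := by
  by_cases h : k < l.length
  · exact Or.inl ⟨h, by simp [h]⟩
  · exact Or.inr ⟨by omega, by simp [List.getD, List.getElem?_eq_none (not_lt.mp h)]⟩

lemma mem_hist {c : Col V G} {x : Let V G} :
    x ∈ hist c ↔ ¬ opt c x ∧ x ≠ .y ∧ x ≠ .z ∧ x ≠ gd c := by simp [hist]

lemma hist_length (c : Col V G) : (hist c).length < Fintype.card (Let V G) := by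
  rw [hist, Finset.length_toList]
  exact Finset.card_lt_card ⟨Finset.subset_univ _, fun h => by simpa using h (Finset.mem_univ .y)⟩

lemma t1_lt {i j : ℕ} (h : i < j) : t1 γ i + Fintype.card (Let V G) ≤ t1 γ j := by
  have := Nat.mul_le_mul_left (Fintype.card (Let V G)) (show i + 1 ≤ j from h)
  rw [mul_add, mul_one] at this
  unfold t1
  omega

lemma t1_le {j : ℕ} (h : j < (cols γ).length) : t1 γ j + Fintype.card (Let V G) ≤ -14 := by
  have := t1_lt γ h
  unfold t1 at this ⊢
  omega

lemma t1_ge (j : ℕ) : t1 γ 0 ≤ t1 γ j := by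
  unfold t1
  omega

lemma cell_pre (val : V → ℤ → Bool) (j : ℕ) (c : Col V G) {t : ℤ} (ht : t < act c) :
    (t < gs c ∧ t < t1 γ j ∧ cell γ val j c t = .z) ∨
    (t < gs c ∧ t1 γ j ≤ t ∧ ∃ h : (t - t1 γ j).toNat < (hist c).length,
      cell γ val j c t = (hist c)[(t - t1 γ j).toNat]) ∨
    (t < gs c ∧ t1 γ j + (hist c).length ≤ t ∧ cell γ val j c t = .y) ∨
    (gs c ≤ t ∧ cell γ val j c t = gd c) := by
  unfold cell
  rw [if_neg (by omega)]
  split_ifs with h1 h2
  · exact Or.inr (Or.inr (Or.inr ⟨h1, rfl⟩))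
  · exact Or.inl ⟨by omega, h2, rfl⟩
  · rcases getD_cases (hist c) (t - t1 γ j).toNat with ⟨h, e⟩ | ⟨h, e⟩
    · exact Or.inr (Or.inl ⟨by omega, by omega, h, e⟩)
    · exact Or.inr (Or.inr (Or.inl ⟨by omega, by omega, e⟩))

lemma cell_not_opt (val : V → ℤ → Bool) (j : ℕ) (c : Col V G) {t : ℤ} (ht : t < act c) :
    ¬ opt c (cell γ val j c t) := by
  have := not_opt c
  rcases cell_pre γ val j c ht with ⟨-, -, e⟩ | ⟨-, -, h, e⟩ | ⟨-, -, e⟩ | ⟨-, e⟩ <;> rw [e]
  · exact this.2.1
  · exact (mem_hist.mp (List.getElem_mem h)).1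
  · exact this.1
  · exact this.2.2

lemma cell_act (val : V → ℤ → Bool) (j : ℕ) (c : Col V G) {t : ℤ} (ht : act c ≤ t) :
    cell γ val j c t = cur γ val t c := by
  simp [cell, ht]

lemma cell_cover (val : V → ℤ → Bool) {j : ℕ} (hj : j < (cols γ).length) (c : Col V G)
    {x : Let V G} (hx : ¬ opt c x) :
    ∃ s, t1 γ 0 - 1 ≤ s ∧ s < act c ∧ cell γ val j c s = x := by
  have k1 := t1_le γ hj
  have k2 := t1_ge γ j
  have k3 := hist_length c
  obtain ⟨g1, g2, g3, g4, g5, g6⟩ := gs_act c
  by_cases hz : x = .z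
  · refine ⟨t1 γ 0 - 1, le_rfl, by omega, ?_⟩
    rw [cell, if_neg (by omega), if_neg (by omega), if_pos (by omega), hz]
  by_cases hy : x = .y
  · refine ⟨-15, by omega, by omega, ?_⟩
    rcases cell_pre γ val j c (show -15 < act c by omega) with
      ⟨-, _, e⟩ | ⟨-, _, h, e⟩ | ⟨-, -, e⟩ | ⟨_, e⟩
    any_goals omega
    rw [e, hy]
  by_cases hg : x = gd c
  · have : gs c < act c := by
      by_contra hc
      exact hy (hg.trans (g6 (by omega)))
    refine ⟨gs c, by omega, this, ?_⟩
    rw [cell, if_neg (by omega), if_pos le_rfl, hg]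
  · obtain ⟨k, h, e⟩ := List.getElem_of_mem (mem_hist.mpr ⟨hx, hy, hz, hg⟩)
    refine ⟨t1 γ j + k, by omega, by omega, ?_⟩
    rw [cell, if_neg (by omega), if_neg (by omega), if_neg (by omega)]
    simp [h, e]

lemma cell_guard (val : V → ℤ → Bool) {j : ℕ} (hj : j < (cols γ).length) (c : Col V G) :
    cell γ val j c (act c - 1) = gd c := by
  have k1 := t1_le γ hj
  have k3 := hist_length c
  obtain ⟨g1, g2, g3, g4, g5, g6⟩ := gs_act c
  rcases cell_pre γ val j c (show act c - 1 < act c by omega) with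
    ⟨_, _, e⟩ | ⟨_, _, h, e⟩ | ⟨_, -, e⟩ | ⟨_, e⟩
  · omega
  · omega
  · rw [e, g6 (by omega)]
  · exact e

lemma cell_runs (val : V → ℤ → Bool) (j : ℕ) (c : Col V G) (a b : ℤ) (h1 : a < b)
    (h2 : b < act c) (h3 : cell γ val j c a = cell γ val j c b) (i : ℤ) (i1 : a ≤ i)
    (i2 : i ≤ b) : cell γ val j c i = cell γ val j c a := by
  obtain ⟨g1, g2, g3, g4, g5, g6⟩ := gs_act c
  have hh : ∀ k (h : k < (hist c).length), (hist c)[k] ≠ .y ∧ (hist c)[k] ≠ .z ∧
    (hist c)[k] ≠ gd c := fun k h => (mem_hist.mp (List.getElem_mem h)).2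
  have nd : (hist c).Nodup := Finset.nodup_toList _
  rcases cell_pre γ val j c (show a < act c by omega) with
    ⟨_, _, ea⟩ | ⟨_, _, ha, ea⟩ | ⟨_, _, ea⟩ | ⟨_, ea⟩ <;>
  rcases cell_pre γ val j c h2 with ⟨_, _, eb⟩ | ⟨_, _, hb, eb⟩ | ⟨_, _, eb⟩ | ⟨_, eb⟩ <;>
  rw [ea, eb] at h3
  all_goals first | omega | exact ((hh _ _).2.1 h3.symm).elim | exact ((hh _ _).1 h3).elim |
    exact ((hh _ _).2.2 h3).elim | exact (g4 h3.symm).elim | exact (g5 (by omega) h3.symm).elim |
    (simp at h3; done) | skip
  · rcases cell_pre γ val j c (show i < act c by omega) with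
      ⟨_, _, e⟩ | ⟨_, _, h, e⟩ | ⟨_, _, e⟩ | ⟨_, e⟩ <;> first | omega | rw [e, ea]
  · have := (List.Nodup.getElem_inj_iff nd).mp h3
    omega
  · rcases cell_pre γ val j c (show i < act c by omega) with
      ⟨_, _, e⟩ | ⟨_, _, h, e⟩ | ⟨_, _, e⟩ | ⟨_, e⟩ <;> first | omega | rw [e, ea]
  · rcases cell_pre γ val j c (show i < act c by omega) with
      ⟨_, _, e⟩ | ⟨_, _, h, e⟩ | ⟨_, _, e⟩ | ⟨_, e⟩ <;> first | omega | rw [e, ea]

/-- conditions on the canonical assignment -/
structure GoodC (val : V → ℤ → Bool) : Prop where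
  rich : ∀ v, RichFrom (val v) 0
  cl : ∀ g t, 0 ≤ t → tv val t (γ g).1 → tv val t (γ g).2.1 → tv val t (γ g).2.2.1 → False
  bet : ∀ g, RichFrom
    (fun t => if tv val t (γ g).2.2.1 then some (val (γ g).2.2.2 t) else none) 0

/-- conditions satisfied by the assignment read off a rich plane -/
structure GoodS (val : V → ℤ → Bool) : Prop where
  rich : ∀ v, RichFrom (val v) 0
  bet : ∀ g, ∃ β : ℤ → Option Bool, RichFrom β 0 ∧ ∀ t, 0 ≤ t →
    (tv val t (γ g).1 → tv val t (γ g).2.1 → β t = none) ∧
    (tv val t (γ g).2.2.1 → β t = some (val (γ g).2.2.2 t))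

/-- the finite input -/
noncomputable def inp (enc : Let V G → ℕ) (val : V → ℤ → Bool) (n : ℕ) :
    List ((ℤ × ℤ) × ℕ) :=
  (List.range ((1 - t1 γ 0).toNat + n)).flatMap fun r : ℕ =>
    (List.range (cols γ).length).map fun j : ℕ =>
      ((r + (t1 γ 0 - 1), j), enc (plane γ val (r + (t1 γ 0 - 1)) j))

lemma t1_zero : t1 γ 0 ≤ -14 := by
  unfold t1
  omega

lemma mem_inp {enc : Let V G → ℕ} {val : V → ℤ → Bool} {n : ℕ} {x : (ℤ × ℤ) × ℕ} :
    x ∈ inp γ enc val n ↔ t1 γ 0 - 1 ≤ x.1.1 ∧ x.1.1 < n ∧ 0 ≤ x.1.2 ∧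
      x.1.2 < (cols γ).length ∧ x.2 = enc (plane γ val x.1.1 x.1.2) := by
  have := t1_zero γ
  simp only [inp, List.mem_flatMap, List.mem_range, List.mem_map]
  constructor
  · rintro ⟨r, h1, j, h2, rfl⟩
    exact ⟨by simp only; omega, by simp only; omega, by simp, by simpa using h2, rfl⟩
  · obtain ⟨⟨t, j⟩, x⟩ := x
    rintro ⟨h1, h2, h3, h4, h5⟩
    simp only at h1 h2 h3 h4 h5
    refine ⟨(t - (t1 γ 0 - 1)).toNat, by omega, j.toNat, by omega, ?_⟩
    rw [h5, show ((t - (t1 γ 0 - 1)).toNat : ℤ) + (t1 γ 0 - 1) = t by omega,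
      show (j.toNat : ℤ) = j by omega]

lemma nodup_inp (enc : Let V G → ℕ) (val : V → ℤ → Bool) (n : ℕ) :
    ((inp γ enc val n).map Prod.fst).Nodup := by
  simp only [inp, List.map_flatMap, List.map_map, List.nodup_flatMap]
  refine ⟨fun r _ => List.nodup_range.map fun a b h => by simpa using h, ?_⟩
  refine List.nodup_range.imp fun {a b} h x ha hb => h ?_
  simp only [List.mem_map, Function.comp] at ha hb
  obtain ⟨_, -, rfl⟩ := ha
  obtain ⟨_, -, e⟩ := hb
  simp only [Prod.mk.injEq] at e
  omega

lemma plane_idx (val : V → ℤ → Bool) (t : ℤ) (c : Col V G) :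
    plane γ val t ((cols γ).idxOf c : ℕ) = cell γ val ((cols γ).idxOf c) c t := by
  have := List.idxOf_lt_length_of_mem (mem_cols γ c)
  simp [plane, this]

omit [Fintype V] [Fintype G] in
lemma seg_cols {l : List (Col V G)} (h : l.Nodup) (F : ℤ → Let V G) :
    seg F 0 l.length = l.map fun c => F (l.idxOf c : ℕ) := by
  apply List.ext_getElem (by simp)
  intro k h1 h2
  rw [seg_getElem, List.getElem_map, h.idxOf_getElem]
  simp

end Pool.Agent.MP_8e55f0_lc

end

-- part MP_8e55f0_lc.StripC
section

set_option linter.constructorNameAsVariable false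

namespace Pool.Agent.MP_8e55f0_lc

open Classical

variable {V G : Type}

lemma RichFrom.ite {α : Type} {f : ℤ → Bool} {lo : ℤ} (h : RichFrom f lo) {p : ℤ → Prop}
    (hp : ∀ t, p t ↔ f t = true) {x y : α} (hxy : x ≠ y) [∀ t, Decidable (p t)] :
    RichFrom (fun t => if p t then x else y) lo := by
  refine h.recode fun s t _ _ => ?_
  simp only [hp]
  cases f s <;> cases f t <;> simp [hxy, hxy.symm]

lemma tv_rich {val : V → ℤ → Bool} (h : ∀ v, RichFrom (val v) 0) (L : Lit V) :
    RichFrom (fun t => decide (tv val t L)) 0 := by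
  rcases L with ⟨v, b⟩ | i
  · refine (h v).recode fun s t _ _ => ?_
    rw [decide_eq_decide]
    simp only [tv]
    cases val v s <;> cases val v t <;> cases b <;> simp
  · refine (richFrom_clock i).recode fun s t _ _ => ?_
    rw [decide_eq_decide, decide_eq_decide]
    simp only [tv]
    tauto

lemma wA_pos {t : ℤ} (h : 0 ≤ t) : wA t = true ↔ t % 3 = 1 := by
  simp only [wA, decide_eq_true_iff]
  omega

lemma wB_pos {t : ℤ} (h : 0 ≤ t) : wB t = true ↔ t % 3 = 0 := by
  simp only [wB, decide_eq_true_iff]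
  omega

lemma wA_wB (t : ℤ) : ¬ (wA t = true ∧ wB t = true) := by
  simp only [wA, wB, decide_eq_true_iff]
  omega

lemma lam_ne_lnk (b : Lit V ⊕ G) (L : Lit V) : Let.lam b ≠ lnk L := by
  rcases lnk_cases (G := G) L with ⟨v, b, -, h⟩ | ⟨-, h⟩ | ⟨-, h⟩ | ⟨-, h⟩ <;> simp [h]

lemma opt_s1 {c : Col V G} {b : Lit V ⊕ G} (h : opt c (.s1 b)) : c = .cs1 b := by
  rcases c with _ | _ | i | i | b | b | b | b | _ | _ | _ | _
  any_goals rcases b with L | g
  all_goals simp only [opt] at h
  any_goals (simp at h; done)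
  any_goals (simp at h; rw [h])
  rcases lnk_cases (G := G) L with ⟨v, b, -, e⟩ | ⟨-, e⟩ | ⟨-, e⟩ | ⟨-, e⟩ <;> simp [e] at h

lemma opt_s2 {c : Col V G} {b : Lit V ⊕ G} (h : opt c (.s2 b)) : c = .cs2 b := by
  rcases c with _ | _ | i | i | b | b | b | b | _ | _ | _ | _
  any_goals rcases b with L | g
  all_goals simp only [opt] at h
  any_goals (simp at h; done)
  any_goals (simp at h; rw [h])
  rcases lnk_cases (G := G) L with ⟨v, b, -, e⟩ | ⟨-, e⟩ | ⟨-, e⟩ | ⟨-, e⟩ <;> simp [e] at h

/-- the block holding a letter in a canonical row -/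
noncomputable def lown (γ : G → Gate V) (val : V → ℤ → Bool) (t : ℤ) :
    Let V G → Option (Lit V ⊕ G)
  | .ga i => if i = 1 ∧ t % 3 = 2 then some (.inl (.inr 2)) else none
  | .da i => if i = 1 ∧ t % 3 = 1 then some (.inl (.inr 1)) else none
  | .db i => if i = 1 ∧ t % 3 = 0 then some (.inl (.inr 0)) else none
  | .s1 b => some b
  | .s2 b => some b
  | .lam b => some b
  | .sv v => some (.inl (.inl (v, !val v t)))
  | .sg g o => if tv val t ((γ g).lit o) then some (.inl ((γ g).lit o)) else some (.inr g)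
  | .p1 g o => some (.inl ((γ g).lit o))
  | .p2 g o => some (.inl ((γ g).lit o))
  | .p3 g => some (.inr g)
  | _ => none

lemma lown_cur (γ : G → Gate V) (val : V → ℤ → Bool) {t : ℤ} (ht : 0 ≤ t) (c : Col V G) :
    lown γ val t (cur γ val t c) = own γ c := by
  have hA := wA_pos ht
  have hB := wB_pos ht
  rcases c with _ | _ | i | i | b | b | b | b | _ | _ | g | _
  any_goals rcases b with L | g
  all_goals simp only [cur, own]
  all_goals (try split_ifs with h h')
  all_goals (try (simp only [lown]; done))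
  any_goals (simp [lown, h]; done)
  · simp only [lown, ite_eq_right_iff, reduceCtorEq, imp_false]
    rw [hA] at h
    omega
  · simp only [lown, ite_eq_right_iff, reduceCtorEq, imp_false]
    rw [hA] at h
    omega
  · simp only [lown, ite_eq_right_iff, reduceCtorEq, imp_false]
    rw [hB] at h
    omega
  · simp only [lown, ite_eq_right_iff, reduceCtorEq, imp_false]
    rw [hB] at h
    omega
  · rcases lnk_cases (G := G) L with ⟨v, b, rfl, e⟩ | ⟨rfl, e⟩ | ⟨rfl, e⟩ | ⟨rfl, e⟩ <;>
      simp only [tv, ne_eq, not_not] at h <;> rw [e]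
    · simp only [lown, Option.some.injEq, Sum.inl.injEq, Prod.mk.injEq, true_and]
      revert h
      cases val v t <;> cases b <;> simp
    all_goals simpa [lown] using h
  · simp [lown, Gate.lit, tv, h']
  · simp [lown, Gate.lit, tv, h']

variable [Fintype V] [Fintype G] {γ : G → Gate V} {val : V → ℤ → Bool}

omit [Fintype V] [Fintype G] in
lemma cur_rich (h : GoodC γ val) (c : Col V G) :
    RichFrom (fun t => cur γ val t c) (act c) := by
  have k : ∀ (L : Lit V) (x y : Let V G), x ≠ y →
      RichFrom (fun t => if tv val t L then x else y) 0 :=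
    fun L x y hxy => (tv_rich h.rich L).ite (by simp) hxy
  rcases c with _ | _ | i | i | b | b | b | b | _ | _ | g | _
  any_goals rcases b with L | g
  all_goals simp only [cur, act]
  any_goals exact richFrom_const _ _
  any_goals exact k _ _ _ (by simp [lam_ne_lnk])
  · exact (richFrom_clock 0).ite (by simp) (by simp)
  · exact ((richFrom_clock 2).mono (show (0 : ℤ) ≤ -1 + 3 by omega)).shift.ite (by simp) (by simp)
  · exact rich_wA.ite (by simp) (by simp)
  · exact rich_wB.ite (by simp) (by simp)
  · refine (h.bet g).recode fun s t _ _ => ?_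
    change _ ↔ (if tv val s (γ g).2.2.1 then _ else _) = (if tv val t (γ g).2.2.1 then _ else _)
    cases val (γ g).2.2.2 s <;> cases val (γ g).2.2.2 t <;> split_ifs <;> simp_all

lemma cell_rich (h : GoodC γ val) (j : ℕ) (c : Col V G) (lo : ℤ) :
    RichFrom (cell γ val j c) lo := by
  refine richFrom_col (T := act c) ((cur_rich h c).congr fun s hs => (cell_act γ val j c hs).symm)
    (fun a b h1 h2 h3 i i1 i2 => cell_runs γ val j c a b h1 h2 h3 i i1 i2)
    (fun a b h1 h2 h3 => cell_not_opt γ val j c h1 ?_) lo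
  rw [h3, cell_act γ val j c h2]
  exact opt_cur γ val b c

lemma cell_mid {j : ℕ} (hj : j < (cols γ).length) (c : Col V G) {t : ℤ} (ht : -14 ≤ t) :
    cell γ val j c t =
      if act c ≤ t then cur γ val t c else if gs c ≤ t then gd c else .y := by
  have k1 := t1_le γ hj
  have k3 := hist_length c
  split_ifs with h1 h2
  · exact cell_act γ val j c h1
  all_goals
    rcases cell_pre γ val j c (show t < act c by omega) with
      ⟨_, _, e⟩ | ⟨_, _, h, e⟩ | ⟨_, _, e⟩ | ⟨_, e⟩ <;> first | exact e | omega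

omit [Fintype V] in
lemma block_eqPal (h : GoodC γ val) {t : ℤ} (ht : 0 ≤ t) (b : Lit V ⊕ G) :
    EqPal ((block γ b).map (cur γ val t)) := by
  have k : EqPal ((Col.cA b :: (inner γ b ++ [.cA' b])).map (cur γ val t)) := by
    rcases b with L | g
    · have nd := Finset.nodup_toList (Finset.univ.filter fun x : G × Fin 5 => (γ x.1).lit x.2 = L)
      change (occs γ L).Nodup at nd
      by_cases hL : tv val t L
      · have e1 : (occs γ L).map (fun x => cur γ val t (.cB x.1 x.2)) =
            (occs γ L).map fun x => .sg x.1 x.2 :=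
          List.map_congr_left fun x hx => by simp [cur, (mem_occs γ).mp hx, hL]
        have e2 : (occs γ L).map (fun x => cur γ val t (.cB' x.1 x.2)) =
            (occs γ L).map fun x => .sg x.1 x.2 :=
          List.map_congr_left fun x hx => by simp [cur, (mem_occs γ).mp hx, hL]
        simp only [inner, List.map_cons, List.map_append, List.map_reverse, List.map_map,
          Function.comp_def, e1, e2, List.map_nil]
        simp only [cur, hL, if_true]
        refine (eqPal_mirror (nd.map fun x y h => ?_)).wrap (by simp) (by simp)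
        simpa [Prod.ext_iff] using h
      · have e1 : (occs γ L).map (fun x => cur γ val t (.cB x.1 x.2)) =
            (occs γ L).map fun x => .p1 x.1 x.2 :=
          List.map_congr_left fun x hx => by simp [cur, (mem_occs γ).mp hx, hL]
        have e2 : (occs γ L).map (fun x => cur γ val t (.cB' x.1 x.2)) =
            (occs γ L).map fun x => .p2 x.1 x.2 :=
          List.map_congr_left fun x hx => by simp [cur, (mem_occs γ).mp hx, hL]
        simp only [inner, List.map_cons, List.map_append, List.map_reverse, List.map_map,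
          Function.comp_def, e1, e2, List.map_nil]
        simp only [cur, hL, if_false]
        refine eqPal_nodup ?_
        have n1 : ((occs γ L).map fun x => (Let.p1 x.1 x.2 : Let V G)).Nodup :=
          nd.map fun x y h => by simpa [Prod.ext_iff] using h
        have n2 : ((occs γ L).map fun x => (Let.p2 x.1 x.2 : Let V G)).Nodup :=
          nd.map fun x y h => by simpa [Prod.ext_iff] using h
        rcases lnk_cases (G := G) L with ⟨v, b, -, e⟩ | ⟨-, e⟩ | ⟨-, e⟩ | ⟨-, e⟩ <;>
          simp [e, List.nodup_append, n1, n2] <;>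
          exact ⟨by rintro _ _ _ _ rfl; simp, by
            rintro _ _ _ _ rfl _ (⟨_, _, _, rfl⟩ | rfl) <;> simp⟩
    · have hc := h.cl g t ht
      change tv val t ((γ g).lit 0) → tv val t ((γ g).lit 1) → tv val t ((γ g).lit 2) → _ at hc
      simp only [inner, List.map_cons, List.cons_append, List.nil_append, List.map_nil, cur]
      by_cases h2 : tv val t ((γ g).lit 2)
      · refine eqPal_nodup ?_
        simp only [h2, if_true]
        split_ifs <;> simp_all
      · simp only [h2, if_false]
        have k2 : EqPal [(Let.sg g 2 : Let V G), .sg g 2] := eqPal_const (y := .sg g 2) (by simp)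
        have k3 : ∀ x y : Let V G, x ≠ y → x ≠ .sg g 2 → y ≠ .sg g 2 →
            EqPal [x, .sg g 2, .sg g 2, y] := fun x y a b c =>
          (eqPal_nodup (u := [x]) (by simp)).append
            (k2.append (eqPal_nodup (u := [y]) (by simp)) (by simp [c])) (by simp [a, b])
        split_ifs
        · exact k2.wrap (by simp) (by simp)
        all_goals exact k3 _ _ (by simp) (by simp) (by simp)
  have nd := nodup_block γ b
  simp only [block, List.nodup_cons, List.mem_cons, not_or] at nd
  refine (eqPal_nodup (u := [.s1 b, .s2 b]) (by simp)).append k ?_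
  intro x hx hx'
  obtain ⟨c, hc, rfl⟩ := List.mem_map.mp hx'
  have := opt_cur γ val t c
  simp only [List.mem_cons, List.not_mem_nil, or_false] at hx hc
  rcases hx with e | e <;> rw [e] at this
  · rw [opt_s1 this] at hc
    tauto
  · rw [opt_s2 this] at hc
    tauto

lemma mem_main {c : Col V G} (hc : c ∈ blocks.flatMap (block γ)) :
    act c = 0 ∧ gs c = -14 ∧ gd c = .al ∧ own γ c ≠ none := by
  obtain ⟨b, -, hb⟩ := List.mem_flatMap.mp hc
  rw [mem_block] at hb
  cases c <;> simp [own, act, gs, gd] at hb ⊢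

lemma row_eqPal (h : GoodC γ val) {t : ℤ} (ht : -14 ≤ t) (A : ℕ) :
    EqPal (List.replicate A .y ++ (cols γ).map (fun c : Col V G =>
      if act c ≤ t then cur γ val t c else if gs c ≤ t then gd c else .y) ++
      List.replicate A .z) := by
  have cy : EqPal (List.replicate A (Let.y : Let V G)) :=
    eqPal_const fun x hx => List.eq_of_mem_replicate hx
  have cz : EqPal (List.replicate A (Let.z : Let V G)) :=
    eqPal_const fun x hx => List.eq_of_mem_replicate hx
  have dd : EqPal ([(Let.ga 2 : Let V G), .ga 2] ++ [.da 0, .da 1, .da 2, .db 0, .db 1, .db 2]) :=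
    (eqPal_const (y := .ga 2) (by simp)).append (eqPal_nodup (by simp)) (by simp)
  have ee : EqPal ([(Let.al : Let V G), .al] ++ [.ga 0, .ga 1, .ga 2, .db 0, .db 1, .db 2]) :=
    (eqPal_const (y := .al) (by simp)).append (eqPal_nodup (by simp)) (by simp)
  refine EqPal.append ?_ cz ?_
  swap
  · intro x hx hx'
    rw [List.eq_of_mem_replicate hx'] at hx
    rcases List.mem_append.mp hx with hx | hx
    · simpa using List.eq_of_mem_replicate hx
    · obtain ⟨c, -, e⟩ := List.mem_map.mp hx
      have := opt_cur γ val t c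
      split_ifs at e
      · exact (not_opt c).2.1 (e ▸ this)
      · exact (gs_act c).2.2.2.1 e
  by_cases h0 : 0 ≤ t
  · have e : (cols γ).map (fun c : Col V G =>
        if act c ≤ t then cur γ val t c else if gs c ≤ t then gd c else .y) =
        (cols γ).map (cur γ val t) :=
      List.map_congr_left fun c _ => if_pos (by have := gs_act c; omega)
    rw [e]
    refine cy.append ?_ ?_
    swap
    · intro x hx hx'
      obtain ⟨c, -, e⟩ := List.mem_map.mp hx'
      rw [List.eq_of_mem_replicate hx] at e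
      exact (not_opt c).1 (e ▸ opt_cur γ val t c)
    rw [cols, List.map_append, List.map_flatMap]
    refine EqPal.append ?_ (eqPal_flatMap (fun b _ => block_eqPal h h0 b) ?_) ?_
    · have hA := wA_pos h0
      have hB := wB_pos h0
      simp only [core, List.map_cons, List.map_nil, cur, hA, hB]
      rcases (by omega : t % 3 = 0 ∨ t % 3 = 1 ∨ t % 3 = 2) with k | k | k <;> simp only [k]
      · exact eqPal_nodup (by simp)
      · simpa using ee
      · exact eqPal_nodup (by simp)
    · refine (Finset.nodup_toList _).imp fun {a b} hab x ha hb => hab ?_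
      obtain ⟨c, hc, rfl⟩ := List.mem_map.mp ha
      obtain ⟨c', hc', e⟩ := List.mem_map.mp hb
      rw [mem_block, ← lown_cur γ val h0] at hc hc'
      rw [e, hc] at hc'
      simpa using hc'
    · intro x ha hb
      obtain ⟨c, hc, rfl⟩ := List.mem_map.mp ha
      rw [← List.map_flatMap] at hb
      obtain ⟨c', hc', e⟩ := List.mem_map.mp hb
      apply (mem_main hc').2.2.2
      rw [← lown_cur γ val h0, e, lown_cur γ val h0]
      simp only [core, List.mem_cons, List.not_mem_nil, or_false] at hc
      rcases hc with rfl | rfl | rfl | rfl | rfl | rfl | rfl | rfl <;> rfl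
  · rw [cols, List.map_append, ← List.append_assoc]
    have hm : ∀ x ∈ (blocks.flatMap (block γ)).map (fun c : Col V G =>
        if act c ≤ t then cur γ val t c else if gs c ≤ t then gd c else .y), x = .al := by
      intro x hx
      obtain ⟨c, hc, rfl⟩ := List.mem_map.mp hx
      obtain ⟨e1, e2, e3, -⟩ := mem_main hc
      rw [if_neg (by omega), if_pos (by omega), e3]
    have hAB := wA_wB t
    refine EqPal.append ?_ (eqPal_const hm) ?_
    · simp only [core, List.map_cons, List.map_nil, cur, act, gs, gd, h0, ht, if_true, if_false]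
      by_cases h1 : -1 ≤ t
      · obtain rfl : t = -1 := by omega
        refine cy.append (by simpa [wA, wB] using dd) ?_
        intro x hx
        simp [List.eq_of_mem_replicate hx, wA, wB]
      by_cases h2 : -2 ≤ t
      · obtain rfl : t = -2 := by omega
        have := (eqPal_const (u := List.replicate A (Let.y : Let V G) ++ [.y]) (y := .y)
          (fun x hx => by
            rcases List.mem_append.mp hx with hx | hx
            · exact List.eq_of_mem_replicate hx
            · simpa using hx)).append (eqPal_nodup (u := [.da 2, .ga 0, .ga 1, .ga 2, .db 0,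
              .db 1, .db 2]) (by simp)) (fun x hx => by
              have : x = .y := by
                rcases List.mem_append.mp hx with hx | hx
                · exact List.eq_of_mem_replicate hx
                · simpa using hx
              subst this
              simp)
        simpa [wA, wB] using this
      · simp only [h1, h2, if_false]
        have := (eqPal_const (u := List.replicate A (Let.y : Let V G) ++ [.y, .y]) (y := .y)
          (fun x hx => by
            rcases List.mem_append.mp hx with hx | hx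
            · exact List.eq_of_mem_replicate hx
            · simpa using hx)).append (eqPal_nodup (u := [
            if wA t = true then .ga 0 else .da 0, if wA t = true then .ga 1 else .da 1,
            if wA t = true then .ga 2 else .da 2, if wB t = true then .ga 0 else .db 0,
            if wB t = true then .ga 1 else .db 1, if wB t = true then .ga 2 else .db 2])
            (by revert hAB; cases wA t <;> cases wB t <;> simp)) (fun x hx => by
              have : x = .y := by
                rcases List.mem_append.mp hx with hx | hx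
                · exact List.eq_of_mem_replicate hx
                · simpa using hx
              subst this
              split_ifs <;> simp)
        simpa using this
    · intro x hx hx'
      rw [hm x hx'] at hx
      simp only [core, List.map_cons, List.map_nil, cur, act, gs, gd, h0, ht, if_true,
        if_false] at hx
      by_cases h1 : -1 ≤ t
      · obtain rfl : t = -1 := by omega
        simp [wA, wB] at hx
      · by_cases h2 : -2 ≤ t <;> cases hA : wA t <;> cases hB : wB t <;>
          simp [h1, h2, hA, hB] at hx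

lemma plane_row (h : GoodC γ val) (t lo : ℤ) : RichFrom (plane γ val t) lo := by
  refine richFrom_of_eqpal fun a b _ hab e => ?_
  have pz : ∀ j : ℤ, ((cols γ).length : ℤ) ≤ j → plane γ val t j = .z := fun j hj => by
    rw [plane, if_neg (by omega), dif_neg (by omega)]
  have py : ∀ j : ℤ, j < 0 → plane γ val t j = .y := fun j hj => by rw [plane, if_pos hj]
  by_cases ht : -14 ≤ t
  · obtain ⟨A, h1, h2⟩ : ∃ A : ℕ, -(A : ℤ) ≤ a ∧ b < A := ⟨a.natAbs + b.natAbs + 1, by omega⟩
    refine EqPal.pal (lo := -A) (n := A + (cols γ).length + A) ?_ h1 hab (by omega) e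
    rw [seg_add, seg_add, neg_add_cancel, seg_cols (nodup_cols γ)]
    convert row_eqPal h ht A using 2
    · congr 1
      · refine List.eq_replicate_iff.mpr ⟨by simp, fun x hx => ?_⟩
        obtain ⟨i, i1, i2, rfl⟩ := mem_seg.mp hx
        exact py i (by omega)
      · refine List.map_congr_left fun c _ => ?_
        rw [plane_idx, cell_mid (List.idxOf_lt_length_of_mem (mem_cols γ c)) c ht]
    · refine List.eq_replicate_iff.mpr ⟨by simp, fun x hx => ?_⟩
      obtain ⟨i, i1, i2, rfl⟩ := mem_seg.mp hx
      exact pz i (by omega)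
  · have key : ∀ j : ℤ, (plane γ val t j = .z ∧ 0 ≤ j ∧ (j < (cols γ).length → t < t1 γ j.toNat)) ∨
        (plane γ val t j = .y ∧ j < (cols γ).length ∧ (0 ≤ j → t1 γ j.toNat ≤ t)) ∨
        (plane γ val t j ≠ .z ∧ plane γ val t j ≠ .y ∧ 0 ≤ j ∧ j < (cols γ).length ∧
          t1 γ j.toNat ≤ t ∧ t < t1 γ j.toNat + Fintype.card (Let V G)) := by
      intro j
      by_cases j1 : j < 0
      · exact Or.inr (Or.inl ⟨py j j1, by omega, by omega⟩)
      by_cases j2 : j.toNat < (cols γ).length
      swap
      · exact Or.inl ⟨pz j (by omega), by omega, by omega⟩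
      rw [plane, if_neg j1, dif_pos j2]
      have := gs_act (cols γ)[j.toNat]
      have := hist_length (cols γ)[j.toNat]
      rcases cell_pre γ val j.toNat (cols γ)[j.toNat] (t := t) (by omega) with
        ⟨_, _, e⟩ | ⟨_, _, h, e⟩ | ⟨_, _, e⟩ | ⟨_, e⟩
      · exact Or.inl ⟨e, by omega, by omega⟩
      · have := mem_hist.mp (List.getElem_mem h)
        rw [e]
        exact Or.inr (Or.inr ⟨this.2.2.1, this.2.1, by omega, by omega, by omega, by omega⟩)
      · exact Or.inr (Or.inl ⟨e, by omega, by omega⟩)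
      · omega
    have lt : ∀ i j : ℤ, 0 ≤ i → i < j →
        t1 γ i.toNat + Fintype.card (Let V G) ≤ t1 γ j.toNat :=
      fun i j _ _ => t1_lt γ (by omega)
    have all : ∀ i, a ≤ i → i ≤ b → plane γ val t i = plane γ val t a := by
      intro i i1 i2
      rcases i1.eq_or_lt with rfl | i1
      · rfl
      rcases i2.eq_or_lt with rfl | i2
      · exact e.symm
      have := lt a i
      have := lt i b
      have := lt a b
      rcases key a with ⟨a1, _⟩ | ⟨a1, _⟩ | ⟨a1, a2, _⟩ <;>
      rcases key b with ⟨b1, _⟩ | ⟨b1, _⟩ | ⟨b1, b2, _⟩ <;>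
      rcases key i with ⟨c1, _⟩ | ⟨c1, _⟩ | ⟨c1, c2, _⟩ <;>
      first | omega | exact c1.trans a1.symm | exact (b1 (e ▸ a1)).elim |
        exact (b2 (e ▸ a1)).elim | exact (a1 (e ▸ b1)).elim | exact (a2 (e ▸ b1)).elim |
        (rw [a1, b1] at e; simp at e)
    intro i i1 i2
    rw [all i i1 i2, all (a + b - i) (by omega) (by omega)]

lemma plane_col (h : GoodC γ val) (j lo : ℤ) : RichFrom (fun t => plane γ val t j) lo := by
  unfold plane
  split_ifs
  · exact richFrom_const _ _
  · exact cell_rich h _ _ _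
  · exact richFrom_const _ _

theorem strip_complete {enc : Let V G → ℕ} (he : Function.Injective enc) (h : GoodC γ val)
    (n : ℕ) : Extendable (inp γ enc val n) := by
  refine ⟨fun c => enc (plane γ val c.1 c.2), fun x hx => ((mem_inp γ).mp hx).2.2.2.2.symm,
    fun c => ?_, fun i j n => ⟨?_, ?_⟩⟩
  · beta_reduce
    generalize plane γ val c.1 c.2 = x
    obtain ⟨c, hc⟩ : ∃ c : Col V G, ¬ opt c x := by
      by_contra hc
      push Not at hc
      have h0 := hc (.ca 0)
      have h1 := hc (.ca 1)
      simp only [opt] at h0 h1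
      rcases h0 with rfl | rfl <;> simp at h1
    have hj := List.idxOf_lt_length_of_mem (mem_cols γ c)
    obtain ⟨s, s1, s2, s3⟩ := cell_cover γ val hj c hc
    have := gs_act c
    refine List.mem_map.mpr ⟨((s, ((cols γ).idxOf c : ℕ)), enc x), (mem_inp γ).mpr
      ⟨s1, by simp only; omega, by simp, by simpa using hj, ?_⟩, rfl⟩
    simp only
    rw [plane_idx, s3]
  · exact (richFrom_iff _ _).mp ((plane_row h i j).recode
      (g := fun k => enc (plane γ val i k)) fun _ _ _ _ => he.eq_iff.symm) (n + 1)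
  · exact (richFrom_iff _ _).mp ((plane_col h j i).recode
      (g := fun k => enc (plane γ val k j)) fun _ _ _ _ => he.eq_iff.symm) (n + 1)

end Pool.Agent.MP_8e55f0_lc

end
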