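import Pool.Agent.MP_8e55f0_lc.Mg.TimeS
import Pool.Agent.MP_8e55f0_lc.Mg.StripC

namespace Pool.Agent.MP_8e55f0_lc

open Classical

lemma primrec_cases {β γ ι : Type} [Primcodable β] [Primcodable γ] [Inhabited γ] (g : β → γ)
    (p : ι → β → Prop) (s : Finset ι) (hp : ∀ i ∈ s, PrimrecPred (p i))
    (hc : ∀ i ∈ s, ∀ x y, p i x → p i y → g x = g y) :
    ∃ g', Primrec g' ∧ ∀ x, (∃ i ∈ s, p i x) → g' x = g x := by
  induction s using Finset.induction_on with
  | empty => exact ⟨fun _ => default, Primrec.const _, by simp⟩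
  | insert i s _ ih =>
    obtain ⟨g', h1, h2⟩ := ih (fun j hj => hp j (by simp [hj])) (fun j hj => hc j (by simp [hj]))
    obtain ⟨c, h3⟩ : ∃ c, ∀ x, p i x → c = g x := by
      by_cases h : ∃ y, p i y
      · obtain ⟨y, hy⟩ := h
        exact ⟨g y, fun x hx => hc i (by simp) y x hy hx⟩
      · exact ⟨default, fun x hx => (h ⟨x, hx⟩).elim⟩
    refine ⟨fun x => if p i x then c else g' x,
      Primrec.ite (hp i (by simp)) (Primrec.const _) h1, fun x ⟨j, hj, hx⟩ => ?_⟩
    by_cases h : p i x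
    · simp [h, h3 x h]
    · rcases Finset.mem_insert.mp hj with rfl | hj
      · exact (h hx).elim
      · simp [h, h2 x ⟨j, hj, hx⟩]

lemma primrec_int (d : ℕ) : Primrec fun r : ℕ => (r : ℤ) - d := by
  refine Primrec.encode_iff.mp ((Primrec.ite (Primrec.nat_le.comp (.const d) .id)
    (Primrec.nat_double.comp (Primrec.nat_sub.comp .id (.const d)))
    (Primrec.succ.comp (Primrec.nat_double.comp
      (Primrec.nat_sub.comp (.const (d - 1)) .id)))).of_eq fun r => ?_)
  have e1 : ∀ n : ℕ, Encodable.encode (n : ℤ) = 2 * n := fun n => rfl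
  have e2 : ∀ n : ℕ, Encodable.encode (Int.negSucc n) = 2 * n + 1 := fun n => rfl
  simp only [id]
  split_ifs with h
  · rw [← e1]
    congr 1
    omega
  · rw [Nat.succ_eq_add_one, ← e2]
    congr 1
    omega

section

variable {V G : Type} [Fintype V] [Fintype G] (γ : G → Gate V)

lemma plane_neg (val val' : V → ℤ → Bool) {t : ℤ} (ht : t < 0) (j : ℤ) :
    plane γ val t j = plane γ val' t j := by
  have : ∀ j c, cell γ val j c t = cell γ val' j c t := by
    intro j c
    unfold cell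
    split_ifs with h
    any_goals rfl
    cases c <;> first | rfl | (simp only [act] at h; omega)
  simp only [plane, this]

lemma plane_pos {val val' : V → ℤ → Bool} {t t' : ℤ} (ht : 0 ≤ t) (ht' : 0 ≤ t')
    (h3 : t % 3 = t' % 3) (h : ∀ v, val v t = val' v t') (j : ℤ) :
    plane γ val t j = plane γ val' t' j := by
  have k : ∀ l, tv val t l ↔ tv val' t' l := by
    rintro (⟨v, b⟩ | i) <;> simp [tv, h, h3]
  have : ∀ j c, cell γ val j c t = cell γ val' j c t' := by
    intro j c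
    have := gs_act c
    rw [cell_act γ val j c (by omega), cell_act γ val' j c (by omega)]
    rcases c with _ | _ | i | i | b | b | b | b | _ | _ | _ | _
    any_goals rcases b with L | g
    all_goals simp only [cur, k, h, h3, wA_pos ht, wA_pos ht', wB_pos ht, wB_pos ht']
  simp only [plane, this]

end

namespace MM

variable {P : Type} (M : MM P)

lemma primrec_G (k : ℕ) : Primrec fun N => M.G N k := by
  have h0 : ∀ c, Primrec fun N => M.K * (N + 5) + c := fun c =>
    Primrec.nat_add.comp (Primrec.nat_mul.comp (.const _) (Primrec.nat_add.comp .id (.const 5)))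
      (.const c)
  induction k using Nat.strong_induction_on with
  | _ k ih =>
    match k with
    | 0 => exact h0 40
    | 1 => exact h0 41
    | 2 => exact h0 42
    | k + 3 =>
      exact Primrec.nat_add.comp (Primrec.nat_add.comp (ih (k + 2) (by omega)) (ih k (by omega)))
        (.const 3)

variable {w : ℕ → P}
  (hw : ∀ N k, k ≤ 20 → M.cfg N k = (w k, fun _ => N) ∧ M.dec (w k) = false ∧ ¬ M.halt (w k))
include hw

lemma primrec_Wd {k : ℕ} (hk : k ≤ 19) (ρ : ℕ) : Primrec fun N => M.Wd N k ρ :=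
  (Primrec.nat_mul.comp (.const ρ) (Primrec.nat_add.comp .id (.const 4))).of_eq fun N => by
    simp [Wd, (hw N (k + 1) (by omega)).1]

lemma primrec_Bn {k : ℕ} (hk : k ≤ 19) : Primrec fun N => M.Bn N k := by
  induction k with
  | zero => exact Primrec.const 0
  | succ k ih =>
    exact Primrec.nat_add.comp (ih (by omega)) (Primrec.nat_add.comp (Primrec.nat_add.comp
      (Primrec.nat_add.comp (M.primrec_G _) (M.primrec_Wd hw (by omega) _)) (.const 6))
      (M.primrec_G _))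

lemma primrec_off {k : ℕ} (hk : k ≤ 19) (σ : ℕ) : Primrec fun N => M.off N k σ := by
  unfold off
  split_ifs
  · exact Primrec.const 0
  · exact Primrec.nat_add.comp (Primrec.nat_add.comp (M.primrec_G _) (M.primrec_Wd hw hk _))
      (.const _)
  · exact Primrec.nat_add.comp (Primrec.nat_add.comp (Primrec.nat_add.comp (Primrec.nat_add.comp
      (M.primrec_G _) (M.primrec_Wd hw hk _)) (.const _)) (M.primrec_G _)) (.const _)

lemma primrec_in {α : Type} [Primcodable α] {f g : α → ℕ} (hf : Primrec f) (hg : Primrec g)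
    {k : ℕ} (hk : k ≤ 19) (σ : ℕ) :
    PrimrecPred fun x => M.S (f x) k σ ≤ g x ∧ g x < M.S (f x) k (σ + 1) := by
  have b := Primrec.nat_add.comp hg ((M.primrec_Bn hw (show 14 ≤ 19 by omega)).comp hf)
  have a := fun σ => (Primrec.nat_add.comp (M.primrec_Bn hw hk) (M.primrec_off hw hk σ)).comp hf
  refine ((Primrec.nat_le.comp (a σ) b).and (Primrec.nat_lt.comp b (a (σ + 1)))).of_eq fun x => ?_
  simp only [S]
  omega

lemma cph_eq {N k σ : ℕ} {τ : ℕ} (hk : k ≤ 19) (hσ : σ ≤ 4 * M.K + 7)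
    (h : M.S N k σ ≤ τ ∧ τ < M.S N k (σ + 1)) : M.cph N τ = (M.ctl 0 k, σ) := by
  rw [cph, M.pos_eq N (by omega) hσ h.1 h.2]
  simp [ctl, zf, hw N k (by omega), hw 0 k (by omega)]

variable [Fintype P]

lemma primrec_inp (enc : Let (Var (P × Bool × Fin 12) (Option (Fin 12 × Fin (M.K + 2))) M.aut.m)
    {g // M.aut.IsGate g} → ℕ) : Primrec fun N =>
      inp Subtype.val enc (M.aut.val (M.cph N)) (3 * (M.S N 19 0).toNat) := by
  generalize hγ : (Subtype.val : {g // M.aut.IsGate g} → _) = γ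
  have h0 := t1_zero γ
  obtain ⟨d, hd⟩ : ∃ d : ℕ, (1 - t1 γ 0).toNat = d := ⟨_, rfl⟩
  have hr : ∀ r : ℕ, r + (t1 γ 0 - 1) = (r : ℤ) - d := fun r => by omega
  refine (primrec_cases
    (fun x : (ℕ × ℕ) × ℕ => enc (plane γ (M.aut.val (M.cph x.1.1)) ((x.1.2 : ℤ) - d) x.2))
    (fun (i : (ℕ × ℕ × ℕ) × (ℕ × ℕ) × ℕ × ℕ) x => x.2 = i.1.1 ∧ min x.1.2 d = i.1.2.1 ∧
      (x.1.2 - d) % 3 = i.1.2.2 ∧
      (M.S x.1.1 i.2.1.1 i.2.1.2 ≤ ((x.1.2 - d) / 3 : ℕ) ∧
        ((x.1.2 - d) / 3 : ℕ) < M.S x.1.1 i.2.1.1 (i.2.1.2 + 1)) ∧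
      (M.S x.1.1 i.2.2.1 i.2.2.2 ≤ ((x.1.2 - d + 1) / 3 : ℕ) ∧
        ((x.1.2 - d + 1) / 3 : ℕ) < M.S x.1.1 i.2.2.1 (i.2.2.2 + 1)))
    ((Finset.range (cols γ).length ×ˢ Finset.range (d + 1) ×ˢ Finset.range 3) ×ˢ
      (Finset.range 20 ×ˢ Finset.range (4 * M.K + 8)) ×ˢ Finset.range 20 ×ˢ
        Finset.range (4 * M.K + 8)) ?_ ?_).elim fun g ⟨g1, g2⟩ => ?_
  rotate_right
  · have n1 : Primrec fun N => d + 3 * (M.Bn N 19 - M.Bn N 14) :=
      Primrec.nat_add.comp (.const d) (Primrec.nat_mul.comp (.const 3)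
        (Primrec.nat_sub.comp (M.primrec_Bn hw le_rfl) (M.primrec_Bn hw (by omega))))
    refine (Primrec.list_flatMap (Primrec.list_range.comp n1)
      (g := fun N (r : ℕ) => (List.range (cols γ).length).map fun j : ℕ =>
        (((r : ℤ) - d, (j : ℤ) - (0 : ℕ)), g ((N, r), j)))
      (Primrec.list_map (.const _) (Primrec.pair (Primrec.pair
        ((primrec_int d).comp (Primrec.snd.comp .fst)) ((primrec_int 0).comp .snd))
        g1).to₂).to₂).of_eq fun N => ?_
    have e : (M.S N 19 0).toNat = M.Bn N 19 - M.Bn N 14 := by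
      rw [S_zero]
      omega
    simp only [inp, hd, hr, e]
    refine List.flatMap_congr fun r hr => List.map_congr_left fun j hj => ?_
    rw [List.mem_range] at hr hj
    have key : ∀ τ : ℕ, τ ≤ M.Bn N 19 - M.Bn N 14 → ∃ k σ, k < 20 ∧ σ < 4 * M.K + 8 ∧
        M.S N k σ ≤ τ ∧ τ < M.S N k (σ + 1) := by
      intro τ hτ
      obtain ⟨-, a, b, c⟩ := M.pos_spec N (τ := τ) (by omega)
      refine ⟨_, _, ?_, by omega, b, c⟩
      by_contra hc
      have := M.S_mono0 N (show 19 ≤ (M.pos N τ).1 by omega)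
      have := M.S_bd N (M.pos N τ).1 a
      have := M.S_nonneg N (show 14 ≤ 19 by omega) 0
      omega
    obtain ⟨k1, σ1, a1, a2, a3⟩ := key ((r - d) / 3) (by omega)
    obtain ⟨k2, σ2, b1, b2, b3⟩ := key ((r - d + 1) / 3) (by omega)
    rw [g2 ((N, r), j) ⟨((j, min r d, (r - d) % 3), (k1, σ1), k2, σ2), by
      simp only [Finset.mem_product, Finset.mem_range]; omega, rfl, rfl, rfl, a3, b3⟩]
    simp
  · rintro ⟨⟨j, r, ρ⟩, ⟨k1, σ1⟩, k2, σ2⟩ hi
    simp only [Finset.mem_product, Finset.mem_range] at hi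
    have a : Primrec fun x : (ℕ × ℕ) × ℕ => x.1.2 - d :=
      Primrec.nat_sub.comp (Primrec.snd.comp .fst) (.const d)
    exact (Primrec.eq.comp .snd (.const _)).and ((Primrec.eq.comp
      (Primrec.nat_min.comp (Primrec.snd.comp .fst) (.const d)) (.const _)).and
      ((Primrec.eq.comp (Primrec.nat_mod.comp a (.const 3)) (.const _)).and
      ((M.primrec_in hw (Primrec.fst.comp .fst) (Primrec.nat_div.comp a (.const 3))
        (show k1 ≤ 19 by omega) _).and (M.primrec_in hw (Primrec.fst.comp .fst)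
        (Primrec.nat_div.comp (Primrec.succ.comp a) (.const 3)) (show k2 ≤ 19 by omega) _))))
  · rintro ⟨⟨j, r, ρ⟩, ⟨k1, σ1⟩, k2, σ2⟩ hi ⟨⟨N, s⟩, j1⟩ ⟨⟨N', s'⟩, j2⟩ ⟨rfl, a1, a2, a3, a4⟩
      ⟨rfl, b1, b2, b3, b4⟩
    simp only [Finset.mem_product, Finset.mem_range] at hi a1 a2 a3 a4 b1 b2 b3 b4 ⊢
    refine congrArg enc ?_
    by_cases h : s < d
    · obtain rfl : s = s' := by omega
      exact plane_neg γ _ _ (by omega) _
    refine plane_pos γ (by omega) (by omega) (by omega) (fun v => ?_) _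
    have c1 := M.cph_eq hw (by omega) (by omega) a3
    have c2 := M.cph_eq hw (by omega) (by omega) a4
    have c3 := M.cph_eq hw (by omega) (by omega) b3
    have c4 := M.cph_eq hw (by omega) (by omega) b4
    rw [show (((s - d) / 3 : ℕ) : ℤ) = (s - d) / 3 by omega] at c1
    rw [show (((s - d + 1) / 3 : ℕ) : ℤ) = (s - d + 1) / 3 by omega] at c2
    rw [show (((s' - d) / 3 : ℕ) : ℤ) = (s' - d) / 3 by omega] at c3
    rw [show (((s' - d + 1) / 3 : ℕ) : ℤ) = (s' - d + 1) / 3 by omega] at c4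
    simp only [Aut.val, c1, c2, c3, c4, show ((s : ℤ) - d) % 3 = (s' - d) % 3 by omega]

lemma ext_iff {enc : Let (Var (P × Bool × Fin 12) (Option (Fin 12 × Fin (M.K + 2))) M.aut.m)
    {g // M.aut.IsGate g} → ℕ} (he : Function.Injective enc) (N : ℕ) :
    Extendable (inp Subtype.val enc (M.aut.val (M.cph N)) (3 * (M.S N 19 0).toNat)) ↔
      ∀ k, ¬ M.halt (M.cfg N k).1 := by
  refine ⟨fun h k => ?_, fun h => strip_complete he (M.complete N h) _⟩
  have z := M.S_mono0 N (show 14 ≤ 19 by omega)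
  rw [S14] at z
  obtain ⟨val', h1, h2⟩ := strip_sound he (by omega) h
  obtain ⟨ph, h3, h4⟩ := Aut.sound (by omega) h1 h2 (fun τ a _ => (M.pos_spec N a).2.1)
    fun τ a _ => M.cph_step N a
  by_cases hk : 14 ≤ k
  · exact sound h3 (fun τ a b => h4 τ a (by omega)) k hk
  · rw [(hw N k (by omega)).1]
    exact (hw N k (by omega)).2.2

end MM

theorem undecidable : ¬ ∃ f : List ((ℤ × ℤ) × ℕ) →. Bool, Partrec f ∧
    ∀ w, (w.map Prod.fst).Nodup → ∃ b ∈ f w, (b = true ↔ Extendable w) := by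
  rintro ⟨f, hf, h⟩
  obtain ⟨P, _, M, S, w, h1, h2, hw⟩ := exists_mm
  have := Fintype.ofFinite P
  obtain ⟨enc, he⟩ := Countable.exists_injective_nat
    (Let (Var (P × Bool × Fin 12) (Option (Fin 12 × Fin (M.K + 2))) M.aut.m) {g // M.aut.IsGate g})
  have k := (hf.comp (M.primrec_inp hw enc).to_comp).of_eq_tot (g := fun N => decide (¬ S N))
    fun N => by
      obtain ⟨b, b1, b2⟩ := h _ (nodup_inp Subtype.val enc (M.aut.val (M.cph N))
        (3 * (M.S N 19 0).toNat))
      rw [M.ext_iff hw he, ← not_exists, h2] at b2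
      rwa [show decide (¬ S N) = b by rw [Bool.eq_iff_iff, b2, decide_eq_true_iff]]
  have k' : ComputablePred fun N => ¬ S N := ⟨_, k⟩
  exact h1 (by simpa using k'.not)

end Pool.Agent.MP_8e55f0_lc
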