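import Pool.Agent.MP_8e55f0_lc.Mg.Rows

namespace Pool.Agent.MP_8e55f0_lc

lemma exists_idx {e : ℕ → ℤ} (he : ∀ n, e n < e (n + 1)) {t : ℤ} (ht : e 0 ≤ t) :
    ∃ n, e n ≤ t ∧ t < e (n + 1) := by
  obtain ⟨k, rfl⟩ : ∃ k : ℕ, t = e 0 + k := ⟨(t - e 0).toNat, by omega⟩
  induction k with
  | zero => exact ⟨0, by simp, by simpa using he 0⟩
  | succ k ih =>
    obtain ⟨n, h1, h2⟩ := ih (by omega)
    by_cases h : e 0 + (k + 1 : ℕ) < e (n + 1)
    · exact ⟨n, by omega, h⟩
    · exact ⟨n + 1, by omega, by have := he (n + 1); omega⟩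

/-- richness of a binary word from its runs -/
lemma richFrom_runs {f : ℤ → Bool} {e : ℕ → ℤ} (he : ∀ n, e n < e (n + 1))
    (hf : ∀ n t, e n ≤ t → t < e (n + 1) → f t = decide (n % 2 = 1))
    (hc : ∀ n (j : ℤ), 1 ≤ j → j ≤ e (n + 1) - e n →
      (∀ m, m < n → m % 2 = n % 2 → e (m + 1) - e m < j) ∨
      ∃ (p k : ℕ) (j0 : ℤ), n = p + 2 * k + 2 ∧
        (∀ i, i < k → e (p + k + 1 - i) - e (p + k - i) = e (p + k + i + 3) - e (p + k + i + 2)) ∧
        j ≤ e (p + 1) - e p ∧ 1 ≤ j0 ∧ (j0 = 1 ∨ (k = 0 ∧ j0 = j)) ∧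
        ∀ m, m < p + k → m % 2 = (p + k) % 2 →
          e (m + 2) - e (m + 1) ≠ e (p + k + 2) - e (p + k + 1) ∨ e (m + 1) - e m < j0 ∨
            e (m + 3) - e (m + 2) < j0) : RichFrom f (e 0) := by
  have mono : StrictMono e := strictMono_nat_of_lt_succ he
  have le : ∀ {a b : ℕ}, a ≤ b → e a ≤ e b := fun h => mono.monotone h
  have lt : ∀ {a b : ℕ}, e a < e b → a < b := fun h => mono.lt_iff_lt.mp h
  have par : ∀ {m n : ℕ} {s t : ℤ}, e m ≤ s → s < e (m + 1) → e n ≤ t → t < e (n + 1) →
      (f s = f t ↔ m % 2 = n % 2) := by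
    intro m n s t a b c d
    rw [hf m s a b, hf n t c d, decide_eq_decide]
    omega
  intro b hb
  obtain ⟨n, n1, n2⟩ := exists_idx he hb
  rcases hc n (b - e n + 1) (by omega) (by omega) with h | ⟨p, k, j0, rfl, h1, h2, h3, h4, h5⟩
  · refine ⟨e n, le (Nat.zero_le _), n1, fun i i1 i2 => ?_, fun d d1 d2 d3 => ?_⟩
    · exact (par i1 (by omega) (by omega) (by omega : e n + b - i < e (n + 1))).mpr rfl
    · obtain ⟨m, m1, m2⟩ := exists_idx he d2
      have hm : m < n := lt (by omega)
      have hp := (par m1 m2 le_rfl (he n)).mp (d3 (e n) le_rfl n1)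
      have := h m hm hp
      have k1 := d3 (e (m + 1) + d) (by omega) (by omega)
      rw [par (by omega) (by have := he (m + 1); omega : _ < e (m + 1 + 1)) (n := n) (by omega)
        (by omega)] at k1
      omega
  · have sym : ∀ i, i ≤ k → e (p + k + 1 - i) + e (p + k + i + 2) =
        e (p + k + 1) + e (p + k + 2) := by
      intro i hi
      induction i with
      | zero => simp
      | succ i ih =>
        have a := ih (by omega)
        have b := h1 i (by omega)
        rw [show p + k + 1 - (i + 1) = p + k - i by omega,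
          show p + k + (i + 1) + 2 = p + k + i + 3 by omega]
        omega
    have sk := sym k le_rfl
    rw [show p + k + 1 - k = p + 1 by omega, show p + k + k + 2 = p + 2 * k + 2 by omega] at sk
    have l1 : e (p + 1) ≤ e (p + k + 1) := le (by omega)
    have l2 : e (p + k + 2) ≤ e (p + 2 * k + 2) := le (by omega)
    have l3 := he (p + k + 1)
    have l4 := he (p + k)
    have l5 := he (p + k + 2)
    have l0 : e 0 ≤ e p := le (by omega)
    have id1 : e (p + k + 1 + 1) = e (p + k + 2) := rfl
    have half : ∀ i, e (p + k + 1) ≤ i → i ≤ b →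
        f i = f (e (p + k + 1) + e (p + k + 2) - 1 - i) := by
      intro i i1 i2
      obtain ⟨m, m1, m2⟩ := exists_idx he (show e 0 ≤ i by omega)
      have a1 : p + k + 1 < m + 1 := lt (by omega)
      have a2 : m < p + 2 * k + 2 + 1 := lt (by omega)
      obtain ⟨u, rfl⟩ : ∃ u, m = p + k + 1 + u := ⟨m - (p + k + 1), by omega⟩
      rcases Nat.eq_zero_or_pos u with rfl | hu
      · exact (par m1 m2 (n := p + k + 1) (by simp only [add_zero] at m1 m2; omega)
          (by simp only [add_zero] at m1 m2; omega)).mpr rfl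
      · obtain ⟨u, rfl⟩ : ∃ v, u = v + 1 := ⟨u - 1, by omega⟩
        have s1 := sym u (by omega)
        rw [show p + k + 1 + (u + 1) = p + k + u + 2 by omega] at m1 m2
        refine (par m1 m2 (n := p + k - u) ?_ ?_).mpr (by omega)
        · by_cases hk : u = k
          · subst hk
            rw [show p + u - u = p by omega]
            omega
          · have s2 := sym (u + 1) (by omega)
            rw [show p + k + 1 - (u + 1) = p + k - u by omega,
              show p + k + (u + 1) + 2 = p + k + u + 2 + 1 by omega] at s2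
            omega
        · rw [show p + k - u + 1 = p + k + 1 - u by omega]
          omega
    refine ⟨e (p + k + 1) + e (p + k + 2) - 1 - b, by omega, by omega, fun i i1 i2 => ?_,
      fun d d1 d2 d3 => ?_⟩
    · by_cases hi : e (p + k + 1) ≤ i
      · rw [half i hi i2]
        congr 1
        omega
      · rw [half (e (p + k + 1) + e (p + k + 2) - 1 - b + b - i) (by omega) (by omega)]
        congr 1
        omega
    · have j1 : j0 ≤ e (p + k + 1) - e (p + k) := by
        rcases h4 with rfl | ⟨rfl, rfl⟩
        · omega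
        · simpa using h2
      have j2 : j0 ≤ e (p + k + 2 + 1) - e (p + k + 2) := by
        rcases h4 with rfl | ⟨rfl, rfl⟩
        · omega
        · simp only [mul_zero, add_zero] at *
          omega
      have j3 : e (p + k + 2) + j0 - 1 ≤ b := by
        rcases h4 with rfl | ⟨rfl, rfl⟩
        · omega
        · simp only [mul_zero, add_zero] at *
          omega
      obtain ⟨m, m1, m2⟩ := exists_idx he (show e 0 ≤ e (p + k + 1) - d by omega)
      have q1 := (par m1 m2 le_rfl l3).mp (d3 (e (p + k + 1)) (by omega) (by omega))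
      have q2 : e m = e (p + k + 1) - d := by
        by_contra hc
        have := (par (m := m) (by omega) (by omega) (n := p + k) (by omega) (by omega)).mp
          (d3 (e (p + k + 1) - 1) (by omega) (by omega))
        omega
      have q3 : m < p + k + 1 := lt (by omega)
      obtain ⟨m, rfl⟩ : ∃ m', m = m' + 1 := ⟨m - 1, by
        rcases Nat.eq_zero_or_pos m with rfl | h
        · omega
        · omega⟩
      have g0 := he m
      have g2 := he (m + 1 + 1)
      have g3 := he (m + 1 + 1 + 1)
      have q4 : e (m + 1 + 1) = e (p + k + 2) - d := by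
        rcases lt_trichotomy (e (m + 1 + 1)) (e (p + k + 2) - d) with hc | hc | hc
        · have := (par (m := m + 1 + 1) (by omega) (by omega) (n := p + k + 1) (by omega)
            (by omega)).mp (d3 (e (m + 1 + 1) + d) (by omega) (by omega))
          omega
        · exact hc
        · have := (par (m := m + 1) (by omega) (by omega) (n := p + k + 2) (by omega)
            (by omega)).mp (d3 (e (p + k + 2)) (by omega) (by omega))
          omega
      rcases h5 m (by omega) (by omega) with h | h | h
      · apply h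
        change e (m + 1 + 1) - _ = _
        omega
      · rcases Nat.eq_zero_or_pos m with rfl | hm
        · simp only [zero_add] at *
          omega
        · obtain ⟨m, rfl⟩ : ∃ m', m = m' + 1 := ⟨m - 1, by omega⟩
          have g4 := he m
          have := (par (m := m) (by omega) (by omega) (n := p + k) (by omega)
            (by omega)).mp (d3 (e (m + 1) - 1 + d) (by omega) (by omega))
          omega
      · change e (m + 1 + 1 + 1) - e (m + 1 + 1) < j0 at h
        have := (par (m := m + 1 + 1 + 1) (by omega) (by omega) (n := p + k + 2) (by omega)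
          (by omega)).mp (d3 (e (m + 1 + 1 + 1) + d) (by omega) (by omega))
        omega

/-- the same criterion in terms of run lengths -/
lemma richFrom_lens {f : ℤ → Bool} {e r : ℕ → ℤ} (hr : ∀ n, r n = e (n + 1) - e n)
    (he : ∀ n, 1 ≤ r n)
    (hf : ∀ n t, e n ≤ t → t < e (n + 1) → f t = decide (n % 2 = 1))
    (hc : ∀ n (j : ℤ), 1 ≤ j → j ≤ r n →
      (∀ m, m < n → m % 2 = n % 2 → r m < j) ∨
      ∃ (p k : ℕ) (j0 : ℤ), n = p + 2 * k + 2 ∧
        (∀ i, i < k → r (p + k - i) = r (p + k + i + 2)) ∧
        j ≤ r p ∧ 1 ≤ j0 ∧ (j0 = 1 ∨ (k = 0 ∧ j0 = j)) ∧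
        ∀ m, m < p + k → m % 2 = (p + k) % 2 →
          r (m + 1) ≠ r (p + k + 1) ∨ r m < j0 ∨ r (m + 2) < j0) : RichFrom f (e 0) := by
  refine richFrom_runs (fun n => by have := he n; have := hr n; omega) hf fun n j j1 j2 => ?_
  rcases hc n j j1 (by rwa [hr]) with h | ⟨p, k, j0, h1, h2, h3, h4, h5, h6⟩
  · exact Or.inl fun m a b => by rw [← hr]; exact h m a b
  · refine Or.inr ⟨p, k, j0, h1, fun i hi => ?_, by rwa [← hr], h4, h5, fun m a b => ?_⟩
    · have := h2 i hi
      rw [hr, hr, show p + k - i + 1 = p + k + 1 - i by omega] at this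
      exact this
    · have := h6 m a b
      rw [hr, hr, hr, hr] at this
      exact this

/-- intervals with strictly increasing gaps and monotone lengths -/
lemma richFrom_intervals {f : ℤ → Bool} {a s : ℕ → ℤ} (h1 : ∀ i, a i < s i)
    (h2 : ∀ i, s i < a (i + 1)) (h3 : ∀ i, s i - a i < s (i + 1) - a (i + 1))
    (h4 : ∀ i, a (i + 1) - s i ≤ a (i + 1 + 1) - s (i + 1))
    (hf : ∀ t, a 0 ≤ t → (f t = true ↔ ∃ i, s i ≤ t ∧ t < a (i + 1))) : RichFrom f (a 0) := by
  let e : ℕ → ℤ := fun n => if n % 2 = 0 then a (n / 2) else s (n / 2)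
  let r : ℕ → ℤ := fun n => if n % 2 = 0 then s (n / 2) - a (n / 2) else a (n / 2 + 1) - s (n / 2)
  have amono : Monotone a := monotone_nat_of_le_succ fun i => ((h1 i).trans (h2 i)).le
  have gm : StrictMono fun i => s i - a i := strictMono_nat_of_lt_succ h3
  have lm : Monotone fun i => a (i + 1) - s i := monotone_nat_of_le_succ h4
  have rlt : ∀ m n, m % 2 = 0 → n % 2 = 0 → m < n → r m < r n := by
    intro m n hm hn h
    simp only [r, hm, hn, if_true]
    exact gm (by omega)
  have rle0 : ∀ m n, m % 2 = 0 → n % 2 = 0 → m ≤ n → r m ≤ r n := by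
    intro m n hm hn h
    simp only [r, hm, hn, if_true]
    exact gm.monotone (by omega)
  have rle : ∀ m n, m % 2 = 1 → n % 2 = 1 → m ≤ n → r m ≤ r n := by
    intro m n hm hn h
    simp only [r, hm, hn, one_ne_zero, if_false]
    exact lm (by omega)
  refine richFrom_lens (e := e) (r := r) (fun n => ?_) (fun n => ?_) (fun n t t1 t2 => ?_)
    fun n j j1 j2 => ?_
  · rcases Nat.mod_two_eq_zero_or_one n with h | h
    · simp [e, r, h, show (n + 1) % 2 = 1 by omega, show (n + 1) / 2 = n / 2 by omega]
    · simp [e, r, h, show (n + 1) % 2 = 0 by omega, show (n + 1) / 2 = n / 2 + 1 by omega]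
  · have := h1 (n / 2)
    have := h2 (n / 2)
    simp only [r]
    split_ifs <;> omega
  · rcases Nat.mod_two_eq_zero_or_one n with h | h
    · simp only [e, h, show (n + 1) % 2 = 1 by omega, show (n + 1) / 2 = n / 2 by omega,
        if_true, one_ne_zero, if_false] at t1 t2
      have := amono (Nat.zero_le (n / 2))
      simp only [h, zero_ne_one, decide_false]
      rw [← Bool.not_eq_true, hf t (by omega)]
      rintro ⟨i, i1, i2⟩
      rcases lt_or_ge i (n / 2) with hi | hi
      · have := amono (show i + 1 ≤ n / 2 by omega)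
        omega
      · rcases hi.eq_or_lt with hi | hi
        · rw [← hi] at i1
          omega
        · have := amono (show n / 2 + 1 ≤ i by omega)
          have := h1 i
          have := h2 (n / 2)
          omega
    · simp only [e, h, show (n + 1) % 2 = 0 by omega, show (n + 1) / 2 = n / 2 + 1 by omega,
        if_true, one_ne_zero, if_false] at t1 t2
      have := amono (Nat.zero_le (n / 2))
      have := h1 (n / 2)
      simp only [h, decide_true]
      rw [hf t (by omega)]
      exact ⟨_, t1, t2⟩
  · by_cases hn : n < 2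
    · exact Or.inl fun m a b => by omega
    obtain ⟨p, rfl⟩ : ∃ p, n = p + 2 := ⟨n - 2, by omega⟩
    rcases Nat.mod_two_eq_zero_or_one p with h | h
    · by_cases hj : r p < j
      · exact Or.inl fun m a b => (rle0 _ _ (by omega) h (by omega)).trans_lt hj
      by_cases hp : p < 2
      · exact Or.inr ⟨p, 0, j, rfl, by simp, by omega, j1, by simp, fun m a b => by omega⟩
      obtain ⟨p, rfl⟩ : ∃ q, p = q + 2 := ⟨p - 2, by omega⟩
      by_cases hj' : r p < j
      · exact Or.inr ⟨p + 2, 0, j, rfl, by simp, by omega, j1, by simp, fun m a b =>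
          Or.inr (Or.inl ((rle0 _ _ (by omega) (by omega) (by omega)).trans_lt hj'))⟩
      by_cases hl : r (p + 1) = r (p + 3)
      · refine Or.inr ⟨p, 1, 1, rfl, fun i hi => ?_, by omega, le_rfl, by simp, fun m a b =>
          Or.inl (rlt _ _ (by omega) (by omega) (by omega)).ne⟩
        obtain rfl : i = 0 := by omega
        exact hl
      · refine Or.inr ⟨p + 2, 0, j, rfl, by simp, by omega, j1, by simp, fun m a b =>
          Or.inl (ne_of_lt ?_)⟩
        exact (rle _ _ (by omega) (by omega) (by omega)).trans_lt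
          (lt_of_le_of_ne (rle _ _ (by omega) (by omega) (by omega)) hl)
    · by_cases hj : r p < j
      · exact Or.inl fun m a b => (rle _ _ (by omega) h (by omega)).trans_lt hj
      · exact Or.inr ⟨p, 0, 1, rfl, by simp, by omega, le_rfl, by simp, fun m a b =>
          Or.inl (rlt _ _ (by omega) (by omega) (by omega)).ne⟩

/-- isolated markers with gap pattern `X, P, Y, P` -/
lemma richFrom_track {f : ℤ → Bool} {a b c d : ℕ → ℤ}
    (h1 : ∀ i, c i - b i = a (i + 1) - d i) (h2 : ∀ i, 2 ≤ c i - b i) (h3 : ∀ i, 2 ≤ d i - c i)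
    (h4 : ∀ i, c i - b i < b i - a i) (h5 : ∀ i, d i - c i < b i - a i)
    (h6 : ∀ i, c i - b i ≠ d i - c i) (h7 : ∀ i, b i - a i < c (i + 1) - b (i + 1))
    (h8 : ∀ i, b i - a i < d (i + 1) - c (i + 1))
    (hf : ∀ t, a 0 < t → (f t = true ↔ ∃ i, t = b i ∨ t = c i ∨ t = d i ∨ t = a (i + 1))) :
    RichFrom f (a 0 + 1) := by
  let e : ℕ → ℤ := fun n => if n % 8 = 0 then a (n / 8) + 1 else if n % 8 = 1 then b (n / 8)
    else if n % 8 = 2 then b (n / 8) + 1 else if n % 8 = 3 then c (n / 8)
    else if n % 8 = 4 then c (n / 8) + 1 else if n % 8 = 5 then d (n / 8)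
    else if n % 8 = 6 then d (n / 8) + 1 else a (n / 8 + 1)
  let r : ℕ → ℤ := fun n => if n % 2 = 1 then 1 else if n % 8 = 0 then b (n / 8) - a (n / 8) - 1
    else if n % 8 = 4 then d (n / 8) - c (n / 8) - 1 else c (n / 8) - b (n / 8) - 1
  have amono : Monotone a := monotone_nat_of_le_succ fun i => by
    have := h1 i; have := h2 i; have := h3 i; have := h4 i; omega
  have xm : Monotone fun i => b i - a i := monotone_nat_of_le_succ fun i => by
    have := h7 i; have := h4 (i + 1); omega
  have r1 : ∀ n, n % 2 = 1 → r n = 1 := fun n h => by simp [r, h]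
  have rX : ∀ n i, n = 8 * i → r n = b i - a i - 1 := by
    rintro n i rfl
    simp [r, show 8 * i % 2 = 0 by omega]
  have rP : ∀ n i, n = 8 * i + 2 ∨ n = 8 * i + 6 → r n = c i - b i - 1 := by
    intro n i h
    simp only [r, show n / 8 = i by omega]
    split_ifs <;> omega
  have rY : ∀ n i, n = 8 * i + 4 → r n = d i - c i - 1 := by
    intro n i h
    simp only [r, show n / 8 = i by omega]
    split_ifs <;> omega
  have rle : ∀ m i, m % 2 = 0 → m < 8 * i + 8 → r m ≤ b i - a i - 1 := by
    intro m i hm h
    have k1 := xm (show m / 8 ≤ i by omega)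
    have := h4 (m / 8)
    have := h5 (m / 8)
    simp only [r] at k1 ⊢
    split_ifs <;> omega
  have newX : ∀ m n i, n = 8 * i → m % 2 = 0 → m < n → r m ≠ r n := by
    intro m n i hn hm h
    obtain ⟨i, rfl⟩ : ∃ u, i = u + 1 := ⟨i - 1, by omega⟩
    have := rle m i hm (by omega)
    have := rX n _ hn
    have := h7 i
    have := h4 (i + 1)
    omega
  have newP : ∀ m n i, n = 8 * i + 2 → m % 2 = 0 → m < n → r m ≠ r n := by
    intro m n i hn hm h
    have := rP n i (Or.inl hn)
    by_cases hm' : m = 8 * i
    · have := rX m i hm'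
      have := h4 i
      omega
    · obtain ⟨i, rfl⟩ : ∃ u, i = u + 1 := ⟨i - 1, by omega⟩
      have := rle m i hm (by omega)
      have := h7 i
      omega
  have newY : ∀ m n i, n = 8 * i + 4 → m % 2 = 0 → m < n → r m ≠ r n := by
    intro m n i hn hm h
    have := rY n i hn
    by_cases hm' : m = 8 * i
    · have := rX m i hm'
      have := h5 i
      omega
    by_cases hm'' : m = 8 * i + 2
    · have := rP m i (Or.inl hm'')
      have := h6 i
      omega
    · obtain ⟨i, rfl⟩ : ∃ u, i = u + 1 := ⟨i - 1, by omega⟩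
      have := rle m i hm (by omega)
      have := h8 i
      omega
  refine richFrom_lens (e := e) (r := r) (fun n => ?_) (fun n => ?_) (fun n t t1 t2 => ?_)
    fun n j j1 j2 => ?_
  · have := h1 (n / 8)
    by_cases h : n % 8 = 7
    · simp only [e, r, show (n + 1) / 8 = n / 8 + 1 by omega]
      split_ifs <;> omega
    · simp only [e, r, show (n + 1) / 8 = n / 8 by omega]
      split_ifs <;> omega
  · have := h2 (n / 8)
    have := h3 (n / 8)
    have := h4 (n / 8)
    simp only [r]
    split_ifs <;> omega
  · have k0 := amono (Nat.zero_le (n / 8))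
    have := h1 (n / 8)
    have := h2 (n / 8)
    have := h3 (n / 8)
    have := h4 (n / 8)
    have key : a (n / 8) < t → t ≤ a (n / 8 + 1) → (f t = true ↔
        t = b (n / 8) ∨ t = c (n / 8) ∨ t = d (n / 8) ∨ t = a (n / 8 + 1)) := by
      intro k1 k2
      rw [hf t (by omega)]
      refine ⟨?_, fun h => ⟨_, h⟩⟩
      rintro ⟨i, hi⟩
      have := h1 i
      have := h2 i
      have := h3 i
      have := h4 i
      rcases lt_trichotomy i (n / 8) with h | h | h
      · have := amono (show i + 1 ≤ n / 8 by omega)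
        omega
      · rwa [← h]
      · have := amono (show n / 8 + 1 ≤ i by omega)
        omega
    rw [Bool.eq_iff_iff, decide_eq_true_iff]
    by_cases h : n % 8 = 7
    · simp only [e, show (n + 1) / 8 = n / 8 + 1 by omega] at t1 t2
      split_ifs at t1 t2 <;> first | omega | (rw [key (by omega) (by omega)]; omega)
    · simp only [e, show (n + 1) / 8 = n / 8 by omega] at t1 t2
      split_ifs at t1 t2 <;> first | omega | (rw [key (by omega) (by omega)]; omega)
  · obtain ⟨i, hi⟩ : ∃ i, n / 8 = i := ⟨_, rfl⟩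
    have c8 : n = 8 * i ∨ n = 8 * i + 1 ∨ n = 8 * i + 2 ∨ n = 8 * i + 3 ∨ n = 8 * i + 4 ∨
      n = 8 * i + 5 ∨ n = 8 * i + 6 ∨ n = 8 * i + 7 := by omega
    rcases c8 with h | h | h | h | h | h | h | h
    · rcases Nat.eq_zero_or_pos i with rfl | hi0
      · exact Or.inl fun m a b => by omega
      obtain ⟨i, rfl⟩ : ∃ u, i = u + 1 := ⟨i - 1, by omega⟩
      by_cases hj : b i - a i - 1 < j
      · exact Or.inl fun m a b => (rle m i (by omega) (by omega)).trans_lt hj
      refine Or.inr ⟨8 * i, 3, 1, by omega, fun u hu => ?_, by rw [rX _ i rfl]; omega, le_rfl,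
        by simp, fun m a b => Or.inl (newY _ _ i (by omega) (by omega) (by omega))⟩
      interval_cases u
      · rw [r1 _ (by omega), r1 _ (by omega)]
      · rw [rP (8 * i + 3 - 1) i (by omega), rP (8 * i + 3 + 1 + 2) i (by omega)]
      · rw [r1 _ (by omega), r1 _ (by omega)]
    · rcases Nat.eq_zero_or_pos i with rfl | hi0
      · exact Or.inl fun m a b => by omega
      rw [r1 n (by omega)] at j2
      exact Or.inr ⟨n - 2, 0, 1, by omega, by simp, by rw [r1 _ (by omega)]; omega, le_rfl,
        by simp, fun m a b => Or.inl (newX _ _ i (by omega) (by omega) (by omega))⟩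
    · rw [rP n i (by omega)] at j2
      have := h4 i
      rcases Nat.eq_zero_or_pos i with rfl | hi0
      · exact Or.inr ⟨0, 0, j, by omega, by simp, by rw [rX 0 0 rfl]; omega, j1,
          by simp, fun m a b => by omega⟩
      obtain ⟨i, rfl⟩ : ∃ u, i = u + 1 := ⟨i - 1, by omega⟩
      by_cases hj : j ≤ c i - b i - 1
      · refine Or.inr ⟨8 * i + 6, 1, 1, by omega, fun u hu => ?_, by rw [rP _ i (by omega)]; omega,
          le_rfl, by simp, fun m a b => Or.inl (newX _ _ (i + 1) (by omega) (by omega) (by omega))⟩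
        rw [r1 _ (by omega), r1 _ (by omega)]
      · refine Or.inr ⟨8 * i + 8, 0, j, by omega, by simp, by rw [rX _ (i + 1) (by omega)]; omega,
          j1, by simp, fun m a b => Or.inr ?_⟩
        by_cases k1 : m = 8 * i ∨ m = 8 * i + 4
        · right
          rw [rP _ i (by omega)]
          omega
        by_cases k2 : m = 8 * i + 2 ∨ m = 8 * i + 6
        · left
          rw [rP _ i (by omega)]
          omega
        · left
          obtain ⟨i, rfl⟩ : ∃ u, i = u + 1 := ⟨i - 1, by omega⟩
          have := rle m i (by omega) (by omega)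
          have := h7 i
          omega
    · rw [r1 n (by omega)] at j2
      exact Or.inr ⟨n - 2, 0, 1, by omega, by simp, by rw [r1 _ (by omega)]; omega, le_rfl,
        by simp, fun m a b => Or.inl (newP _ _ i (by omega) (by omega) (by omega))⟩
    · rw [rY n i h] at j2
      have := h5 i
      refine Or.inr ⟨8 * i, 1, 1, by omega, fun u hu => ?_, by rw [rX _ i rfl]; omega,
        le_rfl, by simp, fun m a b => Or.inl (newP _ _ i (by omega) (by omega) (by omega))⟩
      rw [r1 _ (by omega), r1 _ (by omega)]
    · rw [r1 n (by omega)] at j2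
      exact Or.inr ⟨n - 2, 0, 1, by omega, by simp, by rw [r1 _ (by omega)]; omega, le_rfl,
        by simp, fun m a b => Or.inl (newY _ _ i (by omega) (by omega) (by omega))⟩
    · rw [rP n i (by omega)] at j2
      refine Or.inr ⟨8 * i + 2, 1, 1, by omega, fun u hu => ?_, by rw [rP _ i (by omega)]; omega,
        le_rfl, by simp, fun m a b => Or.inl (newY _ _ i (by omega) (by omega) (by omega))⟩
      rw [r1 _ (by omega), r1 _ (by omega)]
    · rw [r1 n (by omega)] at j2
      refine Or.inr ⟨8 * i + 1, 2, 1, by omega, fun u hu => ?_, by rw [r1 _ (by omega)]; omega,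
        le_rfl, by simp, fun m a b => Or.inl (newY _ _ i (by omega) (by omega) (by omega))⟩
      interval_cases u
      · rw [r1 _ (by omega), r1 _ (by omega)]
      · rw [rP (8 * i + 1 + 2 - 1) i (by omega), rP (8 * i + 1 + 2 + 1 + 2) i (by omega)]

end Pool.Agent.MP_8e55f0_lc
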