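import Pool.Agent.MP_8e55f0_lc.Mg.StripC

set_option linter.constructorNameAsVariable false

namespace Pool.Agent.MP_8e55f0_lc

open Classical

lemma RichFrom.ret_prop {α : Type} {g : ℤ → α} {lo t : ℤ} (h : RichFrom g lo) (P : ℤ → Prop)
    {c d : α} (hcd : c ≠ d) (hg : ∀ s, lo ≤ s → s ≤ t → (P s ∧ g s = c) ∨ (¬ P s ∧ g s = d))
    (a e : ℤ) (h1 : lo ≤ a - e) (h2 : a ≤ t) (h3 : 0 < e)
    (pal : ∀ i, a ≤ i → i ≤ t → (P i ↔ P (a + t - i)))
    (occ : ∀ i, a ≤ i → i ≤ t → (P (i - e) ↔ P i))
    (mn : ∀ e', 0 < e' → e' < e → ¬ ∀ i, a ≤ i → i ≤ t → (P (i - e') ↔ P i)) :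
    ∀ i, a - e ≤ i → i ≤ t → (P i ↔ P (a - e + t - i)) := by
  have eqv : ∀ i j, lo ≤ i → i ≤ t → lo ≤ j → j ≤ t → (g i = g j ↔ (P i ↔ P j)) := by
    intro i j i1 i2 j1 j2
    rcases hg i i1 i2 with ⟨a1, a2⟩ | ⟨a1, a2⟩ <;> rcases hg j j1 j2 with ⟨b1, b2⟩ | ⟨b1, b2⟩ <;>
      simp [a1, a2, b1, b2, hcd, hcd.symm]
  have := h.ret a t e h1 h2 h3
    (fun i i1 i2 => (eqv _ _ (by omega) (by omega) (by omega) (by omega)).mpr (pal i i1 i2))
    (fun i i1 i2 => (eqv _ _ (by omega) (by omega) (by omega) (by omega)).mpr (occ i i1 i2))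
    (fun e' e1 e2 hc => mn e' e1 e2 fun i i1 i2 =>
      (eqv _ _ (by omega) (by omega) (by omega) (by omega)).mp (hc i i1 i2))
  exact fun i i1 i2 => (eqv _ _ (by omega) (by omega) (by omega) (by omega)).mp (this i i1 i2)

lemma clockA {α : Type} {g : ℤ → α} (h : RichFrom g (-14)) {c d : α} (hcd : c ≠ d) {t : ℤ}
    (ht : 6 ≤ t) (hg : ∀ s, -14 ≤ s → s < t → g s = if wA s = true then c else d) :
    ¬ Pal g (-14) (t - 1) ∧ (t % 3 = 1 → g t ≠ d) ∧ (t % 3 = 2 → g t ≠ c) := by
  simp only [wA, decide_eq_true_iff] at hg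
  refine ⟨fun hp => ?_, fun h1 h2 => ?_, fun h1 h2 => ?_⟩
  · obtain ⟨i, i1, i2, i3⟩ : ∃ i, -14 ≤ i ∧ i ≤ -12 ∧ (-14 + (t - 1) - i) % 3 = 1 :=
      ⟨-14 + (t + 1) % 3, by omega, by omega, by omega⟩
    have := hp i i1 (by omega)
    rw [hg _ (by omega) (by omega), hg _ (by omega) (by omega), if_neg (by omega),
      if_pos (by omega)] at this
    exact hcd this.symm
  · have := h.ret_prop (t := t)
      (fun s => s < t ∧ (s = -9 ∨ s = -8 ∨ s = -4 ∨ (-2 ≤ s ∧ s % 3 = 1))) hcd
      (fun s s1 s2 => by
        by_cases k : s = t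
        · exact Or.inr ⟨by omega, k ▸ h2⟩
        rw [hg s s1 (by omega)]
        split_ifs with k'
        · exact Or.inl ⟨⟨by omega, k'⟩, rfl⟩
        · exact Or.inr ⟨by omega, rfl⟩) (t - 2) (t + 5) (by omega) (by omega) (by omega)
      (fun i i1 i2 => by omega) (fun i i1 i2 => by omega)
      (fun e e1 e2 hc => by
        have := hc t (by omega) (by omega)
        have := hc (t - 1) (by omega) (by omega)
        have := hc (t - 2) (by omega) (by omega)
        omega) (-2) (by omega) (by omega)
    omega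
  · have := h.ret_prop (t := t)
      (fun s => s = t ∨ (s = -9 ∨ s = -8 ∨ s = -4 ∨ (-2 ≤ s ∧ s % 3 = 1))) hcd
      (fun s s1 s2 => by
        by_cases k : s = t
        · exact Or.inl ⟨by omega, k ▸ h2⟩
        rw [hg s s1 (by omega)]
        split_ifs with k'
        · exact Or.inl ⟨Or.inr k', rfl⟩
        · exact Or.inr ⟨by omega, rfl⟩) (t - 1) (t + 8) (by omega) (by omega) (by omega)
      (fun i i1 i2 => by omega) (fun i i1 i2 => by omega)
      (fun e e1 e2 hc => by
        have := hc t (by omega) (by omega)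
        have := hc (t - 1) (by omega) (by omega)
        omega) (-5) (by omega) (by omega)
    omega

lemma clockB {α : Type} {g : ℤ → α} (h : RichFrom g (-14)) {c d : α} (hcd : c ≠ d) {t : ℤ}
    (ht : 6 ≤ t) (hg : ∀ s, -14 ≤ s → s < t → g s = if wB s = true then c else d) :
    ¬ Pal g (-14) (t - 1) ∧ (t % 3 = 0 → g t ≠ d) ∧ (t % 3 = 2 → g t ≠ c) := by
  simp only [wB, decide_eq_true_iff] at hg
  refine ⟨fun hp => ?_, fun h1 h2 => ?_, fun h1 h2 => ?_⟩
  · obtain ⟨i, i1, i3⟩ : ∃ i, (i = -12 ∨ i = -11) ∧ (-14 + (t - 1) - i) % 3 ≠ 0 := by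
      by_cases k : t % 3 = 0
      · exact ⟨-11, by omega, by omega⟩
      · exact ⟨-12, by omega, by omega⟩
    have := hp i (by omega) (by omega)
    rw [hg _ (by omega) (by omega), hg _ (by omega) (by omega), if_pos (by omega),
      if_neg (by omega)] at this
    exact hcd this
  · have := h.ret_prop (t := t)
      (fun s => s < t ∧ (s = -14 ∨ s = -12 ∨ s = -11 ∨ s = -7 ∨ (-6 ≤ s ∧ s % 3 = 0))) hcd
      (fun s s1 s2 => by
        by_cases k : s = t
        · exact Or.inr ⟨by omega, k ▸ h2⟩
        rw [hg s s1 (by omega)]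
        split_ifs with k'
        · exact Or.inl ⟨⟨by omega, k'⟩, rfl⟩
        · exact Or.inr ⟨by omega, rfl⟩) (t - 2) (t + 8) (by omega) (by omega) (by omega)
      (fun i i1 i2 => by omega) (fun i i1 i2 => by omega)
      (fun e e1 e2 hc => by
        have := hc t (by omega) (by omega)
        have := hc (t - 1) (by omega) (by omega)
        have := hc (t - 2) (by omega) (by omega)
        omega) (-6) (by omega) (by omega)
    omega
  · have := h.ret_prop (t := t)
      (fun s => s = t ∨ (s = -14 ∨ s = -12 ∨ s = -11 ∨ s = -7 ∨ (-6 ≤ s ∧ s % 3 = 0))) hcd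
      (fun s s1 s2 => by
        by_cases k : s = t
        · exact Or.inl ⟨by omega, k ▸ h2⟩
        rw [hg s s1 (by omega)]
        split_ifs with k'
        · exact Or.inl ⟨Or.inr k', rfl⟩
        · exact Or.inr ⟨by omega, rfl⟩) (t - 2) (t + 12) (by omega) (by omega) (by omega)
      (fun i i1 i2 => by omega) (fun i i1 i2 => by omega)
      (fun e e1 e2 hc => by
        have := hc t (by omega) (by omega)
        have := hc (t - 2) (by omega) (by omega)
        omega) (-11) (by omega) (by omega)
    omega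

lemma LRet.ends {α : Type} {l1 m l2 : List α} {x p q : α}
    (h : LRet (l1 ++ x :: (p :: (m ++ [q])) ++ x :: l2)) (hx : x ∉ p :: (m ++ [q])) : p = q := by
  have := h l1 x _ l2 rfl hx
  simp only [List.reverse_cons, List.reverse_append, List.reverse_nil, List.nil_append,
    List.cons_append, List.cons.injEq] at this
  exact this.1.symm

variable {V G : Type} [Fintype V] [Fintype G] {γ : G → Gate V}

omit [Fintype V] [Fintype G] in
lemma main_letter {c : Col V G} {x : Let V G} (hc : own γ c ≠ none) (h : opt c x ∨ x = .al) :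
    x ≠ .ga 0 ∧ x ≠ .da 0 ∧ (opt c x → x ≠ .al) := by
  rcases h with h | rfl
  swap
  · have := (not_opt c).2.2
    cases c <;> simp_all [own, gd]
  rcases c with _ | _ | i | i | b | b | b | b | _ | _ | _ | _
  any_goals (simp [own] at hc; done)
  any_goals rcases b with L | g
  all_goals simp only [opt] at h
  any_goals (rcases h with rfl | rfl | rfl <;> simp; done)
  rcases lnk_cases (G := G) L with ⟨v, b, -, e⟩ | ⟨-, e⟩ | ⟨-, e⟩ | ⟨-, e⟩ <;>
    rcases h with rfl | rfl <;> simp [e]

lemma row_step {x : Col V G → Let V G} {t : ℤ} (R : LRet ((cols γ).map x))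
    (hA : ∀ i, opt (.ca i) (x (.ca i)) ∧ (t % 3 = 1 → x (.ca i) ≠ .da i) ∧
      (t % 3 = 2 → x (.ca i) ≠ .ga i))
    (hB : ∀ i, opt (.cb i) (x (.cb i)) ∧ (t % 3 = 0 → x (.cb i) ≠ .db i) ∧
      (t % 3 = 2 → x (.cb i) ≠ .ga i))
    (h1 : opt .h1 (x .h1) ∨ (x .h1 = .ga 2 ∧ t % 3 = 1))
    (h2 : opt .h2 (x .h2) ∨ (x .h2 = .da 2 ∧ t % 3 = 0))
    (hm : ∀ c ∈ blocks.flatMap (block γ), opt c (x c) ∨ x c = .al) :
    (∀ i, x (.ca i) = if t % 3 = 1 then .ga i else .da i) ∧
    (∀ i, x (.cb i) = if t % 3 = 0 then .ga i else .db i) ∧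
    (t % 3 ≠ 0 → x .h1 = .al) ∧ (t % 3 ≠ 2 → x .h2 = .al) ∧ ∀ c, opt c (x c) := by
  rw [cols, List.map_append] at R
  generalize hM : (blocks.flatMap (block γ)).map x = M at R
  simp only [core, List.map_cons, List.map_nil, List.cons_append, List.nil_append] at R
  simp only [opt] at hA hB h1 h2
  have conf : ∀ i, x (.ca i) = .ga i → x (.cb i) = .ga i → False := by
    intro i ea eb
    fin_cases i <;> simp only [Fin.zero_eta, Fin.mk_one, Fin.reduceFinMk] at ea eb <;>
      rw [ea, eb] at R
    · have := LRet.ends (l1 := [_, _]) (m := []) R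
      rcases (hA 1).1 with a | a <;> rcases (hA 2).1 with b | b <;> simp [a, b] at this
    · have := LRet.ends (l1 := [_, _, _]) (m := []) R
      rcases (hA 2).1 with a | a <;> rcases (hB 0).1 with b | b <;> simp [a, b] at this
    · have := LRet.ends (l1 := [_, _, _, _]) (m := []) R
      rcases (hB 0).1 with a | a <;> rcases (hB 1).1 with b | b <;> simp [a, b] at this
  have eA : ∀ i, x (.ca i) = if t % 3 = 1 then .ga i else .da i := by
    intro i
    obtain ⟨a1, a2, a3⟩ := hA i
    obtain ⟨b1, b2, b3⟩ := hB i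
    have := conf i
    split_ifs with k
    · tauto
    · by_cases k' : t % 3 = 0
      · tauto
      · have := a3 (by omega)
        tauto
  have eB : ∀ i, x (.cb i) = if t % 3 = 0 then .ga i else .db i := by
    intro i
    obtain ⟨a1, a2, a3⟩ := hA i
    obtain ⟨b1, b2, b3⟩ := hB i
    have := conf i
    split_ifs with k
    · tauto
    · by_cases k' : t % 3 = 1
      · tauto
      · have := b3 (by omega)
        tauto
  simp only [eA, eB] at R
  have k2 : t % 3 ≠ 2 → x .h2 = .al := by
    intro k
    by_contra hc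
    rcases (by omega : t % 3 = 0 ∨ t % 3 = 1) with k | k <;> simp only [k] at R h2
    · rcases h2 with (e | e) | ⟨e, -⟩
      · exact hc e
      · rw [e] at R
        simpa using LRet.ends (l1 := [_]) (m := [_, _, _]) R
      · rw [e] at R
        simpa using LRet.ends (l1 := [_]) (m := []) R
    · rcases h2 with (e | e) | ⟨e, e'⟩
      · exact hc e
      · rw [e] at R
        simpa using LRet.ends (l1 := [_]) (m := []) R
      · simp at e'
  have k1 : t % 3 ≠ 0 → x .h1 = .al := by
    intro k
    by_contra hc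
    rcases (by omega : t % 3 = 1 ∨ t % 3 = 2) with k | k <;> simp only [k] at R h1 h2
    · rw [k2 (by omega)] at R
      rcases h1 with (e | e) | ⟨e, -⟩
      · exact hc e
      · rw [e] at R
        simpa using LRet.ends (l1 := []) (m := [_, _, _, _]) R
      · rw [e] at R
        simpa using LRet.ends (l1 := []) (m := [_]) R
    · rcases h1 with (e | e) | ⟨e, e'⟩
      · exact hc e
      · rw [e] at R
        have := LRet.ends (l1 := []) (m := [_, _, _, _]) R
        rcases h2 with (e | e) | ⟨e, e'⟩
        · simp [e] at this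
        · simp [e] at this
        · simp at e'
      · simp at e'
  have o1 : opt .h1 (x .h1) := by
    rcases h1 with h | ⟨-, h⟩
    · exact h
    · exact Or.inl (k1 (by omega))
  have o2 : opt .h2 (x .h2) := by
    rcases h2 with h | ⟨-, h⟩
    · exact h
    · exact Or.inl (k2 (by omega))
  have noal : Let.al ∉ M := by
    intro hal
    obtain ⟨m1, m2, e, hm1⟩ := List.eq_append_cons_of_mem hal
    have hu : Let.ga 0 ∉ m1 ∧ Let.da 0 ∉ m1 := by
      constructor <;> intro hc
      all_goals
        obtain ⟨c, hc, e'⟩ := List.mem_map.mp (hM ▸ e ▸ List.mem_append_left _ hc)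
        have := main_letter (mem_main hc).2.2.2 (hm c hc)
        simp [e'] at this
    rw [e] at R
    by_cases e2 : x .h2 = .al
    · rw [e2] at R
      have := R [_] .al (_ :: _ :: _ :: _ :: _ :: _ :: m1) m2 rfl
        (by split_ifs <;> simpa using hm1)
      have := pal_center (l1 := []) this (by simp) (by split_ifs <;> simp [hu]; omega)
      simp at this
    · have k : t % 3 = 2 := by
        by_contra hc
        exact e2 (k2 hc)
      rw [k1 (by omega), o2.resolve_left e2] at R
      simp only [k] at R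
      have := R [] .al (_ :: _ :: _ :: _ :: _ :: _ :: _ :: m1) m2 rfl (by simpa using hm1)
      have := pal_center (l1 := [_]) this (by simp) (by simp [hu])
      simp at this
  refine ⟨eA, eB, k1, k2, fun c => ?_⟩
  rcases List.mem_append.mp (mem_cols γ c) with hc | hc
  · simp only [core, List.mem_cons, List.not_mem_nil, or_false] at hc
    rcases hc with rfl | rfl | rfl | rfl | rfl | rfl | rfl | rfl
    exacts [o1, o2, (hA _).1, (hA _).1, (hA _).1, (hB _).1, (hB _).1, (hB _).1]
  · refine (hm c hc).resolve_right fun e => noal ?_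
    rw [← hM, ← e]
    exact List.mem_map_of_mem hc

/-- the part of a block after its separators -/
noncomputable def body (γ : G → Gate V) (b : Lit V ⊕ G) : List (Col V G) :=
  .cA b :: (inner γ b ++ [.cA' b])

lemma row_sep {x : Col V G → Let V G} (R : LRet ((cols γ).map x)) (ho : ∀ c, opt c (x c))
    {l1 l2 : List (Lit V ⊕ G)} {b : Lit V ⊕ G} (e : blocks = l1 ++ b :: l2) :
    LRet ((body γ b).map x) ∧
      ∀ c ∈ core ++ l1.flatMap (block γ), ∀ c' ∈ body γ b, x c ≠ x c' := by
  have e' : cols γ = (core ++ l1.flatMap (block γ)) ++ .cs1 b :: .cs2 b ::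
      (body γ b ++ l2.flatMap (block γ)) := by
    simp [cols, e, block, body]
  have nd := nodup_cols γ
  rw [e'] at nd R
  generalize core ++ l1.flatMap (block γ) = A at nd R
  generalize l2.flatMap (block γ) = B at nd R
  simp only [List.map_append, List.map_cons] at R
  refine ⟨LRet.of_append (l1 := A.map x ++ [x (.cs1 b), x (.cs2 b)]) (l2 := B.map x)
    (by simpa using R), fun c hc c' hc' hx => ?_⟩
  have s1 : x (.cs1 b) = .s1 b := ho (.cs1 b)
  have s2 : x (.cs2 b) = .s2 b := ho (.cs2 b)
  rw [s1, s2, ← List.map_append] at R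
  simp only [List.nodup_append, List.nodup_cons, List.mem_cons] at nd
  refine R.sep (by simp) ?_ ?_ ?_ ?_ (List.mem_map_of_mem hc)
    (hx ▸ List.mem_map_of_mem (List.mem_append_left _ hc'))
  all_goals
    intro h
    obtain ⟨d, hd, ed⟩ := List.mem_map.mp h
    have := ho d
    rw [ed] at this
  · exact nd.2.2 d hd _ (Or.inl rfl) (opt_s1 this)
  · exact nd.2.1.1 (Or.inr (opt_s1 this ▸ hd))
  · exact nd.2.2 d hd _ (Or.inr (Or.inl rfl)) (opt_s2 this)
  · exact nd.2.1.2.1 (opt_s2 this ▸ hd)

lemma mem_blocks (b : Lit V ⊕ G) : b ∈ blocks := by simp [blocks]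

lemma body_ne {x : Col V G → Let V G} (R : LRet ((cols γ).map x)) (ho : ∀ c, opt c (x c))
    {b b' : Lit V ⊕ G} (h : b ≠ b') {c c' : Col V G} (hc : c ∈ body γ b) (hc' : c' ∈ body γ b') :
    x c ≠ x c' := by
  rcases exists_split (mem_blocks b) (mem_blocks b') h with ⟨l1, l2, e, hb⟩ | ⟨l1, l2, e, hb⟩
  · exact (row_sep R ho e).2 c (List.mem_append_right _ (List.mem_flatMap.mpr
      ⟨b, hb, List.mem_cons_of_mem _ (List.mem_cons_of_mem _ hc)⟩)) c' hc'
  · exact ((row_sep R ho e).2 c' (List.mem_append_right _ (List.mem_flatMap.mpr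
      ⟨b', hb, List.mem_cons_of_mem _ (List.mem_cons_of_mem _ hc')⟩)) c hc).symm

lemma row_sem {x : Col V G → Let V G} {t : ℤ} (R : LRet ((cols γ).map x))
    (ho : ∀ c, opt c (x c)) (eA : ∀ i, x (.ca i) = if t % 3 = 1 then .ga i else .da i)
    (eB : ∀ i, x (.cb i) = if t % 3 = 0 then .ga i else .db i) {val : V → ℤ → Bool}
    (hv : ∀ v, val v t = true ↔ x (.cA (.inl (.inl (v, true)))) = .lam (.inl (.inl (v, true))))
    (g : G) :
    (tv val t (γ g).1 → tv val t (γ g).2.1 → x (.gB g) = .sg g 2) ∧
    (tv val t (γ g).2.2.1 → x (.gB g) = if val (γ g).2.2.2 t = true then .sg g 3 else .sg g 4) := by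
  have actv : ∀ L, tv val t L → x (.cA (.inl L)) = .lam (.inl L) := by
    intro L hL
    refine (ho (.cA (.inl L))).resolve_right fun hc => ?_
    obtain ⟨l1, l2, e⟩ := List.append_of_mem (mem_blocks (G := G) (.inl L))
    have cr : ∀ c ∈ core, x c ≠ lnk L := fun c hcc =>
      hc ▸ (row_sep R ho e).2 c (List.mem_append_left _ hcc) _ (by simp [body])
    rcases lnk_cases (G := G) L with ⟨v, b, rfl, e'⟩ | ⟨rfl, e'⟩ | ⟨rfl, e'⟩ | ⟨rfl, e'⟩
    · cases b
      · have k : ¬ val v t = true := by simpa [tv] using hL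
        rw [hv] at k
        have k' := (ho (.cA (.inl (.inl (v, true))))).resolve_left k
        exact body_ne R ho (b := .inl (.inl (v, true))) (b' := .inl (.inl (v, false))) (by simp)
          (c := .cA _) (c' := .cA _) (by simp [body]) (by simp [body]) (k'.trans hc.symm)
      · have k := (hv v).mp hL
        rw [hc] at k
        exact lam_ne_lnk _ _ k.symm
    · apply cr (.cb 1) (by simp [core])
      rw [eB, e', if_neg (by simpa [tv] using hL)]
    · apply cr (.ca 1) (by simp [core])
      rw [eA, e', if_neg (by simpa [tv] using hL)]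
    · have k : t % 3 ≠ 2 := by simpa [tv] using hL
      by_cases k' : t % 3 = 0
      · apply cr (.cb 1) (by simp [core])
        rw [eB, e', if_pos k']
      · apply cr (.ca 1) (by simp [core])
        rw [eA, e', if_pos (by omega)]
  have held : ∀ o, tv val t ((γ g).lit o) → ∀ c ∈ body γ (.inr g), x c ≠ .sg g o := by
    intro o ht c hc
    have k : x (.cB g o) = .sg g o := by
      generalize hL : (γ g).lit o = L at ht
      obtain ⟨l1, l2, e⟩ := List.append_of_mem (mem_blocks (G := G) (.inl L))
      have R' := (row_sep R ho e).1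
      have k1 : x (.cA' (.inl L)) = .lam (.inl L) := ho (.cA' (.inl L))
      simp only [body, List.map_cons, List.map_append, List.map_nil, actv L ht, k1] at R'
      have := R' [] _ _ [] rfl (by
        intro hc
        obtain ⟨d, hd, ed⟩ := List.mem_map.mp hc
        have := ho d
        rw [ed] at this
        rcases (mem_inner γ).mp hd with ⟨g, o, -, rfl | rfl⟩ | ⟨g, -, rfl | rfl⟩ <;>
          simp [opt] at this)
      simp only [inner, List.map_append, List.map_reverse, List.map_map, List.reverse_append,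
        List.reverse_reverse] at this
      have k2 := List.map_inj_left.mp (List.append_inj_left this (by simp)) (g, o)
        ((mem_occs γ).mpr hL)
      simp only [Function.comp] at k2
      rcases ho (.cB g o) with a | a
      · exact a
      · rcases ho (.cB' g o) with b | b <;> simp [a, b] at k2
    rw [← k]
    exact body_ne R ho (b' := .inl ((γ g).lit o)) (by simp) hc
      (by simp [body, mem_inner])
  constructor
  · intro t0 t1
    have a0 := (ho (.cA (.inr g))).resolve_right (held 0 t0 _ (by simp [body]))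
    have a1 := (ho (.cA' (.inr g))).resolve_right (held 1 t1 _ (by simp [body]))
    obtain ⟨l1, l2, e⟩ := List.append_of_mem (mem_blocks (V := V) (.inr g))
    have R' := (row_sep R ho e).1
    simp only [body, inner, List.map_cons, List.map_append, List.map_nil, a0, a1] at R'
    have := LRet.ends (l1 := []) (m := []) (l2 := []) R'
    rcases ho (.gB g) with a | a | a <;> rcases ho (.gB' g) with b | b <;> simp [a, b] at this ⊢
  · intro t2
    have a2 := held 2 t2 (.gB g) (by simp [body, inner])
    have a3 := fun h => held 3 h (.gB g) (by simp [body, inner])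
    have a4 := fun h => held 4 h (.gB g) (by simp [body, inner])
    have := ho (.gB g)
    simp only [Gate.lit, tv, opt, Matrix.cons_val] at a3 a4 this
    cases h : val (γ g).2.2.2 t <;> simp only [h] at a3 a4 ⊢ <;> tauto

theorem strip_sound {enc : Let V G → ℕ} (he : Function.Injective enc) {val : V → ℤ → Bool}
    {n : ℕ} (hn : 6 ≤ n) (h : Extendable (inp γ enc val n)) :
    ∃ val', GoodS γ val' ∧ ∀ v (t : ℤ), 0 ≤ t → t < n → val' v t = val v t := by
  obtain ⟨W, w1, w2, w3⟩ := h
  have : ∀ c, ∃ x, enc x = W c := fun c => by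
    obtain ⟨y, hy, e⟩ := List.mem_map.mp (w2 c)
    exact ⟨_, ((mem_inp γ).mp hy).2.2.2.2.symm.trans e⟩
  choose F hF using this
  let f : ℤ → Col V G → Let V G := fun t c => F (t, ((cols γ).idxOf c : ℕ))
  have hcol : ∀ c lo, RichFrom (fun t => f t c) lo := by
    intro c lo
    have : RichFrom (fun t => W (t, ((cols γ).idxOf c : ℕ))) lo := by
      rw [richFrom_iff]
      rintro (_ | n)
      · exact rich_nil
      · exact (w3 lo _ n).2
    exact this.recode fun s t _ _ => by rw [← hF, ← hF, he.eq_iff]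
  have hrow : ∀ t, LRet ((cols γ).map (f t)) := by
    intro t
    have : RichFrom (fun j => W (t, j)) 0 := by
      rw [richFrom_iff]
      rintro (_ | n)
      · exact rich_nil
      · exact (w3 t 0 n).1
    have k : RichFrom (fun j => F (t, j)) 0 :=
      this.recode fun s t _ _ => by rw [← hF, ← hF, he.eq_iff]
    have := k.lret (cols γ).length
    rwa [seg_cols (nodup_cols γ)] at this
  have hidx : ∀ c, (cols γ).idxOf c < (cols γ).length :=
    fun c => List.idxOf_lt_length_of_mem (mem_cols γ c)
  have hag : ∀ c t, t1 γ 0 - 1 ≤ t → t < n → f t c = cell γ val ((cols γ).idxOf c) c t := by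
    intro c t t1 t2
    apply he
    rw [hF, ← plane_idx]
    exact w1 (_, _) ((mem_inp γ).mpr ⟨t1, t2, by simp, by simpa using hidx c, rfl⟩)
  have t0 := t1_zero γ
  have hcur : ∀ c t, act c ≤ t → t < n → f t c = cur γ val t c := by
    intro c t t1 t2
    have := gs_act c
    rw [hag c t (by omega) t2, cell_act γ val _ c t1]
  have guard : ∀ c t, 0 < t → (∀ s, act c ≤ s → s < t → opt c (f s c)) →
      opt c (f t c) ∨ (f t c = gd c ∧ Pal (fun s => f s c) (act c) (t - 1)) := by
    intro c t ht hs
    have g := gs_act c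
    have := (hcol c (t1 γ 0 - 1)).guard (T := act c) (t := t) (opt c) (by omega) hs
      (fun s s1 s2 => by
        rw [hag c s s1 (by omega)]
        exact cell_not_opt γ val _ c s2)
      (fun k => by
        obtain ⟨s, s1, s2, s3⟩ := cell_cover γ val (hidx c) c k
        exact ⟨s, s1, s2, by rw [hag c s s1 (by omega), s3]⟩)
    rwa [hag c (act c - 1) (by omega) (by omega), cell_guard γ val (hidx c)] at this
  have inv : ∀ m : ℕ, ∀ t : ℤ, t < m → (∀ i, -14 ≤ t → f t (.ca i) = cur γ val t (.ca i)) ∧
      (∀ i, -14 ≤ t → f t (.cb i) = cur γ val t (.cb i)) ∧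
      (0 ≤ t → t % 3 ≠ 0 → f t .h1 = .al) ∧ (0 ≤ t → t % 3 ≠ 2 → f t .h2 = .al) ∧
      ∀ c, act c ≤ t → opt c (f t c) := by
    intro m
    induction m with
    | zero =>
      intro t ht
      exact ⟨fun i h => hcur _ t h (by omega), fun i h => hcur _ t h (by omega), by omega,
        by omega, fun c h => hcur c t h (by omega) ▸ opt_cur γ val t c⟩
    | succ m ih =>
      intro t ht
      by_cases hm : t < m
      · exact ih t hm
      by_cases hn' : t < n
      · refine ⟨fun i h => hcur _ t h hn', fun i h => hcur _ t h hn', fun h k => ?_,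
          fun h k => ?_, fun c h => hcur c t h hn' ▸ opt_cur γ val t c⟩
        · rw [hcur .h1 t h hn', cur, if_neg k]
        · rw [hcur .h2 t (by change -1 ≤ t; omega) hn', cur, if_neg k]
      have gd' := fun c => guard c t (by omega) fun s s1 s2 => (ih s (by omega)).2.2.2.2 c s1
      have := row_step (t := t) (hrow t) (fun i => ?_) (fun i => ?_) ?_ ?_ ?_
      · obtain ⟨a, b, c, d, e⟩ := this
        refine ⟨fun i _ => ?_, fun i _ => ?_, fun _ => c, fun _ => d, fun c _ => e c⟩
        · simp only [a, cur, wA_pos (show 0 ≤ t by omega)]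
        · simp only [b, cur, wB_pos (show 0 ≤ t by omega)]
      · have k := clockA (hcol (.ca i) (-14)) (c := .ga i) (d := .da i) (by simp)
          (show 6 ≤ t by omega) fun s s1 s2 => (ih s (by omega)).1 i s1
        exact ⟨(gd' _).resolve_right fun hc => k.1 hc.2, k.2⟩
      · have k := clockB (hcol (.cb i) (-14)) (c := .ga i) (d := .db i) (by simp)
          (show 6 ≤ t by omega) fun s s1 s2 => (ih s (by omega)).2.1 i s1
        exact ⟨(gd' _).resolve_right fun hc => k.1 hc.2, k.2⟩
      · refine (gd' .h1).imp_right fun hc => ⟨hc.1, ?_⟩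
        by_contra k
        have k1 := hc.2 0 le_rfl (by omega)
        simp only [act, zero_add, sub_zero] at k1
        rw [hcur .h1 0 le_rfl (by omega), (ih (t - 1) (by omega)).2.2.1 (by omega) (by omega)] at k1
        simp [cur] at k1
      · refine (gd' .h2).imp_right fun hc => ⟨hc.1, ?_⟩
        by_contra k
        have k1 := hc.2 (-1) le_rfl (by omega)
        simp only [act, show -1 + (t - 1) - -1 = t - 1 by ring] at k1
        rw [hcur .h2 (-1) le_rfl (by omega),
          (ih (t - 1) (by omega)).2.2.2.1 (by omega) (by omega)] at k1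
        simp [cur] at k1
      · intro c hc
        exact (gd' c).imp_right fun h => h.1.trans (mem_main hc).2.2.1
  have inv' := fun t : ℤ => inv (t.toNat + 1) t (by omega)
  have ho : ∀ t, 0 ≤ t → ∀ c, opt c (f t c) :=
    fun t ht c => (inv' t).2.2.2.2 c (by have := gs_act c; omega)
  refine ⟨fun v t => decide (f t (.cA (.inl (.inl (v, true)))) = .lam (.inl (.inl (v, true)))),
    ⟨fun v => (hcol (.cA (.inl (.inl (v, true)))) 0).recode fun s t hs ht => ?_, fun g => ?_⟩,
    fun v t t1 t2 => ?_⟩
  · rcases ho s hs (.cA (.inl (.inl (v, true)))) with a | a <;>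
      rcases ho t ht (.cA (.inl (.inl (v, true)))) with b | b <;> simp [a, b, lnk]
  · refine ⟨fun t => if f t (.gB g) = .sg g 2 then none else some (decide (f t (.gB g) = .sg g 3)),
      (hcol (.gB g) 0).recode fun s t hs ht => ?_, fun t ht => ?_⟩
    · rcases ho s hs (.gB g) with a | a | a <;> rcases ho t ht (.gB g) with b | b | b <;>
        simp [a, b]
    · obtain ⟨a, b⟩ := row_sem (t := t) (hrow t) (ho t ht)
        (fun i => by simp only [(inv' t).1 i (by omega), cur, wA_pos ht])
        (fun i => by simp only [(inv' t).2.1 i (by omega), cur, wB_pos ht])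
        (val := fun v t => decide (f t (.cA (.inl (.inl (v, true)))) =
          .lam (.inl (.inl (v, true))))) (fun v => by simp) g
      refine ⟨fun h1 h2 => by simp [a h1 h2], fun h => ?_⟩
      simp only [b h]
      split_ifs <;> simp_all
  · beta_reduce
    rw [hcur (.cA (.inl (.inl (v, true)))) t t1 t2]
    simp only [cur, tv]
    by_cases k : val v t = true <;> simp [lnk, k]

end Pool.Agent.MP_8e55f0_lc
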