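import Pool.Agent.MP_8e55f0_lc.Mg.StripS
import Mathlib

-- part MP_8e55f0_lc.Auto
section

namespace Pool.Agent.MP_8e55f0_lc

open Classical

/-- phase automata with marker tracks -/
structure Aut (C Tr : Type) where
  m : ℕ
  unit : C → ℕ → Prop
  nx : C → Bool → C
  bad : C → Prop
  mu : Tr → C → ℕ → ℤ → Prop
  unit0 : ∀ c, ¬ unit c 0
  nx_ne : ∀ c b, nx c b ≠ c
  mu_unit : ∀ x c σ i, mu x c σ i → unit c σ

/-- variables -/
inductive Var (C Tr : Type) (m : ℕ)
  | K (i : Fin 3) | F | Q (c : C) (σ : Fin (m + 1)) | Qn (c : C) (σ : Fin (m + 1))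
  | U (c : C) (σ : Fin (m + 1)) | An (c : C) | M (x : Tr)
  deriving Fintype

namespace Aut

variable {C Tr : Type} (A : Aut C Tr)

/-- one macro step -/
def Step (p p' : C × ℕ) : Prop :=
  (p'.1 = p.1 ∧ p'.2 = p.2 ∧ ¬ A.unit p.1 p.2) ∨ (p'.1 = p.1 ∧ p'.2 = p.2 + 1 ∧ p.2 < A.m) ∨
    (p.2 = A.m ∧ p'.2 = 0 ∧ ∃ b, p'.1 = A.nx p.1 b)

/-- infinite runs with rich tracks -/
structure Run (ph : ℤ → C × ℕ) : Prop where
  le : ∀ τ, 0 ≤ τ → (ph τ).2 ≤ A.m
  step : ∀ τ, 0 ≤ τ → A.Step (ph τ) (ph (τ + 1))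
  ok : ∀ τ, 0 ≤ τ → ¬ A.bad (ph τ).1
  rich : ∀ x, RichFrom (fun t => decide (A.mu x (ph (t / 3)).1 (ph (t / 3)).2 (t % 3))) 0

/-- values of the variables in terms of the current and the next phase -/
def aval (p p' : C × ℕ) (ρ : ℤ) : Var C Tr A.m → Prop
  | .K i => ρ = i
  | .F => False
  | .Q c σ => p.1 = c ∧ p.2 ≤ σ
  | .Qn c σ => p'.1 = c ∧ p'.2 ≤ σ
  | .U c σ => A.unit c σ ∧ p = (c, σ.1)
  | .An c => p'.2 = 0 ∧ (p'.1 = A.nx c false ∨ p'.1 = A.nx c true)
  | .M x => A.mu x p.1 p.2 ρ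

/-- the canonical assignment -/
noncomputable def val (ph : ℤ → C × ℕ) (v : Var C Tr A.m) (t : ℤ) : Bool :=
  decide (A.aval (ph (t / 3)) (ph ((t + 1) / 3)) (t % 3) v)

/-- delay gates -/
inductive IsDelay : Fin 3 → Var C Tr A.m → Prop
  | d0 (c σ) : IsDelay 0 (.Q c σ)
  | d2 (c σ) : IsDelay 2 (.Q c σ)
  | d1 (c σ) : IsDelay 1 (.Qn c σ)

/-- clauses -/
inductive IsClause : Lit (Var C Tr A.m) → Lit (Var C Tr A.m) → Lit (Var C Tr A.m) → Prop
  | clk (i) : IsClause (.inr (i + 1)) (.inr (i + 2)) (.inl (.K i, false))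
  | e1 (c σ) : IsClause (.inl (.Q c σ, true)) (.inl (.Qn c σ, false)) (.inr 2)
  | e2 (c σ) : IsClause (.inl (.Q c σ, false)) (.inl (.Qn c σ, true)) (.inr 2)
  | st (c σ σ') (h : σ'.1 = σ.1 + 1) :
      IsClause (.inl (.Q c σ, true)) (.inl (.Q c σ, true)) (.inl (.Qn c σ', false))
  | nr (c σ) :
      IsClause (.inl (.Q c (Fin.last _), true)) (.inl (.Q c σ, false)) (.inl (.Qn c σ, true))
  | a1 (c) : IsClause (.inl (.Q c (Fin.last _), true)) (.inl (.Qn c (Fin.last _), false))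
      (.inl (.An c, false))
  | a2 (c) : IsClause (.inl (.An c, true)) (.inl (.Qn (A.nx c false) 0, false))
      (.inl (.Qn (A.nx c true) 0, false))
  | u1 (c σ σ') (h : σ'.1 = σ.1 + 1) (h' : A.unit c σ'.1) :
      IsClause (.inl (.Q c σ', true)) (.inl (.Q c σ, false)) (.inl (.U c σ', false))
  | un (c σ) : IsClause (.inl (.U c σ, true)) (.inl (.Qn c σ, true)) (.inl (.K 2, true))
  | bd (c) (h : A.bad c) : IsClause (.inl (.Q c (Fin.last _), true))
      (.inl (.Q c (Fin.last _), true)) (.inl (.Q c (Fin.last _), true))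
  | t0 (x c) : IsClause (.inl (.Q c 0, true)) (.inl (.Q c 0, true)) (.inl (.M x, true))
  | t1 (x c σ σ') (h : σ'.1 = σ.1 + 1) (h' : ¬ A.unit c σ'.1) :
      IsClause (.inl (.Q c σ', true)) (.inl (.Q c σ, false)) (.inl (.M x, true))
  | tu (x c σ) (i : Fin 3) (h : A.mu x c σ.1 i) :
      IsClause (.inl (.U c σ, true)) (.inl (.K i, true)) (.inl (.M x, false))
  | tu' (x c σ) (i : Fin 3) (h : ¬ A.mu x c σ.1 i) :
      IsClause (.inl (.U c σ, true)) (.inl (.K i, true)) (.inl (.M x, true))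

/-- gates -/
def IsGate (g : Gate (Var C Tr A.m)) : Prop :=
  (∃ i, A.IsDelay i g.2.2.2 ∧ g.1 = .inl (.K i, true) ∧ g.2.1 = .inl (.K i, true) ∧
    g.2.2.1 = .inr i) ∨ (A.IsClause g.1 g.2.1 g.2.2.1 ∧ g.2.2.2 = .F)

variable {A}

lemma val_true {ph : ℤ → C × ℕ} {v : Var C Tr A.m} {t : ℤ} :
    A.val ph v t = true ↔ A.aval (ph (t / 3)) (ph ((t + 1) / 3)) (t % 3) v := by simp [val]

lemma val_false {ph : ℤ → C × ℕ} {v : Var C Tr A.m} {t : ℤ} :
    A.val ph v t = false ↔ ¬ A.aval (ph (t / 3)) (ph ((t + 1) / 3)) (t % 3) v := by simp [val]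

lemma eq_val {ph : ℤ → C × ℕ} {v : Var C Tr A.m} {t : ℤ} {b : Bool} :
    b = A.val ph v t ↔ (b = true ↔ A.aval (ph (t / 3)) (ph ((t + 1) / 3)) (t % 3) v) := by
  rw [Bool.eq_iff_iff, val_true]

theorem complete {ph : ℤ → C × ℕ} (h : A.Run ph)
    (hQ1 : ∀ c σ, σ ≤ A.m → RichFrom (fun τ => decide ((ph τ).1 = c ∧ (ph τ).2 ≤ σ)) 0)
    (hQ3 : ∀ c σ, σ ≤ A.m →
      RichFrom (fun t => decide ((ph (t / 3)).1 = c ∧ (ph (t / 3)).2 ≤ σ)) 0)
    (hU : ∀ c σ, σ ≤ A.m → A.unit c σ → RichFrom (fun t => decide (ph (t / 3) = (c, σ))) 0)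
    (hA : ∀ c, RichFrom (fun t => decide ((ph (t / 3)).2 = 0 ∧
      ((ph (t / 3)).1 = A.nx c false ∨ (ph (t / 3)).1 = A.nx c true))) 0) :
    GoodC (Subtype.val : {g // A.IsGate g} → _) (A.val ph) := by
  have rich : ∀ v, RichFrom (A.val ph v) 0 := by
    intro v
    cases v with
    | K i => exact (richFrom_clock i).congr fun s _ => by simp [eq_val, aval]
    | F => exact (richFrom_const false 0).congr fun s _ => by simp [eq_val, aval]
    | Q c σ => exact (hQ3 c σ (by omega)).congr fun s _ => by simp [eq_val, aval]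
    | Qn c σ =>
      exact ((hQ3 c σ (by omega)).mono (show (0 : ℤ) ≤ 0 + 1 by omega)).shift.congr
        fun s _ => by simp [eq_val, aval]
    | U c σ =>
      by_cases k : A.unit c σ
      · exact (hU c σ (by omega) k).congr fun s _ => by simp [eq_val, aval, k]
      · exact (richFrom_const false 0).congr fun s _ => by simp [eq_val, aval, k]
    | An c =>
      exact ((hA c).mono (show (0 : ℤ) ≤ 0 + 1 by omega)).shift.congr
        fun s _ => by simp [eq_val, aval]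
    | M x => exact (h.rich x).congr fun s _ => by simp [eq_val, aval]
  refine ⟨rich, ?_, ?_⟩
  · rintro ⟨⟨l0, l1, l2, v⟩, ⟨i, -, e0, e1, e2⟩ | ⟨hc, -⟩⟩ t ht
    · simp only at e0 e1 e2
      simp only [e0, e2, tv, val_true, aval]
      tauto
    have k1 := h.le (t / 3) (by omega)
    have k2 := h.le ((t + 1) / 3) (by omega)
    have k3 := h.ok (t / 3) (by omega)
    have k4 : (t % 3 ≠ 2 ∧ ph ((t + 1) / 3) = ph (t / 3)) ∨
        (t % 3 = 2 ∧ A.Step (ph (t / 3)) (ph ((t + 1) / 3))) := by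
      by_cases k : t % 3 = 2
      · rw [show (t + 1) / 3 = t / 3 + 1 by omega]
        exact Or.inr ⟨k, h.step _ (by omega)⟩
      · rw [show (t + 1) / 3 = t / 3 by omega]
        exact Or.inl ⟨k, rfl⟩
    simp only at hc ⊢
    clear hQ1 hQ3 hU hA rich h
    have f2 : (((2 : Fin 3) : ℕ) : ℤ) = 2 := rfl
    cases hc <;> simp only [tv, val_true, val_false, aval, f2] <;>
      generalize ph (t / 3) = p at * <;> generalize ph ((t + 1) / 3) = p' at * <;>
      obtain ⟨c1, s1⟩ := p <;> obtain ⟨c2, s2⟩ := p' <;>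
      simp only [Step, Prod.mk.injEq, Fin.val_last, Fin.val_zero] at *
    case clk i _ => fin_cases i <;> simp <;> omega
    case e1 => grind
    case e2 => grind
    case st c σ σ' e _ => have := σ'.2; grind
    case nr c σ _ => have := A.nx_ne; grind
    case a1 c _ =>
      rintro ⟨rfl, -⟩ a b
      rcases k4 with k | ⟨-, k | k | ⟨-, k, b', k'⟩⟩
      · grind
      · grind
      · grind
      · cases b' <;> grind
    case a2 => grind
    case u1 => grind
    case un => have := A.nx_ne; grind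
    case bd => grind
    case t0 x c _ =>
      rintro ⟨rfl, a⟩ - b
      obtain rfl : s1 = 0 := by omega
      exact A.unit0 _ (A.mu_unit _ _ _ _ b)
    case t1 x c σ σ' e e' _ =>
      rintro ⟨rfl, a⟩ a' b
      obtain rfl : s1 = σ' := by grind
      exact e' (A.mu_unit _ _ _ _ b)
    case tu x c σ i e _ =>
      rintro ⟨-, rfl, rfl⟩ a a'
      exact a' (a ▸ e)
    case tu' x c σ i e _ =>
      rintro ⟨-, rfl, rfl⟩ a a'
      exact e (a ▸ a')
  · rintro ⟨⟨l0, l1, l2, v⟩, ⟨i, hd, e0, e1, e2⟩ | ⟨hc, e⟩⟩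
    · simp only at hd e2 ⊢
      subst e2
      cases hd with
      | d0 c σ =>
        refine (hQ1 c σ (by omega)).cuu.congr fun s _ => ?_
        by_cases k : s % 3 = 0 <;> simp [tv, eq_val, aval, k]
      | d2 c σ =>
        refine ((hQ1 c σ (by omega)).cuu.mono (show (0 : ℤ) ≤ 0 + 1 by omega)).shift.congr
          fun s _ => ?_
        by_cases k : s % 3 = 2
        · simp [tv, k, show (s + 1) % 3 = 0 by omega]
        · simp [tv, eq_val, aval, k, show ¬ (s + 1) % 3 = 0 by omega,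
            show (s + 1) / 3 = s / 3 by omega]
      | d1 c σ =>
        refine ((hQ1 c σ (by omega)).cuu.mono (show (0 : ℤ) ≤ 0 + 2 by omega)).shift.congr
          fun s _ => ?_
        by_cases k : s % 3 = 1
        · simp [tv, k, show (s + 2) % 3 = 0 by omega]
        · simp [tv, eq_val, aval, k, show ¬ (s + 2) % 3 = 0 by omega,
            show (s + 2) / 3 = (s + 1) / 3 by omega]
    · simp only at e ⊢
      subst e
      exact ((tv_rich rich l2).ite (x := some false) (y := none) (p := fun t => tv (A.val ph) t l2)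
        (by simp) (by simp)).congr fun s _ => by rw [val_false.mpr (by simp [aval])]

theorem sound {ph0 : ℤ → C × ℕ} {val' : Var C Tr A.m → ℤ → Bool} {n : ℕ} (hn : 1 ≤ n)
    (h : GoodS (Subtype.val : {g // A.IsGate g} → _) val')
    (hag : ∀ v (t : ℤ), 0 ≤ t → t < (3 * n : ℕ) → val' v t = A.val ph0 v t)
    (hle : ∀ τ : ℤ, 0 ≤ τ → τ < n → (ph0 τ).2 ≤ A.m)
    (hst : ∀ τ : ℤ, 0 ≤ τ → τ + 1 < n → A.Step (ph0 τ) (ph0 (τ + 1))) :
    ∃ ph, A.Run ph ∧ ∀ τ : ℤ, 0 ≤ τ → τ < n → ph τ = ph0 τ := by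
  have cl : ∀ {l0 l1 l2}, A.IsClause l0 l1 l2 → ∀ t, 0 ≤ t →
      tv val' t l0 → tv val' t l1 → tv val' t l2 → False := by
    intro l0 l1 l2 hc t ht a b c
    obtain ⟨β, -, hβ⟩ := h.bet ⟨(l0, l1, l2, .F), Or.inr ⟨hc, rfl⟩⟩
    have k1 := (hβ t ht).1 a b
    have k2 := (hβ t ht).2 c
    simp [k1] at k2
  have Kt : ∀ (i : Fin 3) (t : ℤ), 0 ≤ t → t % 3 = i → val' (.K i) t = true := by
    intro i t ht e
    have := cl (.clk i) t ht
    simp only [tv] at this
    by_contra hc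
    refine this ?_ ?_ (by simpa using hc) <;> fin_cases i <;> simp at e ⊢ <;> omega
  have dl : ∀ {i v}, A.IsDelay i v → ∀ t : ℤ, 0 ≤ t → t % 3 = i →
      val' v (t + 1) = val' v (t + 2) := by
    intro i v hd t ht e
    obtain ⟨β, hr, hβ⟩ := h.bet ⟨(.inl (.K i, true), .inl (.K i, true), .inr i, v),
      Or.inl ⟨i, hd, rfl, rfl, rfl⟩⟩
    have k0 := (hβ t ht).1 (Kt i t ht e) (Kt i t ht e)
    have k3 := (hβ (t + 3) (by omega)).1 (Kt i _ (by omega) (by omega))
      (Kt i _ (by omega) (by omega))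
    have k1 := (hβ (t + 1) (by omega)).2 (by simp only [tv]; omega)
    have k2 := (hβ (t + 2) (by omega)).2 (by simp only [tv]; omega)
    have := hr.letter ht (show t < t + 3 by omega) (k0.trans k3.symm) (fun j j1 j2 => by
      rcases (by omega : j = t + 1 ∨ j = t + 2) with rfl | rfl
      · simp [k1, k3]
      · simp [k2, k3]) (t + 1) (by omega) (by omega)
    rw [show t + (t + 3) - (t + 1) = t + 2 by ring, k1, k2] at this
    simpa using this
  let q : C → Fin (A.m + 1) → ℤ → Prop := fun c σ τ => val' (.Q c σ) (3 * τ + 1) = true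
  have hQ : ∀ c σ t, 0 ≤ t → val' (.Q c σ) t = val' (.Q c σ) (3 * (t / 3) + 1) := by
    intro c σ t ht
    rcases (by omega : t % 3 = 0 ∨ t % 3 = 1 ∨ t % 3 = 2) with k | k | k
    · by_cases h0 : t = 0
      · subst h0
        rw [hag _ _ (by omega) (by omega), hag _ _ (by omega) (by omega)]
        simp [eq_val, val_true, aval]
      · have := dl (.d2 c σ) (t - 1) (by omega) (by simp only [Fin.coe_ofNat_eq_mod]; omega)
        convert this using 2 <;> omega
    · congr 1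
      omega
    · have := dl (.d0 c σ) (t - 2) (by omega) (by simp only [Fin.coe_ofNat_eq_mod]; omega)
      convert this.symm using 2 <;> omega
  have hQn0 : ∀ c σ t, 0 ≤ t → t % 3 ≠ 2 → val' (.Qn c σ) t = val' (.Q c σ) t := by
    intro c σ t ht k
    have a := cl (.e1 c σ) t ht
    have b := cl (.e2 c σ) t ht
    simp only [tv] at a b
    revert a b
    cases val' (.Qn c σ) t <;> cases val' (.Q c σ) t <;> simp [k]
  have hQn : ∀ c σ t, 0 ≤ t → val' (.Qn c σ) t = val' (.Q c σ) (3 * ((t + 1) / 3) + 1) := by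
    intro c σ t ht
    by_cases k : t % 3 = 2
    · have := dl (.d1 c σ) (t - 1) (by omega) (by simp only [Fin.coe_ofNat_eq_mod]; omega)
      rw [show t - 1 + 1 = t by ring, show t - 1 + 2 = t + 1 by ring] at this
      rw [this, hQn0 c σ _ (by omega) (by omega), hQ c σ _ (by omega)]
    · rw [hQn0 c σ t ht k, hQ c σ t ht, show (t + 1) / 3 = t / 3 by omega]
  let I : ℤ → C × ℕ → Prop := fun τ p => p.2 ≤ A.m ∧ ∀ σ, q p.1 σ τ ↔ p.2 ≤ σ
  have hU : ∀ t p (hp : p.2 < A.m + 1), 0 ≤ t → I (t / 3) p → A.unit p.1 p.2 →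
      val' (.U p.1 ⟨p.2, hp⟩) t = true := by
    rintro t ⟨c, σ⟩ hp ht ⟨i1, i2⟩ hu
    simp only at hp i1 i2 hu ⊢
    obtain ⟨σ, rfl⟩ : ∃ s, σ = s + 1 := ⟨σ - 1, by
      rcases Nat.eq_zero_or_pos σ with rfl | k
      · exact (A.unit0 _ hu).elim
      · omega⟩
    have := cl (.u1 c ⟨σ, by omega⟩ ⟨σ + 1, hp⟩ rfl hu) t ht
    simp only [tv, hQ _ _ t ht] at this
    by_contra hc
    refine this ((i2 _).mpr le_rfl) ?_ (by simpa using hc)
    rw [← Bool.not_eq_true]
    exact fun k => by simpa using (i2 _).mp k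
  have stp : ∀ τ p, 0 ≤ τ → I τ p → ∃ p', A.Step p p' ∧ I (τ + 1) p' := by
    rintro τ ⟨c, σ⟩ hτ hI
    have hI' := hI
    obtain ⟨i1, i2⟩ := hI
    simp only at i1 i2
    have e1 : (3 * τ + 2) / 3 = τ := by omega
    have e2 : (3 * τ + 2 + 1) / 3 = τ + 1 := by omega
    have ht : 0 ≤ 3 * τ + 2 := by omega
    have up : ∀ s : Fin (A.m + 1), σ < s → q c s (τ + 1) := by
      intro s hs
      have := cl (.st c ⟨s.1 - 1, by omega⟩ s (by simp only; omega)) _ ht
      simp only [tv, hQ _ _ _ ht, hQn _ _ _ ht, e1, e2] at this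
      have k : q c ⟨s.1 - 1, by omega⟩ τ := (i2 _).mpr (by simp only; omega)
      by_contra hc
      exact this k k (by simpa [q] using hc)
    have dn : ∀ s : Fin (A.m + 1), s < σ → ¬ q c s (τ + 1) := by
      intro s hs hc
      have := cl (.nr c s) _ ht
      simp only [tv, hQ _ _ _ ht, hQn _ _ _ ht, e1, e2] at this
      refine this ((i2 _).mpr i1) ?_ hc
      rw [← Bool.not_eq_true]
      exact fun k => by have := (i2 _).mp k; omega
    by_cases hq : q c ⟨σ, by omega⟩ (τ + 1)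
    · refine ⟨(c, σ), Or.inl ⟨rfl, rfl, fun hu => ?_⟩, i1, fun s => ?_⟩
      · have := cl (.un c ⟨σ, by omega⟩) _ ht
        simp only [tv, hQn _ _ _ ht, e2] at this
        exact this (hU _ (c, σ) (by simp only; omega) ht (by rwa [e1]) hu) hq
          (Kt 2 _ ht (by simp only [Fin.coe_ofNat_eq_mod]; omega))
      · rcases lt_trichotomy σ s with k | k | k
        · exact ⟨fun _ => k.le, fun _ => up s k⟩
        · subst k
          exact ⟨fun _ => le_rfl, fun _ => hq⟩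
        · exact ⟨fun k' => (dn s k k').elim, fun k' => by simp only at k'; omega⟩
    by_cases hm : σ < A.m
    · refine ⟨(c, σ + 1), Or.inr (Or.inl ⟨rfl, rfl, hm⟩), hm, fun s => ?_⟩
      rcases lt_trichotomy σ s with k | k | k
      · exact ⟨fun _ => k, fun _ => up s k⟩
      · subst k
        exact ⟨fun k' => (hq k').elim, fun k' => by simp at k'⟩
      · exact ⟨fun k' => (dn s k k').elim, fun k' => by simp only at k'; omega⟩
    obtain rfl : σ = A.m := by omega
    have a1 := cl (.a1 c) _ ht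
    have a2 := cl (.a2 c) _ ht
    simp only [tv, hQ _ _ _ ht, hQn _ _ _ ht, e1, e2] at a1 a2
    obtain ⟨b, hb⟩ : ∃ b, q (A.nx c b) 0 (τ + 1) := by
      by_contra hc
      push Not at hc
      refine a2 ?_ (by simpa [q] using hc false) (by simpa [q] using hc true)
      by_contra hc'
      exact a1 ((i2 _).mpr le_rfl) (Bool.eq_false_iff.mpr hq) (by simpa using hc')
    refine ⟨(A.nx c b, 0), Or.inr (Or.inr ⟨rfl, rfl, b, rfl⟩), Nat.zero_le _, fun s => ?_⟩
    simp only [zero_le, iff_true]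
    obtain ⟨s, hs⟩ := s
    induction s with
    | zero => exact hb
    | succ s ih =>
      have ht' : 0 ≤ 3 * (τ + 1) := by omega
      have := cl (.st (A.nx c b) ⟨s, by omega⟩ ⟨s + 1, hs⟩ rfl) _ ht'
      simp only [tv, hQ _ _ _ ht', hQn _ _ _ ht', show 3 * (τ + 1) / 3 = τ + 1 by omega,
        show (3 * (τ + 1) + 1) / 3 = τ + 1 by omega] at this
      by_contra hc
      exact this (ih _) (ih _) (by simpa [q] using hc)
  choose! nxt hn1 hn2 using stp
  have I0 : ∀ τ : ℤ, 0 ≤ τ → τ < n → I τ (ph0 τ) := by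
    intro τ a b
    refine ⟨hle τ a b, fun σ => ?_⟩
    simp only [q]
    rw [hag _ _ (by omega) (by omega)]
    simp [val_true, aval, show (3 * τ + 1) / 3 = τ by omega]
  let g : ℕ → C × ℕ := fun k => Nat.rec (ph0 0)
    (fun k p => if k + 1 < n then ph0 (k + 1) else nxt k p) k
  have gs : ∀ k, g (k + 1) = if k + 1 < n then ph0 (k + 1) else nxt k (g k) := fun k => rfl
  have g0 : ∀ k, k < n → g k = ph0 k := by
    rintro (_ | k) hk
    · rfl
    · rw [gs, if_pos hk]
      simp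
  have gI : ∀ k : ℕ, I k (g k) := by
    intro k
    induction k with
    | zero => exact I0 0 le_rfl (by omega)
    | succ k ih =>
      by_cases hk : k + 1 < n
      · rw [g0 _ hk]
        exact I0 _ (by omega) (by omega)
      · rw [gs, if_neg hk]
        exact hn2 k _ (by omega) ih
  have gI' : ∀ τ : ℤ, 0 ≤ τ → I τ (g τ.toNat) := fun τ hτ => by
    have := gI τ.toNat
    rwa [Int.toNat_of_nonneg hτ] at this
  refine ⟨fun τ => g τ.toNat, ⟨fun τ hτ => (gI' τ hτ).1, fun τ hτ => ?_, fun τ hτ hb => ?_,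
    fun x => (h.rich (.M x)).congr fun t ht => ?_⟩, fun τ a b => ?_⟩
  · obtain ⟨k, rfl⟩ := Int.eq_ofNat_of_zero_le hτ
    rw [show ((k : ℤ) + 1).toNat = k + 1 by omega, Int.toNat_natCast]
    by_cases hk : k + 1 < n
    · rw [g0 _ hk, g0 _ (by omega)]
      exact hst k hτ (by omega)
    · rw [gs, if_neg hk]
      exact hn1 k _ hτ (gI k)
  · have := cl (.bd _ hb) (3 * τ + 1) (by omega)
    have k := ((gI' τ hτ).2 (Fin.last _)).mpr (gI' τ hτ).1
    exact this k k k
  · have hI := gI' (t / 3) (by omega)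
    generalize g (t / 3).toNat = p at hI
    by_cases hu : A.unit p.1 p.2
    · have hp : p.2 < A.m + 1 := by have := hI.1; omega
      obtain ⟨i, hi⟩ : ∃ i : Fin 3, t % 3 = i := ⟨⟨(t % 3).toNat, by omega⟩, by simp only; omega⟩
      rw [hi]
      by_cases k : A.mu x p.1 p.2 i
      · simpa [tv, k] using cl (.tu x p.1 ⟨p.2, hp⟩ i k) t ht (hU t p hp ht hI hu) (Kt i t ht hi)
      · simpa [tv, k] using cl (.tu' x p.1 ⟨p.2, hp⟩ i k) t ht (hU t p hp ht hI hu) (Kt i t ht hi)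
    · have k : ¬ A.mu x p.1 p.2 (t % 3) := fun k => hu (A.mu_unit _ _ _ _ k)
      simp only [k, decide_false]
      obtain ⟨c, σ⟩ := p
      obtain ⟨i1, i2⟩ := hI
      simp only at i1 i2 hu
      rw [← Bool.not_eq_true]
      intro hM
      rcases σ with _ | σ
      · have := cl (.t0 x c) t ht
        simp only [tv, hQ _ _ t ht] at this
        exact this ((i2 _).mpr le_rfl) ((i2 _).mpr le_rfl) hM
      · have := cl (.t1 x c ⟨σ, by omega⟩ ⟨σ + 1, by omega⟩ rfl hu) t ht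
        simp only [tv, hQ _ _ t ht] at this
        refine this ((i2 _).mpr le_rfl) ?_ hM
        rw [← Bool.not_eq_true]
        exact fun k => by simpa using (i2 _).mp k
  · simp only
    rw [g0 _ (by omega), Int.toNat_of_nonneg a]

end Aut

end Pool.Agent.MP_8e55f0_lc

end

-- part MP_8e55f0_lc.Prog
section

/-! Adapted from the register programs of problem MP_435b2a_lc: here only increments and
decrementing loops are primitive. -/

namespace Pool.Agent.MP_8e55f0_lc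

open Function Relation

/-- structured register programs -/
inductive Prog
  | skip
  | inc (r : ℕ)
  | seq (p q : Prog)
  | loop (r : ℕ) (p : Prog)

/-- configurations: continuation and registers -/
abbrev Cfg := List Prog × (ℕ → ℕ)

/-- small step -/
def pstep : Cfg → Option Cfg
  | ([], _) => none
  | (.skip :: k, s) => some (k, s)
  | (.inc r :: k, s) => some (k, update s r (s r + 1))
  | (.seq p q :: k, s) => some (p :: q :: k, s)
  | (.loop r p :: k, s) =>
      if s r = 0 then some (k, s) else some (p :: .loop r p :: k, update s r (s r - 1))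

/-- step relation -/
def PS (c c' : Cfg) : Prop := pstep c = some c'

/-- `p` run on `s` terminates with `s'` -/
def Runs (p : Prog) (s s' : ℕ → ℕ) : Prop := ∀ k, ReflTransGen PS (p :: k, s) (k, s')

lemma Runs.skip (s : ℕ → ℕ) : Runs .skip s s :=
  fun _ => ReflTransGen.single rfl

lemma Runs.inc (r : ℕ) (s : ℕ → ℕ) : Runs (.inc r) s (update s r (s r + 1)) :=
  fun _ => ReflTransGen.single rfl

lemma Runs.seq {p q : Prog} {s s' s'' : ℕ → ℕ} (h : Runs p s s') (h' : Runs q s' s'') :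
    Runs (.seq p q) s s'' :=
  fun k => ReflTransGen.head rfl ((h _).trans (h' k))

lemma Runs.loop_zero {r : ℕ} {p : Prog} {s : ℕ → ℕ} (h : s r = 0) : Runs (.loop r p) s s :=
  fun _ => ReflTransGen.single (by simp [PS, pstep, h])

lemma Runs.loop_succ {r : ℕ} {p : Prog} {s s' s'' : ℕ → ℕ} (h : s r ≠ 0)
    (h1 : Runs p (update s r (s r - 1)) s') (h2 : Runs (.loop r p) s' s'') :
    Runs (.loop r p) s s'' :=
  fun k => ReflTransGen.head (by simp [PS, pstep, h]) ((h1 _).trans (h2 k))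

/-- clearing a register -/
def Prog.zero (r : ℕ) : Prog := .loop r .skip

lemma Runs.zero (r : ℕ) (s : ℕ → ℕ) : Runs (.zero r) s (update s r 0) := by
  generalize hn : s r = n
  induction n generalizing s with
  | zero =>
    rw [← hn, update_eq_self]
    exact Runs.loop_zero hn
  | succ n ih =>
    have := ih (update s r (s r - 1)) (by simp [hn])
    rw [update_idem] at this
    exact Runs.loop_succ (by omega) (Runs.skip _) this

lemma Runs.move2 {a b t : ℕ} (h1 : a ≠ b) (h2 : a ≠ t) (h3 : b ≠ t) (s : ℕ → ℕ) :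
    Runs (.loop a (.seq (.inc b) (.inc t))) s
      (update (update (update s a 0) b (s b + s a)) t (s t + s a)) := by
  generalize hn : s a = n
  induction n generalizing s with
  | zero =>
    have : update (update (update s a 0) b (s b + 0)) t (s t + 0) = s := by
      funext r
      simp only [update_apply]
      split_ifs <;> simp_all
    rw [this]
    exact Runs.loop_zero hn
  | succ n ih =>
    refine Runs.loop_succ (by omega) ((Runs.inc _ _).seq (Runs.inc _ _)) ?_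
    convert ih _ ?_ using 1
    · funext r
      simp only [update_apply]
      split_ifs <;> simp_all <;> omega
    · simp [h1, h2, hn]

lemma Runs.move1 {a t : ℕ} (h2 : a ≠ t) (s : ℕ → ℕ) :
    Runs (.loop t (.inc a)) s (update (update s t 0) a (s a + s t)) := by
  generalize hn : s t = n
  induction n generalizing s with
  | zero =>
    have : update (update s t 0) a (s a + 0) = s := by
      funext r
      simp only [update_apply]
      split_ifs <;> simp_all
    rw [this]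
    exact Runs.loop_zero hn
  | succ n ih =>
    refine Runs.loop_succ (by omega) (Runs.inc _ _) ?_
    convert ih _ ?_ using 1
    · funext r
      simp only [update_apply]
      split_ifs <;> simp_all <;> omega
    · simp [h2.symm, hn]

/-- copying a register with the help of a scratch register -/
def Prog.copy (a b t : ℕ) : Prog :=
  .seq (.zero b) (.seq (.zero t) (.seq (.loop a (.seq (.inc b) (.inc t))) (.loop t (.inc a))))

lemma Runs.copy {a b t : ℕ} (h1 : a ≠ b) (h2 : a ≠ t) (h3 : b ≠ t) (s : ℕ → ℕ) :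
    Runs (.copy a b t) s (update (update s t 0) b (s a)) := by
  refine (Runs.zero _ _).seq ((Runs.zero _ _).seq ((Runs.move2 h1 h2 h3 _).seq ?_))
  convert Runs.move1 h2 _ using 1
  funext r
  simp only [update_apply]
  split_ifs <;> simp_all

/-- `f` is computed with arbitrary placement of input and output registers -/
def Computes {n : ℕ} (f : List.Vector ℕ n → ℕ) : Prop :=
  ∀ (inp : Fin n → ℕ) (out b : ℕ), (∀ i, inp i < b) → out < b → (∀ i, inp i ≠ out) →
    ∃ p : Prog, ∀ s : ℕ → ℕ, ∃ s', Runs p s s' ∧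
      s' out = f (List.Vector.ofFn fun i => s (inp i)) ∧ ∀ r, r < b → r ≠ out → s' r = s r

lemma computes_many {m n : ℕ} (g : Fin n → List.Vector ℕ m → ℕ) (hg : ∀ i, Computes (g i))
    (inp : Fin m → ℕ) (b : ℕ) (hb : ∀ i, inp i < b) (j : ℕ) (hj : j ≤ n) :
    ∃ p : Prog, ∀ s : ℕ → ℕ, ∃ s', Runs p s s' ∧
      (∀ i : Fin n, i.1 < j → s' (b + i) = g i (List.Vector.ofFn fun i => s (inp i))) ∧
      ∀ r, r < b → s' r = s r := by
  induction j with
  | zero =>
    refine ⟨.skip, fun s => ⟨_, Runs.skip s, fun i hi => absurd hi (by omega), ?_⟩⟩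
    simp
  | succ j ih =>
    obtain ⟨p, hp⟩ := ih (by omega)
    obtain ⟨q, hq⟩ := hg ⟨j, by omega⟩ inp (b + j) (b + n) (fun i => by have := hb i; omega)
      (by omega) (fun i => by have := hb i; omega)
    refine ⟨.seq p q, fun s => ?_⟩
    obtain ⟨s₁, r1, a1, b1⟩ := hp s
    obtain ⟨s₂, r2, a2, b2⟩ := hq s₁
    refine ⟨s₂, r1.seq r2, fun i hi => ?_, fun r hr => ?_⟩
    · by_cases hij : i.1 = j
      · obtain ⟨i, hi'⟩ := i
        simp only at hij
        subst hij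
        rw [a2]
        congr 2
        exact funext fun i => b1 _ (hb i)
      · rw [b2 _ (by omega) (by omega), a1 i (by omega)]
    · rw [b2 _ (by omega) (by omega), b1 r hr]

lemma computes_of_prim {n : ℕ} {f : List.Vector ℕ n → ℕ} (hf : Nat.Primrec' f) : Computes f := by
  induction hf with
  | zero =>
    intro inp out b _ _ _
    exact ⟨.zero out, fun s => ⟨_, Runs.zero out s, by simp, fun r _ hr => by simp [hr]⟩⟩
  | succ =>
    intro inp out b h1 h2 h3
    refine ⟨.seq (.copy (inp 0) out b) (.inc out), fun s =>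
      ⟨_, (Runs.copy (h3 0) (h1 0).ne h2.ne s).seq (Runs.inc _ _), by simp,
        fun r hr' hr => by simp [hr, hr'.ne]⟩⟩
  | get i =>
    intro inp out b h1 h2 h3
    exact ⟨.copy (inp i) out b, fun s => ⟨_, Runs.copy (h3 i) (h1 i).ne h2.ne s, by simp,
      fun r hr' hr => by simp [hr, hr'.ne]⟩⟩
  | @comp m n f g _ _ ihf ihg =>
    intro inp out b h1 h2 h3
    obtain ⟨p, hp⟩ := computes_many g ihg inp b h1 n le_rfl
    obtain ⟨q, hq⟩ := ihf (fun i => b + i) out (b + n) (fun i => by have := i.2; omega)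
      (by omega) (fun i => by omega)
    refine ⟨.seq p q, fun s => ?_⟩
    obtain ⟨s₁, r1, a1, b1⟩ := hp s
    obtain ⟨s₂, r2, a2, b2⟩ := hq s₁
    refine ⟨s₂, r1.seq r2, ?_, fun r hr hr' => ?_⟩
    · rw [a2]
      congr 2
      exact funext fun i => a1 i i.2
    · rw [b2 r (by omega) hr', b1 r hr]
  | @prec n f g _ _ ihf ihg =>
    intro inp out b h1 h2 h3
    obtain ⟨p, hp⟩ := ihf (fun i => inp i.succ) out b (fun i => h1 _) h2 (fun i => h3 _)
    obtain ⟨q, hq⟩ := ihg (Fin.cons b (Fin.cons out fun i => inp i.succ)) (b + 2) (b + 3)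
      (fun i => by
        refine Fin.cases ?_ (fun i => Fin.cases ?_ (fun i => ?_) i) i
        · simp
        · simp only [Fin.cons_succ, Fin.cons_zero]; omega
        · have := h1 i.succ
          simp only [Fin.cons_succ]; omega)
      (by omega)
      (fun i => by
        refine Fin.cases ?_ (fun i => Fin.cases ?_ (fun i => ?_) i) i
        · simp
        · simp only [Fin.cons_succ, Fin.cons_zero]; omega
        · have := h1 i.succ
          simp only [Fin.cons_succ]; omega)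
    let body : Prog := .seq q (.seq (.copy (b + 2) out (b + 3)) (.inc b))
    refine ⟨.seq p (.seq (.zero b) (.seq (.copy (inp 0) (b + 1) (b + 2)) (.loop (b + 1) body))),
      fun s => ?_⟩
    let t : List.Vector ℕ n := List.Vector.ofFn fun i => s (inp i.succ)
    let F : ℕ → ℕ := fun y => y.rec (f t) fun y IH => g (y ::ᵥ IH ::ᵥ t)
    have key : ∀ (c y : ℕ) (s₁ : ℕ → ℕ), s₁ (b + 1) = c → s₁ b = y → s₁ out = F y →
        (∀ r, r < b → r ≠ out → s₁ r = s r) →
        ∃ s', Runs (.loop (b + 1) body) s₁ s' ∧ s' out = F (y + c) ∧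
          ∀ r, r < b → r ≠ out → s' r = s r := by
      intro c
      induction c with
      | zero => exact fun y s₁ e1 _ e3 e4 => ⟨s₁, Runs.loop_zero e1, e3, e4⟩
      | succ c ih =>
        intro y s₁ e1 e2 e3 e4
        obtain ⟨s₂, r2, a2, b2⟩ := hq (update s₁ (b + 1) (s₁ (b + 1) - 1))
        have hv : (List.Vector.ofFn fun i => update s₁ (b + 1) (s₁ (b + 1) - 1)
            ((Fin.cons b (Fin.cons out fun i => inp i.succ) : Fin (n + 2) → ℕ) i)) =
            y ::ᵥ F y ::ᵥ t := by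
          apply List.Vector.ext
          intro i
          rw [List.Vector.get_ofFn]
          refine Fin.cases ?_ (fun i => Fin.cases ?_ (fun i => ?_) i) i
          · simp [e2]
          · simp only [Fin.cons_succ, Fin.cons_zero, List.Vector.get_cons_succ,
              List.Vector.get_cons_zero]
            rw [update_of_ne (by omega), e3]
          · simp only [Fin.cons_succ, List.Vector.get_cons_succ, t, List.Vector.get_ofFn]
            have := h1 i.succ
            rw [update_of_ne (by omega), e4 _ this (h3 _)]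
        rw [hv] at a2
        obtain ⟨s', r3, a3, b3⟩ := ih (y + 1)
          (update (update (update s₂ (b + 3) 0) out (s₂ (b + 2))) b
            (update (update s₂ (b + 3) 0) out (s₂ (b + 2)) b + 1))
          (by
            rw [update_of_ne (by omega), update_of_ne (by omega), update_of_ne (by omega),
              b2 _ (by omega) (by omega), update_self, e1]
            rfl)
          (by
            rw [update_self, update_of_ne (by omega), update_of_ne (by omega),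
              b2 _ (by omega) (by omega), update_of_ne (by omega), e2])
          (by rw [update_of_ne (by omega), update_self, a2])
          (fun r hr hr' => by
            rw [update_of_ne (by omega), update_of_ne hr', update_of_ne (by omega),
              b2 _ (by omega) (by omega), update_of_ne (by omega), e4 r hr hr'])
        refine ⟨s', Runs.loop_succ (by omega)
          (r2.seq ((Runs.copy (by omega) (by omega) (by omega) _).seq (Runs.inc _ _))) r3, ?_, b3⟩
        rw [a3, show y + 1 + c = y + (c + 1) by omega]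
    obtain ⟨s₁, r1, a1, b1⟩ := hp s
    have h10 := h1 0
    obtain ⟨s', r3, a3, b3⟩ := key (s (inp 0)) 0
      (update (update (update s₁ b 0) (b + 2) 0) (b + 1) (update s₁ b 0 (inp 0)))
      (by rw [update_self, update_of_ne (by omega), b1 _ h10 (h3 0)])
      (by rw [update_of_ne (by omega), update_of_ne (by omega), update_self])
      (by rw [update_of_ne (by omega), update_of_ne (by omega), update_of_ne (by omega), a1]; rfl)
      (fun r hr hr' => by
        rw [update_of_ne (by omega), update_of_ne (by omega), update_of_ne (by omega),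
          b1 r hr hr'])
    refine ⟨s', r1.seq ((Runs.zero _ _).seq
      ((Runs.copy (by omega) (by omega) (by omega) _).seq r3)), ?_, b3⟩
    rw [a3, zero_add]
    simp only [List.Vector.head_ofFn, List.Vector.tail_ofFn]
    rfl

/-- the configuration reaches the empty continuation -/
def PHalts (c : Cfg) : Prop := ∃ s', ReflTransGen PS c ([], s')

lemma not_pHalts_of_inv (I : Cfg → Prop) (hI : ∀ c, I c → ∃ c', TransGen PS c c' ∧ I c')
    (c : Cfg) (hc : I c) : ¬ PHalts c := by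
  rintro ⟨s', h⟩
  have key : ∀ c, ReflTransGen PS c ([], s') → ∀ c', ReflTransGen PS c c' → ¬ I c' := by
    intro c h
    induction h using ReflTransGen.head_induction_on with
    | refl =>
      intro c' h' hc'
      obtain ⟨c'', h'', _⟩ := hI c' hc'
      obtain ⟨d, hd, _⟩ := TransGen.head'_iff.mp (TransGen.trans_right h' h'')
      simp [PS, pstep] at hd
    | head hab _ ih =>
      intro c' h' hc'
      obtain ⟨c'', h'', hc''⟩ := hI c' hc'
      obtain ⟨d, hd, hd'⟩ := TransGen.head'_iff.mp (TransGen.trans_right h' h'')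
      have : d = _ := Option.some.inj (hd.symm.trans hab)
      subst this
      exact ih c'' hd' hc''
  exact key c h c ReflTransGen.refl hc

lemma exists_search {g : ℕ → ℕ → ℕ} (hg : Primrec₂ g) :
    ∃ p : Prog, ∀ s : ℕ → ℕ, PHalts ([p], s) ↔ ∃ j, g (s 0) j = 0 := by
  obtain ⟨q, hq⟩ := computes_of_prim (Nat.Primrec'.prim_iff₂.mpr hg) ![0, 1] 2 3
    (fun i => by fin_cases i <;> simp) (by norm_num) (fun i => by fin_cases i <;> simp)
  have hq' : ∀ s : ℕ → ℕ, ∃ s', Runs q s s' ∧ s' 2 = g (s 0) (s 1) ∧ s' 0 = s 0 ∧ s' 1 = s 1 := by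
    intro s
    obtain ⟨s', a, b, c⟩ := hq s
    refine ⟨s', a, ?_, c 0 (by norm_num) (by norm_num), c 1 (by norm_num) (by norm_num)⟩
    rw [b]
    simp
  let lp : Prog := .loop 2 (.seq (.inc 1) q)
  have body : ∀ s : ℕ → ℕ, ∃ s', Runs (.seq (.inc 1) q) (update s 2 (s 2 - 1)) s' ∧
      s' 2 = g (s 0) (s 1 + 1) ∧ s' 0 = s 0 ∧ s' 1 = s 1 + 1 := by
    intro s
    obtain ⟨s', a, b, c, d⟩ := hq' (update (update s 2 (s 2 - 1)) 1 (update s 2 (s 2 - 1) 1 + 1))
    refine ⟨s', (Runs.inc _ _).seq a, ?_, ?_, ?_⟩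
    · simpa using b
    · simpa using c
    · simpa using d
  refine ⟨.seq (.zero 1) (.seq q lp), fun s => ?_⟩
  obtain ⟨s₁, r1, a1, b1, c1⟩ := hq' (update s 1 0)
  simp only [ne_eq, zero_ne_one, not_false_eq_true, update_of_ne, update_self] at a1 b1 c1
  have start : TransGen PS ([Prog.seq (.zero 1) (.seq q lp)], s) ([lp], s₁) :=
    TransGen.head' rfl ((Runs.zero 1 s _).trans (ReflTransGen.head rfl (r1 _)))
  constructor
  · intro h
    by_contra hne
    push Not at hne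
    refine not_pHalts_of_inv (fun c => c = ([Prog.seq (.zero 1) (.seq q lp)], s) ∨
      (c.1 = [lp] ∧ c.2 0 = s 0 ∧ c.2 2 = g (s 0) (c.2 1))) ?_ _ (Or.inl rfl) h
    rintro ⟨k, t⟩ (hc | ⟨rfl, h1, h2⟩)
    · rw [hc]
      exact ⟨_, start, Or.inr ⟨rfl, b1, a1.trans (congrArg _ c1.symm)⟩⟩
    · obtain ⟨t', a, b, c, d⟩ := body t
      simp only at h1 h2
      have : t 2 ≠ 0 := by rw [h2]; exact hne _
      refine ⟨([lp], t'), TransGen.head' (by simp [PS, pstep, lp, this]) (a _), Or.inr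
        ⟨rfl, c.trans h1, ?_⟩⟩
      simp only
      rw [b, d, h1]
  · rintro ⟨j, hj⟩
    have key : ∀ (i : ℕ) (t : ℕ → ℕ), t 0 = s 0 → t 1 + i = j → t 2 = g (s 0) (t 1) →
        ∃ t', Runs lp t t' := by
      intro i
      induction i with
      | zero =>
        intro t _ h2 h3
        exact ⟨t, Runs.loop_zero (by rw [h3, show t 1 = j from h2, hj])⟩
      | succ i ih =>
        intro t h1 h2 h3
        by_cases h0 : t 2 = 0
        · exact ⟨t, Runs.loop_zero h0⟩
        · obtain ⟨t', a, b, c, d⟩ := body t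
          obtain ⟨t'', h⟩ := ih t' (c.trans h1) (by omega) (by rw [b, d, h1])
          exact ⟨t'', Runs.loop_succ h0 a h⟩
    obtain ⟨t', h⟩ := key j s₁ b1 (by omega) (by rw [c1]; exact a1)
    exact ⟨t', start.to_reflTransGen.trans (h [])⟩

open Nat.Partrec (Code) in
lemma exists_undecidable_prog :
    ∃ (p : Prog) (S : ℕ → Prop), ¬ ComputablePred S ∧ ∀ s : ℕ → ℕ, PHalts ([p], s) ↔ S (s 0) := by
  have hg : Primrec₂ fun (n j : ℕ) =>
      if (Code.evaln j (Denumerable.ofNat Code n) 0).isSome then 0 else 1 := by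
    refine Primrec.ite ?_ (Primrec.const 0) (Primrec.const 1)
    refine Primrec.primrecPred ?_
    have := Primrec.option_isSome.comp (Code.primrec_evaln.comp
      ((Primrec.snd.pair ((Primrec.ofNat Code).comp (Primrec.fst (α := ℕ) (β := ℕ)))).pair
        (Primrec.const 0)))
    simpa using this
  obtain ⟨p, hp⟩ := exists_search hg
  refine ⟨p, fun n => (Code.eval (Denumerable.ofNat Code n) 0).Dom, fun h => ?_, fun s => ?_⟩
  · apply ComputablePred.halting_problem 0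
    obtain ⟨f, hf, e⟩ := ComputablePred.computable_iff.mp h
    refine ComputablePred.computable_iff.mpr
      ⟨fun c => f (Encodable.encode c), hf.comp Computable.encode, ?_⟩
    ext c
    have := congrFun e (Encodable.encode c)
    simp only [Denumerable.ofNat_encode] at this
    rw [this]
  · rw [hp]
    beta_reduce
    rw [Part.dom_iff_mem]
    simp only [Code.evaln_complete, ite_eq_left_iff, one_ne_zero, imp_false, not_not,
      Option.isSome_iff_exists]
    exact exists_comm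

end Pool.Agent.MP_8e55f0_lc

end

-- part MP_8e55f0_lc.Mach
section

namespace Pool.Agent.MP_8e55f0_lc

open Function Relation

/-- counter machines -/
structure MM (P : Type) where
  K : ℕ
  start : P
  halt : P → Prop
  reg : P → ℕ
  inc : P → Bool
  dec : P → Bool
  nxt : P → Bool → P
  reg_lt : ∀ q, reg q < K

namespace MM

variable {P : Type} (M : MM P)

/-- outcome of the zero test -/
def zf (c : P × (ℕ → ℕ)) : Bool := M.dec c.1 && decide (c.2 (M.reg c.1) = 0)

/-- one step -/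
def step (c : P × (ℕ → ℕ)) : P × (ℕ → ℕ) :=
  (M.nxt c.1 (M.zf c), update c.2 (M.reg c.1)
    (if M.dec c.1 then c.2 (M.reg c.1) - 1 else if M.inc c.1 then c.2 (M.reg c.1) + 1
      else c.2 (M.reg c.1)))

/-- configuration after `k` steps -/
def cfg (N k : ℕ) : P × (ℕ → ℕ) := M.step^[k] (M.start, fun _ => N)

/-- the machine with a warm-up phase -/
def warm : MM (P ⊕ Fin 21) where
  K := M.K
  start := .inr 0
  halt := Sum.elim M.halt fun _ => False
  reg := Sum.elim M.reg fun _ => M.reg M.start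
  inc := Sum.elim M.inc fun _ => false
  dec := Sum.elim M.dec fun _ => false
  nxt := Sum.elim (fun q b => .inl (M.nxt q b))
    fun i _ => if h : i.1 + 1 < 21 then .inr ⟨i.1 + 1, h⟩ else .inl M.start
  reg_lt := by
    rintro (q | i)
    exacts [M.reg_lt q, M.reg_lt _]

lemma cfg_succ (N k : ℕ) : M.cfg N (k + 1) = M.step (M.cfg N k) := iterate_succ_apply' _ _ _

lemma warm_cfg (N k : ℕ) (h : k < 21) : M.warm.cfg N k = (.inr ⟨k, h⟩, fun _ => N) := by
  induction k with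
  | zero => rfl
  | succ k ih =>
    rw [cfg_succ, ih (by omega)]
    simp [step, warm, h]

lemma warm_cfg' (N k : ℕ) : M.warm.cfg N (21 + k) = (.inl (M.cfg N k).1, (M.cfg N k).2) := by
  induction k with
  | zero =>
    rw [add_zero, cfg_succ, warm_cfg _ _ _ (by omega)]
    simp [step, warm, cfg]
  | succ k ih =>
    rw [← add_assoc, cfg_succ, ih, cfg_succ]
    rfl

end MM

/-- register used by the head instruction -/
def freg : List Prog → ℕ
  | .inc r :: _ => r
  | .loop r _ :: _ => r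
  | _ => 0

/-- next control -/
def fnxt : List Prog → Bool → List Prog
  | [], _ => []
  | .skip :: k, _ => k
  | .inc _ :: k, _ => k
  | .seq p q :: k, _ => p :: q :: k
  | .loop r p :: k, z => if z then k else p :: .loop r p :: k

/-- increment -/
def finc : List Prog → Bool
  | .inc _ :: _ => true
  | _ => false

/-- decrement -/
def fdec : List Prog → Bool
  | .loop _ _ :: _ => true
  | _ => false

/-- continuations reachable while running `p` before `k` -/
def conts : Prog → List Prog → List (List Prog)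
  | .skip, k => [.skip :: k]
  | .inc r, k => [.inc r :: k]
  | .seq p q, k => (.seq p q :: k) :: (conts p (q :: k) ++ conts q k)
  | .loop r p, k => (.loop r p :: k) :: conts p (.loop r p :: k)

lemma self_mem_conts (p : Prog) (k : List Prog) : p :: k ∈ conts p k := by
  cases p <;> simp [conts]

lemma conts_closed (p : Prog) : ∀ (k c : List Prog) (z : Bool), c ∈ conts p k →
    fnxt c z ∈ conts p k ∨ fnxt c z = k := by
  induction p with
  | skip => intro k c z h; simp [conts] at h; simp [h, fnxt]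
  | inc r => intro k c z h; simp [conts] at h; simp [h, fnxt]
  | seq p q ihp ihq =>
    intro k c z h
    simp only [conts, List.mem_cons, List.mem_append] at h ⊢
    rcases h with rfl | h | h
    · exact Or.inl (Or.inr (Or.inl (self_mem_conts p _)))
    · rcases ihp _ c z h with h | h
      · exact Or.inl (Or.inr (Or.inl h))
      · exact Or.inl (Or.inr (Or.inr (h ▸ self_mem_conts q k)))
    · rcases ihq _ c z h with h | h
      · exact Or.inl (Or.inr (Or.inr h))
      · exact Or.inr h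
  | loop r p ih =>
    intro k c z h
    simp only [conts, List.mem_cons] at h ⊢
    rcases h with rfl | h
    · cases z
      · exact Or.inl (Or.inr (self_mem_conts p _))
      · exact Or.inr rfl
    · rcases ih _ c z h with h | h
      · exact Or.inl (Or.inr h)
      · exact Or.inl (Or.inl h)

theorem exists_mm0 : ∃ (P : Type) (_ : Finite P) (M : MM P) (S : ℕ → Prop),
    ¬ ComputablePred S ∧ ∀ N, (∃ k, M.halt (M.cfg N k).1) ↔ S N := by
  classical
  obtain ⟨p, S, hS, hp⟩ := exists_undecidable_prog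
  let L : List (List Prog) := [] :: conts p []
  obtain ⟨K, hK⟩ : ∃ K, ∀ c ∈ L, freg c < K := by
    refine ⟨L.toFinset.sup freg + 1, fun c hc => Nat.lt_succ_of_le ?_⟩
    exact Finset.le_sup (List.mem_toFinset.mpr hc)
  have hcl : ∀ c ∈ L, ∀ z, fnxt c z ∈ L := by
    intro c hc z
    rcases List.mem_cons.mp hc with rfl | hc
    · simp [L, fnxt]
    · rcases conts_closed p [] c z hc with h | h
      · exact List.mem_cons_of_mem _ h
      · rw [h]; simp [L]
  let M : MM {c // c ∈ L} :=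
    { K := K
      start := ⟨[p], List.mem_cons_of_mem _ (self_mem_conts p [])⟩
      halt := fun c => c.1 = []
      reg := fun c => freg c.1
      inc := fun c => finc c.1
      dec := fun c => fdec c.1
      nxt := fun c z => ⟨fnxt c.1 z, hcl _ c.2 z⟩
      reg_lt := fun c => hK _ c.2 }
  have key : ∀ c : {c // c ∈ L} × (ℕ → ℕ), c.1.1 ≠ [] →
      PS (c.1.1, c.2) ((M.step c).1.1, (M.step c).2) := by
    rintro ⟨⟨c, hc⟩, s⟩ h
    rcases c with _ | ⟨q, k⟩
    · exact (h rfl).elim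
    cases q with
    | loop r q =>
      by_cases h0 : s r = 0
      · simp only [PS, pstep, MM.step, MM.zf, M, freg, fnxt, fdec, h0]
        simp [eq_comm (a := s), h0]
      · simp [PS, pstep, MM.step, MM.zf, M, freg, fnxt, fdec, h0]
    | _ => simp [PS, pstep, MM.step, M, freg, fnxt, fdec, finc]
  refine ⟨{c // c ∈ L}, inferInstance, M, S, hS, fun N => ?_⟩
  rw [← hp fun _ => N]
  constructor
  · intro h
    have h1 := Nat.find_spec h
    have h2 := @Nat.find_min _ _ h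
    generalize Nat.find h = k at h1 h2
    have : ∀ j, j ≤ k → ReflTransGen PS ([p], fun _ => N) ((M.cfg N j).1.1, (M.cfg N j).2) := by
      intro j hj
      induction j with
      | zero => exact ReflTransGen.refl
      | succ j ih =>
        rw [MM.cfg_succ]
        exact (ih (by omega)).tail (key _ (h2 (by omega)))
    have k1 := this k le_rfl
    rw [show (M.cfg N k).1.1 = [] from h1] at k1
    exact ⟨_, k1⟩
  · rintro ⟨s', h⟩
    have : ∀ c' : Cfg, ReflTransGen PS ([p], fun _ => N) c' →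
        ∃ k, c' = ((M.cfg N k).1.1, (M.cfg N k).2) := by
      intro c' h
      induction h with
      | refl => exact ⟨0, rfl⟩
      | tail _ h2 ih =>
        obtain ⟨k, rfl⟩ := ih
        refine ⟨k + 1, ?_⟩
        rw [MM.cfg_succ]
        have := key (M.cfg N k) fun e => by simp [PS, pstep, e] at h2
        exact Option.some.inj (h2.symm.trans this)
    obtain ⟨k, e⟩ := this _ h
    exact ⟨k, (congrArg Prod.fst e).symm⟩

theorem exists_mm : ∃ (P : Type) (_ : Finite P) (M : MM P) (S : ℕ → Prop) (w : ℕ → P),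
    ¬ ComputablePred S ∧ (∀ N, (∃ k, M.halt (M.cfg N k).1) ↔ S N) ∧
    ∀ N k, k ≤ 20 → M.cfg N k = (w k, fun _ => N) ∧ M.dec (w k) = false ∧ ¬ M.halt (w k) := by
  obtain ⟨P, _, M, S, h1, h2⟩ := exists_mm0
  refine ⟨P ⊕ Fin 21, inferInstance, M.warm, S, fun k => .inr ⟨min k 20, by omega⟩, h1,
    fun N => ?_, fun N k hk => ⟨?_, rfl, id⟩⟩
  · rw [← h2]
    constructor
    · rintro ⟨k, hk⟩
      by_cases h : k < 21
      · rw [M.warm_cfg N k h] at hk
        exact hk.elim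
      · obtain ⟨k, rfl⟩ : ∃ j, k = 21 + j := ⟨k - 21, by omega⟩
        rw [M.warm_cfg'] at hk
        exact ⟨k, hk⟩
    · rintro ⟨k, hk⟩
      exact ⟨21 + k, by rw [M.warm_cfg']; exact hk⟩
  · rw [M.warm_cfg N k (by omega)]
    simp [hk]

end Pool.Agent.MP_8e55f0_lc

end

-- part MP_8e55f0_lc.Time
section

namespace Pool.Agent.MP_8e55f0_lc

open Classical

namespace MM

variable {P : Type} (M : MM P)

/-- unit phase carrying the fourth marker -/
def j4 (c : P × Bool × Fin 12) (ρ : ℕ) : ℕ :=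
  if M.reg c.1 < ρ then (if M.dec c.1 then (if c.2.1 then 2 else 3) else if M.inc c.1 then 1 else 2)
  else 2

/-- phase of the first marker -/
def σ1 (ρ : ℕ) : ℕ := if ρ ≤ M.K then 4 * M.K + 3 else 4 * M.K + 7
/-- phase of the second marker -/
def σ2 (ρ : ℕ) : ℕ := if ρ ≤ M.K then 4 * ρ + 2 else 1
/-- block of the third marker -/
def β3 (ρ : ℕ) : ℕ := if ρ ≤ M.K then 1 else 2
/-- phase of the third marker -/
def σ3 (ρ : ℕ) : ℕ := if ρ ≤ M.K then 4 * M.K + 7 else 4 * M.K + 3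
/-- phase of the fourth marker -/
def σ4 (c : P × Bool × Fin 12) (ρ : ℕ) : ℕ :=
  if ρ ≤ M.K then 4 * ρ + M.j4 c ρ else 4 * M.K + 5

lemma j4_bd (c : P × Bool × Fin 12) (ρ : ℕ) : 1 ≤ M.j4 c ρ ∧ M.j4 c ρ ≤ 3 := by
  unfold j4
  split_ifs <;> omega

lemma σ_bd (c : P × Bool × Fin 12) (ρ : ℕ) :
    M.σ1 ρ % 4 ≠ 0 ∧ M.σ2 ρ % 4 ≠ 0 ∧ M.σ3 ρ % 4 ≠ 0 ∧ M.σ4 c ρ % 4 ≠ 0 ∧
    M.σ1 ρ ≤ 4 * M.K + 7 ∧ M.σ2 ρ ≤ 4 * M.K + 7 ∧ M.σ3 ρ ≤ 4 * M.K + 7 ∧
    M.σ4 c ρ ≤ 4 * M.K + 7 ∧
    ((M.β3 ρ = 1 ∧ M.σ2 ρ < M.σ3 ρ) ∨ (M.β3 ρ = 2 ∧ M.σ3 ρ < M.σ4 c ρ)) := by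
  have := M.j4_bd c ρ
  unfold σ1 σ2 σ3 σ4 β3
  split_ifs <;> omega

/-- markers -/
def mark : Option (Fin 12 × Fin (M.K + 2)) → P × Bool × Fin 12 → ℕ → ℤ → Prop
  | none, c, σ, i => σ = 4 * M.K + 7 ∧ i = if c.2.2.1 % 3 = 2 then 1 else 0
  | some (κ, ρ), c, σ, i => (c.2.2.1 = κ.1 ∧ σ = M.σ1 ρ ∧ i = 0) ∨
      (c.2.2.1 = (κ.1 + 1) % 12 ∧ σ = M.σ2 ρ ∧ i = 0) ∨
      (c.2.2.1 = (κ.1 + M.β3 ρ) % 12 ∧ σ = M.σ3 ρ ∧ i = 1) ∨
      (c.2.2.1 = (κ.1 + 2) % 12 ∧ σ = M.σ4 c ρ ∧ i = 1)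

/-- the phase automaton of a machine -/
def aut : Aut (P × Bool × Fin 12) (Option (Fin 12 × Fin (M.K + 2))) where
  m := 4 * M.K + 7
  unit := fun c σ => σ % 4 ≠ 0 ∨ (c.2.1 = true ∧ σ = 4 * (M.reg c.1 + 1))
  nx := fun c b => (M.nxt c.1 c.2.1, b && M.dec (M.nxt c.1 c.2.1), c.2.2 + 1)
  bad := fun c => M.halt c.1
  mu := M.mark
  unit0 := fun c => by omega
  nx_ne := fun c b h => by
    have := congrArg (fun x => x.2.2.1) h
    simp only [Fin.val_add] at this
    omega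
  mu_unit := by
    rintro (_ | ⟨κ, ρ⟩) c σ i h
    · simp only [mark] at h
      omega
    · have := M.σ_bd c ρ
      simp only [mark] at h
      omega

variable (N : ℕ)

/-- control of block `k` -/
def ctl (k : ℕ) : P × Bool × Fin 12 :=
  ((M.cfg N k).1, M.zf (M.cfg N k), ⟨k % 12, Nat.mod_lt _ (by norm_num)⟩)

/-- total length of the first register segments -/
def Wd (k ρ : ℕ) : ℕ := ∑ r ∈ Finset.range ρ, ((M.cfg N (k + 1)).2 r + 4)

/-- lengths of the rulers -/
def G : ℕ → ℕ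
  | 0 => M.K * (N + 5) + 40
  | 1 => M.K * (N + 5) + 41
  | 2 => M.K * (N + 5) + 42
  | k + 3 => G (k + 2) + G k + 3

/-- starting times of the blocks -/
def Bn : ℕ → ℕ
  | 0 => 0
  | k + 1 => Bn k + (M.G N (k + 1) + M.Wd N k M.K + 6 + M.G N k)

/-- offset of a phase in its block -/
def off (k σ : ℕ) : ℕ :=
  if σ = 0 then 0 else if σ ≤ 4 * M.K + 4 then
    M.G N (k + 1) + M.Wd N k ((σ - 1) / 4) + (σ - 1) % 4
  else M.G N (k + 1) + M.Wd N k M.K + 3 + M.G N k + (σ - (4 * M.K + 5))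

/-- starting time of a phase -/
def S (k σ : ℕ) : ℤ := (M.Bn N k + M.off N k σ : ℕ) - (M.Bn N 14 : ℕ)

lemma G3 (k : ℕ) : M.G N (k + 3) = M.G N (k + 2) + M.G N k + 3 := rfl

lemma G_lt (k : ℕ) : M.G N k < M.G N (k + 1) := by
  match k with
  | 0 => simp [G]
  | 1 => simp [G]
  | k + 2 => rw [G3]; omega

lemma G_ge (k : ℕ) : M.K * (N + 5) + 40 + k ≤ M.G N k := by
  induction k with
  | zero => simp [G]
  | succ k ih => have := M.G_lt N k; omega

lemma G_mono {k k' : ℕ} (h : k ≤ k') : M.G N k ≤ M.G N k' :=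
  monotone_nat_of_le_succ (fun k => (M.G_lt N k).le) h

lemma G_two (k : ℕ) : 2 * M.G N k ≤ M.G N (k + 3) := by
  have := M.G_mono N (show k ≤ k + 2 by omega)
  rw [G3]
  omega

lemma ctl_succ (k : ℕ) : M.ctl N (k + 1) = M.aut.nx (M.ctl N k) (M.zf (M.cfg N (k + 1))) := by
  have e : (M.cfg N (k + 1)).1 = M.nxt (M.cfg N k).1 (M.zf (M.cfg N k)) := by
    rw [cfg_succ]; rfl
  simp only [ctl, aut, ← e, Prod.mk.injEq, true_and]
  refine ⟨?_, Fin.ext ?_⟩
  · simp only [zf]
    cases M.dec (M.cfg N (k + 1)).1 <;> simp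
  · simp [Fin.val_add]

lemma Wd_succ (k ρ : ℕ) : M.Wd N k (ρ + 1) = M.Wd N k ρ + (M.cfg N (k + 1)).2 ρ + 4 := by
  simp [Wd, Finset.sum_range_succ, add_assoc]

lemma Wd_mono (k : ℕ) {ρ ρ' : ℕ} (h : ρ ≤ ρ') : M.Wd N k ρ ≤ M.Wd N k ρ' :=
  monotone_nat_of_le_succ (f := M.Wd N k) (fun ρ => by rw [Wd_succ]; omega) h

lemma Wd_step (k ρ : ℕ) : M.Wd N (k + 1) ρ + M.j4 (M.ctl N (k + 1)) ρ = M.Wd N k ρ + 2 := by
  induction ρ with
  | zero => simp [Wd, j4]
  | succ ρ ih =>
    rw [Wd_succ, Wd_succ, cfg_succ M N (k + 1)]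
    have e : M.ctl N (k + 1) = ((M.cfg N (k + 1)).1, M.zf (M.cfg N (k + 1)),
      ⟨(k + 1) % 12, Nat.mod_lt _ (by norm_num)⟩) := rfl
    rw [e] at ih ⊢
    generalize M.cfg N (k + 1) = c at ih ⊢
    simp only [j4, step, zf, Function.update_apply] at ih ⊢
    by_cases h : ρ = M.reg c.1
    · subst h
      simp only [lt_irrefl, if_false, Nat.lt_succ_self, if_true] at ih ⊢
      by_cases h1 : M.dec c.1 = true <;> by_cases h2 : M.inc c.1 = true <;>
        by_cases h3 : c.2 (M.reg c.1) = 0 <;> simp [h1, h2, h3] <;> omega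
    · simp only [h, if_false]
      by_cases h' : M.reg c.1 < ρ
      · simp only [h', if_true, show M.reg c.1 < ρ + 1 by omega] at ih ⊢
        omega
      · simp only [h', if_false, show ¬ M.reg c.1 < ρ + 1 by omega] at ih ⊢
        omega

lemma Wd_le (k : ℕ) : M.Wd N k M.K ≤ M.K * (N + 5) + k := by
  induction k with
  | zero =>
    have : ∀ r, (M.cfg N (0 + 1)).2 r + 4 ≤ N + 5 := by
      intro r
      rw [cfg_succ]
      simp only [step, cfg, Function.iterate_zero, id, Function.update_apply]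
      by_cases h1 : M.dec M.start = true <;> by_cases h2 : M.inc M.start = true <;>
        by_cases h3 : r = M.reg M.start <;> simp [h1, h2, h3] <;> omega
    simpa [Wd] using Finset.sum_le_card_nsmul (Finset.range M.K) _ _ fun r _ => this r
  | succ k ih =>
    have := M.Wd_step N k M.K
    have := M.j4_bd (M.ctl N (k + 1)) M.K
    omega

lemma Wd_G {j k : ℕ} (h : j ≤ k + 20) : M.Wd N j M.K + 20 ≤ M.G N k := by
  have := M.Wd_le N j
  have := M.G_ge N k
  omega

lemma Bn_succ (k : ℕ) :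
    M.Bn N (k + 1) = M.Bn N k + (M.G N (k + 1) + M.Wd N k M.K + 6 + M.G N k) := rfl

lemma Bn_le (k : ℕ) : M.Bn N k ≤ 3 * M.G N (k + 3) := by
  induction k with
  | zero => simp [Bn]
  | succ k ih =>
    have := M.G3 N (k + 1)
    have := M.Wd_G N (show k ≤ k + 1 + 20 by omega)
    have := M.G_lt N k
    rw [Bn_succ]
    change M.G N (k + 1 + 3) = M.G N (k + 3) + _ + _ at *
    omega

lemma Bn_mono {k k' : ℕ} (h : k ≤ k') : M.Bn N k + (k' - k) ≤ M.Bn N k' := by
  induction k', h using Nat.le_induction with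
  | base => simp
  | succ k' h ih => rw [Bn_succ]; omega

lemma S_zero (k : ℕ) : M.S N k 0 = (M.Bn N k : ℤ) - M.Bn N 14 := by simp [S, off]

lemma S_seg (k : ℕ) {ρ j : ℕ} (h : ρ ≤ M.K) (hj : j ≤ 3) :
    M.S N k (4 * ρ + 1 + j) = M.S N k 0 + M.G N (k + 1) + M.Wd N k ρ + j := by
  rw [S_zero, S, off, if_neg (by omega), if_pos (by omega),
    show (4 * ρ + 1 + j - 1) / 4 = ρ by omega, show (4 * ρ + 1 + j - 1) % 4 = j by omega]
  push_cast
  ring

lemma S_tail (k j : ℕ) :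
    M.S N k (4 * M.K + 5 + j) = M.S N k 0 + M.G N (k + 1) + M.Wd N k M.K + 3 + M.G N k + j := by
  rw [S_zero, S, off, if_neg (by omega), if_neg (by omega), Nat.add_sub_cancel_left]
  push_cast
  ring

lemma S_next (k : ℕ) :
    M.S N (k + 1) 0 = M.S N k 0 + M.G N (k + 1) + M.Wd N k M.K + 6 + M.G N k := by
  rw [S_zero, S_zero, Bn_succ]
  push_cast
  ring

lemma S_last (k : ℕ) : M.S N k (4 * M.K + 7 + 1) = M.S N (k + 1) 0 := by
  rw [S_next, show 4 * M.K + 7 + 1 = 4 * M.K + 5 + 3 by ring, S_tail]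
  push_cast
  ring

lemma S_step (k σ : ℕ) : M.S N k σ < M.S N k (σ + 1) ∧
    (σ % 4 ≠ 0 ∨ ((M.ctl N k).2.1 = true ∧ σ = 4 * (M.reg (M.ctl N k).1 + 1)) →
      M.S N k (σ + 1) = M.S N k σ + 1) := by
  have g1 := M.G_ge N k
  have g2 := M.G_ge N (k + 1)
  have hr := M.reg_lt (M.ctl N k).1
  by_cases h0 : σ = 0
  · subst h0
    have := M.S_seg N k (Nat.zero_le _) (Nat.zero_le 3)
    simp only [mul_zero, add_zero] at this
    omega
  by_cases h1 : 4 * M.K + 5 ≤ σ
  · obtain ⟨j, rfl⟩ := Nat.exists_eq_add_of_le h1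
    rw [add_assoc _ j, S_tail, S_tail]
    omega
  obtain ⟨ρ, j, hj, rfl⟩ : ∃ ρ j, j ≤ 3 ∧ σ = 4 * ρ + 1 + j :=
    ⟨(σ - 1) / 4, (σ - 1) % 4, by omega, by omega⟩
  rw [M.S_seg N k (by omega) hj]
  by_cases h2 : j < 3
  · rw [add_assoc _ j, M.S_seg N k (by omega) (by omega)]
    omega
  obtain rfl : j = 3 := by omega
  by_cases h3 : ρ = M.K
  · subst h3
    rw [show 4 * M.K + 1 + 3 + 1 = 4 * M.K + 5 + 0 by ring, S_tail]
    omega
  · rw [show 4 * ρ + 1 + 3 + 1 = 4 * (ρ + 1) + 1 + 0 by ring, M.S_seg N k (by omega) (by omega),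
      Wd_succ]
    refine ⟨by omega, fun h => ?_⟩
    obtain ⟨a, b⟩ := h.resolve_left (by omega)
    obtain rfl : ρ = M.reg (M.ctl N k).1 := by omega
    have : (M.cfg N (k + 1)).2 (M.reg (M.ctl N k).1) = 0 := by
      rw [cfg_succ]
      simp only [ctl, zf, Bool.and_eq_true, decide_eq_true_eq] at a
      simp [step, ctl, a]
    omega

lemma S_mono (k : ℕ) {σ σ' : ℕ} (h : σ ≤ σ') : M.S N k σ ≤ M.S N k σ' :=
  monotone_nat_of_le_succ (f := M.S N k) (fun σ => (M.S_step N k σ).1.le) h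

lemma S_mono0 {k k' : ℕ} (h : k ≤ k') : M.S N k 0 + (k' - k : ℕ) ≤ M.S N k' 0 := by
  have := M.Bn_mono N h
  rw [S_zero, S_zero]
  omega

lemma S_bd (k : ℕ) {σ : ℕ} (h : σ ≤ 4 * M.K + 7) :
    M.S N k 0 ≤ M.S N k σ ∧ M.S N k σ < M.S N k (σ + 1) ∧ M.S N k (σ + 1) ≤ M.S N (k + 1) 0 :=
  ⟨M.S_mono N k (Nat.zero_le _), (M.S_step N k σ).1, M.S_last N k ▸ M.S_mono N k (by omega)⟩

lemma S14 : M.S N 14 0 = 0 := by simp [S_zero]

lemma exists_pos (τ : ℤ) : ∃ p : ℕ × ℕ, 0 ≤ τ → 14 ≤ p.1 ∧ p.2 ≤ 4 * M.K + 7 ∧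
    M.S N p.1 p.2 ≤ τ ∧ τ < M.S N p.1 (p.2 + 1) := by
  by_cases h : 0 ≤ τ
  swap
  · exact ⟨(0, 0), fun h' => (h h').elim⟩
  obtain ⟨k, k1, k2⟩ := exists_idx (e := fun k => M.S N (14 + k) 0)
    (fun k => by have := M.S_mono0 N (show 14 + k ≤ 14 + (k + 1) by omega); omega)
    (t := τ) (by simpa [S14] using h)
  obtain ⟨σ, s1, s2⟩ := exists_idx (e := M.S N (14 + k)) (fun σ => (M.S_step N _ σ).1) k1
  refine ⟨(14 + k, σ), fun _ => ⟨by simp, ?_, s1, s2⟩⟩
  by_contra hc
  have := M.S_mono N (14 + k) (show 4 * M.K + 7 + 1 ≤ σ by simp only at hc; omega)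
  rw [S_last] at this
  change τ < M.S N (14 + k + 1) 0 at k2
  omega

/-- block and phase at a given time -/
noncomputable def pos (τ : ℤ) : ℕ × ℕ := (M.exists_pos N τ).choose

lemma pos_spec {τ : ℤ} (h : 0 ≤ τ) : 14 ≤ (M.pos N τ).1 ∧ (M.pos N τ).2 ≤ 4 * M.K + 7 ∧
    M.S N (M.pos N τ).1 (M.pos N τ).2 ≤ τ ∧ τ < M.S N (M.pos N τ).1 ((M.pos N τ).2 + 1) :=
  (M.exists_pos N τ).choose_spec h

lemma pos_blk {τ : ℤ} (h : 0 ≤ τ) {k : ℕ} (h1 : M.S N k 0 ≤ τ) (h2 : τ < M.S N (k + 1) 0) :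
    (M.pos N τ).1 = k := by
  obtain ⟨a, b, c, d⟩ := M.pos_spec N h
  have := M.S_bd N (M.pos N τ).1 b
  rcases lt_trichotomy (M.pos N τ).1 k with e | e | e
  · have := M.S_mono0 N (show (M.pos N τ).1 + 1 ≤ k from e)
    omega
  · exact e
  · have := M.S_mono0 N (show k + 1 ≤ (M.pos N τ).1 from e)
    omega

lemma pos_eq {τ : ℤ} (h : 0 ≤ τ) {k σ : ℕ} (hσ : σ ≤ 4 * M.K + 7) (h1 : M.S N k σ ≤ τ)
    (h2 : τ < M.S N k (σ + 1)) : M.pos N τ = (k, σ) := by
  have := M.S_bd N k hσ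
  have e := M.pos_blk N h (k := k) (by omega) (by omega)
  obtain ⟨a, b, c, d⟩ := M.pos_spec N h
  rw [e] at c d
  refine Prod.ext e ?_
  rcases lt_trichotomy (M.pos N τ).2 σ with e | e | e
  · have := M.S_mono N k (show (M.pos N τ).2 + 1 ≤ σ from e)
    omega
  · exact e
  · have := M.S_mono N k (show σ + 1 ≤ (M.pos N τ).2 from e)
    omega

/-- the canonical run -/
noncomputable def cph (τ : ℤ) : (P × Bool × Fin 12) × ℕ := (M.ctl N (M.pos N τ).1, (M.pos N τ).2)

lemma pos_step {τ : ℤ} (h : 0 ≤ τ) :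
    (M.pos N (τ + 1) = M.pos N τ ∧ ¬ M.aut.unit (M.ctl N (M.pos N τ).1) (M.pos N τ).2) ∨
    (M.pos N (τ + 1) = ((M.pos N τ).1, (M.pos N τ).2 + 1) ∧ (M.pos N τ).2 < 4 * M.K + 7) ∨
    (M.pos N (τ + 1) = ((M.pos N τ).1 + 1, 0) ∧ (M.pos N τ).2 = 4 * M.K + 7) := by
  obtain ⟨a, b, c, d⟩ := M.pos_spec N h
  generalize M.pos N τ = p at a b c d
  obtain ⟨k, σ⟩ := p
  simp only at a b c d ⊢
  by_cases h1 : τ + 1 < M.S N k (σ + 1)
  · refine Or.inl ⟨M.pos_eq N (by omega) b (by omega) h1, fun hu => ?_⟩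
    have := (M.S_step N k σ).2 hu
    omega
  by_cases h2 : σ < 4 * M.K + 7
  · have := (M.S_step N k (σ + 1)).1
    exact Or.inr (Or.inl ⟨M.pos_eq N (by omega) h2 (by omega) (by omega), h2⟩)
  · obtain rfl : σ = 4 * M.K + 7 := by omega
    have := (M.S_step N (k + 1) 0).1
    rw [S_last] at h1 d
    exact Or.inr (Or.inr ⟨M.pos_eq N (by omega) (by omega) (by omega) (by omega), rfl⟩)

lemma cph_step {τ : ℤ} (h : 0 ≤ τ) : M.aut.Step (M.cph N τ) (M.cph N (τ + 1)) := by
  rcases M.pos_step N h with ⟨a, b⟩ | ⟨a, b⟩ | ⟨a, b⟩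
  · exact Or.inl ⟨by simp [cph, a], by simp [cph, a], b⟩
  · exact Or.inr (Or.inl ⟨by simp [cph, a], by simp [cph, a], b⟩)
  · exact Or.inr (Or.inr ⟨b, by simp [cph, a], _, by simp only [cph, a]; exact M.ctl_succ N _⟩)

/-- the numerical facts about the markers of a track -/
lemma trk (k ρ : ℕ) :
    M.S N (k + 2) (M.σ4 (M.ctl N (k + 2)) ρ) - M.S N (k + M.β3 ρ) (M.σ3 ρ) =
      M.S N (k + 1) (M.σ2 ρ) - M.S N k (M.σ1 ρ) ∧
    M.G N (k + 1) ≤ M.S N (k + 1) (M.σ2 ρ) - M.S N k (M.σ1 ρ) ∧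
    M.G N (k + 1) ≤ M.S N (k + M.β3 ρ) (M.σ3 ρ) - M.S N (k + 1) (M.σ2 ρ) ∧
    M.S N (k + 1) (M.σ2 ρ) - M.S N k (M.σ1 ρ) ≤
      M.G N (k + 3) + M.G N (k + 1) + M.Wd N (k + 1) M.K + M.Wd N (k + 2) M.K + 8 ∧
    M.S N (k + M.β3 ρ) (M.σ3 ρ) - M.S N (k + 1) (M.σ2 ρ) ≤
      M.G N (k + 3) + M.G N (k + 1) + M.Wd N (k + 1) M.K + M.Wd N (k + 2) M.K + 8 ∧
    M.S N k 0 + M.G N (k + 1) ≤ M.S N k (M.σ1 ρ) := by
  have n1 := M.S_next N k
  have n2 : M.S N (k + 2) 0 = M.S N (k + 1) 0 + M.G N (k + 2) + _ + 6 + _ := M.S_next N (k + 1)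
  have g3 := M.G3 N k
  have g1 : M.G N (k + 1) < M.G N (k + 2) := M.G_lt N (k + 1)
  unfold σ1 σ2 σ3 σ4 β3
  split_ifs with h
  · have j := M.j4_bd (M.ctl N (k + 2)) ρ
    have w : M.Wd N (k + 2) ρ + M.j4 (M.ctl N (k + 2)) ρ = _ := M.Wd_step N (k + 1) ρ
    have wm := M.Wd_mono N (k + 1) h
    have a1 : M.S N k (4 * M.K + 3) = _ := M.S_seg N k le_rfl (show 2 ≤ 3 by omega)
    have a2 : M.S N (k + 1) (4 * ρ + 2) = _ + M.G N (k + 2) + _ + _ :=
      M.S_seg N (k + 1) h (show 1 ≤ 3 by omega)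
    have a3 : M.S N (k + 1) (4 * M.K + 7) = _ + M.G N (k + 2) + _ + _ + _ + _ :=
      M.S_tail N (k + 1) 2
    have a4 : M.S N (k + 2) _ = _ + M.G N (k + 3) + _ + _ :=
      M.S_seg N (k + 2) h (show M.j4 (M.ctl N (k + 2)) ρ - 1 ≤ 3 by omega)
    rw [show 4 * ρ + 1 + (M.j4 (M.ctl N (k + 2)) ρ - 1) = 4 * ρ + M.j4 (M.ctl N (k + 2)) ρ by omega]
      at a4
    omega
  · have a1 : M.S N k (4 * M.K + 7) = _ := M.S_tail N k 2
    have a2 : M.S N (k + 1) 1 = _ + M.G N (k + 2) + _ + _ :=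
      M.S_seg N (k + 1) (Nat.zero_le _) (Nat.zero_le 3)
    have a3 : M.S N (k + 2) (4 * M.K + 3) = _ + M.G N (k + 3) + _ + _ :=
      M.S_seg N (k + 2) le_rfl (show 2 ≤ 3 by omega)
    have a4 : M.S N (k + 2) (4 * M.K + 5) = _ + M.G N (k + 3) + _ + _ + _ + _ :=
      M.S_tail N (k + 2) 0
    have w0 : M.Wd N (k + 1) 0 = 0 := by simp [Wd]
    omega

/-- the opening run is long -/
lemma opening (k : ℕ) : M.S N k 0 + (M.G N (k + 3 + 3) + M.G N (k + 3 + 1) +
    M.Wd N (k + 3 + 1) M.K + M.Wd N (k + 3 + 2) M.K + 8) + 2 ≤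
      M.S N (k + 3) 0 + M.G N (k + 3 + 1) := by
  have n1 := M.S_next N k
  have n2 : M.S N (k + 2) 0 = M.S N (k + 1) 0 + M.G N (k + 2) + _ + 6 + _ := M.S_next N (k + 1)
  have n3 : M.S N (k + 3) 0 = M.S N (k + 2) 0 + M.G N (k + 3) + _ + 6 + _ := M.S_next N (k + 2)
  have g3 := M.G3 N k
  have g4 : M.G N (k + 3 + 1) = M.G N (k + 3) + _ + 3 := M.G3 N (k + 1)
  have g5 : M.G N (k + 5) = M.G N (k + 3 + 1) + _ + 3 := M.G3 N (k + 2)
  have g6 : M.G N (k + 3 + 3) = M.G N (k + 5) + _ + 3 := M.G3 N (k + 3)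
  have w1 : M.Wd N (k + 3 + 1) M.K + _ = M.Wd N (k + 3) M.K + 2 := M.Wd_step N (k + 3) M.K
  have w2 : M.Wd N (k + 3 + 2) M.K + _ = M.Wd N (k + 3 + 1) M.K + 2 := M.Wd_step N (k + 4) M.K
  have w3 : M.Wd N (k + 3) M.K + _ = M.Wd N (k + 2) M.K + 2 := M.Wd_step N (k + 2) M.K
  have w4 : M.Wd N (k + 2) M.K + _ = M.Wd N (k + 1) M.K + 2 := M.Wd_step N (k + 1) M.K
  have := M.G_ge N (k + 1)
  omega

end MM

end Pool.Agent.MP_8e55f0_lc

end

-- part MP_8e55f0_lc.TimeC
section

namespace Pool.Agent.MP_8e55f0_lc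

open Classical

lemma RichFrom.dec {p : ℤ → Prop} {i1 i2 : ∀ t, Decidable (p t)} {lo : ℤ}
    (h : RichFrom (fun t => @decide (p t) (i1 t)) lo) :
    RichFrom (fun t => @decide (p t) (i2 t)) lo :=
  h.congr fun _ _ => decide_eq_decide.mpr Iff.rfl

namespace MM

variable {P : Type} (M : MM P) (N : ℕ)

lemma S_gap {k k' : ℕ} (h : k + 12 ≤ k') : 2 * M.S N (k + 1) 0 + 2 ≤ M.S N k' 0 := by
  have a1 := M.S_mono0 N h
  have a2 : M.S N (k + 12) 0 = _ + M.G N (k + 12) + _ + 6 + _ := M.S_next N (k + 11)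
  have a3 := M.S_mono0 N (show k + 1 ≤ k + 11 by omega)
  have a4 := M.S_zero N (k + 1)
  have a5 : _ ≤ 3 * M.G N (k + 4) := M.Bn_le N (k + 1)
  have a6 : _ ≤ M.G N (k + 12) := M.G_two N (k + 9)
  have a7 : _ ≤ M.G N (k + 9) := M.G_two N (k + 6)
  have a8 := M.G_mono N (show k + 4 ≤ k + 6 by omega)
  omega

lemma sub_rich (Q : ℕ → Prop) (s e : ℕ → ℤ) (g : ℤ → Prop) {κ : ℕ}
    (hQ : ∀ k, Q k → k % 12 = κ)
    (h1 : ∀ k, M.S N k 0 ≤ s k ∧ s k < e k ∧ e k ≤ M.S N (k + 1) 0)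
    (h2 : ∀ k k', k + 12 ≤ k' → e k - s k ≤ e k' - s k')
    (hg : ∀ τ, 0 ≤ τ → (g τ ↔ ∃ k, (14 ≤ k ∧ Q k) ∧ s k ≤ τ ∧ τ < e k)) :
    RichFrom (fun τ => decide (g τ)) 0 ∧ RichFrom (fun t => decide (g (t / 3))) 0 := by
  have hS : ∀ k k', 14 ≤ k ∧ Q k → 14 ≤ k' ∧ Q k' → k < k' → k + 12 ≤ k' := by
    intro k k' a b c
    have := hQ k a.2
    have := hQ k' b.2
    omega
  have h0 : ∀ k : ℕ, 14 ≤ k → (k : ℤ) - 14 ≤ M.S N k 0 := by
    intro k hk
    have := M.S_mono0 N hk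
    rw [S14] at this
    omega
  constructor
  · refine richFrom_subset (fun k => 14 ≤ k ∧ Q k) s e 14 hS (fun k h => h.1) (fun k hk => ?_)
      (fun k k' hk h => ?_) (fun T => ⟨T.toNat + 15, fun k hk => ?_⟩) fun t ht => ?_
    · have := h1 k
      have := h0 k hk
      omega
    · have := h1 k
      have := h1 k'
      have := h2 k k' h
      have := M.S_gap N h
      omega
    · have := h1 k
      have := h0 k (by omega)
      omega
    · rw [decide_eq_true_iff, hg t ht]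
  · refine richFrom_subset (fun k => 14 ≤ k ∧ Q k) (fun k => 3 * s k) (fun k => 3 * e k) 14 hS
      (fun k h => h.1) (fun k hk => ?_)
      (fun k k' hk h => ?_) (fun T => ⟨T.toNat + 15, fun k hk => ?_⟩) fun t ht => ?_
    · have := h1 k
      have := h0 k hk
      omega
    · have := h1 k
      have := h1 k'
      have := h2 k k' h
      have := M.S_gap N h
      omega
    · have := h1 k
      have := h0 k (by omega)
      omega
    · rw [decide_eq_true_iff, hg _ (by omega)]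
      refine exists_congr fun k => and_congr_right fun _ => ?_
      omega

lemma off_mono {k k' σ : ℕ} (h : k + 12 ≤ k') :
    M.S N k σ - M.S N k 0 ≤ M.S N k' σ - M.S N k' 0 := by
  have a1 := M.G_mono N (show k + 1 + 3 ≤ k' + 1 by omega)
  have a2 := M.G_two N (k + 1)
  have a3 := M.Wd_G N (show k ≤ k + 1 + 20 by omega)
  have a4 := M.G_mono N (show k ≤ k' by omega)
  by_cases h0 : σ = 0
  · simp [h0]
  by_cases h1 : 4 * M.K + 5 ≤ σ
  · obtain ⟨j, rfl⟩ := Nat.exists_eq_add_of_le h1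
    rw [S_tail, S_tail]
    omega
  obtain ⟨ρ, j, hj, rfl⟩ : ∃ ρ j, j ≤ 3 ∧ σ = 4 * ρ + 1 + j :=
    ⟨(σ - 1) / 4, (σ - 1) % 4, by omega, by omega⟩
  have := M.Wd_mono N k (show ρ ≤ M.K by omega)
  rw [M.S_seg N k (by omega) hj, M.S_seg N k' (by omega) hj]
  omega

lemma low_rich (Q : P × Bool × Fin 12 → Prop) {κ : ℕ} (hQ : ∀ c, Q c → c.2.2.1 = κ) {σ : ℕ}
    (hσ : σ ≤ 4 * M.K + 7) :
    RichFrom (fun τ => decide (Q (M.cph N τ).1 ∧ (M.cph N τ).2 ≤ σ)) 0 ∧
    RichFrom (fun t => decide (Q (M.cph N (t / 3)).1 ∧ (M.cph N (t / 3)).2 ≤ σ)) 0 := by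
  refine (M.sub_rich N (fun k => Q (M.ctl N k)) (fun k => M.S N k 0) (fun k => M.S N k (σ + 1))
    (fun τ => Q (M.cph N τ).1 ∧ (M.cph N τ).2 ≤ σ) (fun k h => hQ _ h) (fun k => ?_)
    (fun k k' h => M.off_mono N h) fun τ hτ => ?_).imp RichFrom.dec RichFrom.dec
  · have := M.S_bd N k hσ
    omega
  obtain ⟨a, b, c, d⟩ := M.pos_spec N hτ
  simp only [cph]
  constructor
  · rintro ⟨h1, h2⟩
    have := M.S_bd N (M.pos N τ).1 b
    have := M.S_mono N (M.pos N τ).1 (show (M.pos N τ).2 + 1 ≤ σ + 1 by omega)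
    exact ⟨_, ⟨a, h1⟩, by omega, by omega⟩
  · rintro ⟨k, ⟨-, h1⟩, h2, h3⟩
    have := M.S_bd N k hσ
    have e := M.pos_blk N hτ h2 (by omega)
    rw [e] at c ⊢
    refine ⟨h1, ?_⟩
    by_contra hc
    have := M.S_mono N k (show σ + 1 ≤ (M.pos N τ).2 by omega)
    omega

lemma unit_rich (c : P × Bool × Fin 12) {σ : ℕ} (hσ : σ ≤ 4 * M.K + 7) (hu : M.aut.unit c σ) :
    RichFrom (fun t => decide (M.cph N (t / 3) = (c, σ))) 0 := by
  refine (M.sub_rich N (fun k => M.ctl N k = c) (fun k => M.S N k σ) (fun k => M.S N k σ + 1)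
    (fun τ => M.cph N τ = (c, σ)) (κ := c.2.2.1) (fun k h => by rw [← h]; rfl) (fun k => ?_)
    (fun k k' h => by omega) fun τ hτ => ?_).2.dec
  · have := M.S_bd N k hσ
    omega
  obtain ⟨a, b, c, d⟩ := M.pos_spec N hτ
  simp only [cph, Prod.mk.injEq]
  constructor
  · rintro ⟨rfl, rfl⟩
    have := (M.S_step N _ _).2 hu
    exact ⟨_, ⟨a, rfl⟩, c, by omega⟩
  · rintro ⟨k, ⟨-, h1⟩, h2, h3⟩
    have := M.S_bd N k hσ
    rw [M.pos_eq N hτ hσ h2 (by omega)]
    exact ⟨h1, rfl⟩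

lemma mark_bd {x : Option (Fin 12 × Fin (M.K + 2))} {c : P × Bool × Fin 12} {σ : ℕ} {i : ℤ}
    (h : M.mark x c σ i) : σ ≤ 4 * M.K + 7 ∧ σ % 4 ≠ 0 ∧ (i = 0 ∨ i = 1) := by
  rcases x with _ | ⟨κ, ρ⟩
  · simp only [mark] at h
    split_ifs at h <;> omega
  · have := M.σ_bd c ρ
    simp only [mark] at h
    omega

lemma mark_iff (x : Option (Fin 12 × Fin (M.K + 2))) {t : ℤ} (ht : 0 ≤ t) :
    M.mark x (M.cph N (t / 3)).1 (M.cph N (t / 3)).2 (t % 3) ↔
      ∃ k σ i, 14 ≤ k ∧ M.mark x (M.ctl N k) σ i ∧ t = 3 * M.S N k σ + i := by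
  obtain ⟨a, b, c, d⟩ := M.pos_spec N (show 0 ≤ t / 3 by omega)
  simp only [cph]
  constructor
  · intro h
    have := (M.S_step N (M.pos N (t / 3)).1 _).2 (Or.inl (M.mark_bd h).2.1)
    exact ⟨_, _, _, a, h, by omega⟩
  · rintro ⟨k, σ, i, -, h1, h2⟩
    have := M.mark_bd h1
    have := M.S_bd N k this.1
    rw [M.pos_eq N (k := k) (σ := σ) (by omega) (by omega) (by omega) (by omega),
      show t % 3 = i by omega]
    exact h1

lemma T_lt (k : ℕ) :
    M.S N (k + 1) 0 - M.S N k 0 < M.S N (k + 1 + 1) 0 - M.S N (k + 1) 0 := by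
  have := M.S_next N k
  have := M.S_next N (k + 1)
  have := M.G_lt N k
  have := M.G_lt N (k + 1)
  have := M.Wd_step N k M.K
  have := M.j4_bd (M.ctl N (k + 1)) M.K
  omega

lemma S_end (k : ℕ) : M.S N k (4 * M.K + 7) + 1 = M.S N (k + 1) 0 := by
  rw [← S_last, (M.S_step N k (4 * M.K + 7)).2 (Or.inl (by omega))]

lemma lam_rich : RichFrom
    (fun t => decide (M.mark none (M.cph N (t / 3)).1 (M.cph N (t / 3)).2 (t % 3))) 0 := by
  let m : ℕ → ℤ := fun k => 3 * (M.S N (k + 1) 0 - 1) + if k % 3 = 2 then 1 else 0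
  have h := richFrom_intervals (f := fun t => decide (∃ i, m (13 + i + 1) = t))
    (a := fun i => m (13 + i) + 1) (s := fun i => m (13 + i + 1)) (fun i => ?_)
    (fun i => by simp [add_assoc]) (fun i => ?_) (fun i => by simp [add_assoc]) fun t _ => ?_
  · refine (h.mono (by simp [m, S14])).congr fun t ht => ?_
    rw [decide_eq_decide, M.mark_iff N _ ht]
    constructor
    · rintro ⟨i, rfl⟩
      refine ⟨13 + i + 1, _, _, by omega, ⟨rfl, rfl⟩, ?_⟩
      have := M.S_end N (13 + i + 1)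
      simp only [m, ctl]
      split_ifs <;> omega
    · rintro ⟨k, σ, i, h1, ⟨rfl, rfl⟩, rfl⟩
      obtain ⟨i, rfl⟩ : ∃ i, k = 13 + i + 1 := ⟨k - 14, by omega⟩
      refine ⟨i, ?_⟩
      have := M.S_end N (13 + i + 1)
      simp only [m, ctl]
      split_ifs <;> omega
  · have := M.S_mono0 N (show 13 + i + 1 ≤ 13 + i + 1 + 1 by omega)
    simp only [m]
    split_ifs <;> omega
  · have := M.T_lt N (13 + i + 1)
    simp only [m, ← add_assoc]
    split_ifs <;> omega
  · rw [decide_eq_true_iff]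
    refine exists_congr fun i => ?_
    simp only [← add_assoc]
    omega

lemma trk_rich (κ : Fin 12) (ρ : Fin (M.K + 2)) : RichFrom
    (fun t => decide (M.mark (some (κ, ρ)) (M.cph N (t / 3)).1 (M.cph N (t / 3)).2 (t % 3))) 0 := by
  let a : ℕ → ℤ := fun i =>
    3 * M.S N (κ + 12 * i + 2) (M.σ4 (M.ctl N (κ + 12 * i + 2)) ρ) + 1
  let b : ℕ → ℤ := fun i => 3 * M.S N (κ + 12 * (i + 1)) (M.σ1 ρ)
  let c : ℕ → ℤ := fun i => 3 * M.S N (κ + 12 * (i + 1) + 1) (M.σ2 ρ)
  let d : ℕ → ℤ := fun i => 3 * M.S N (κ + 12 * (i + 1) + M.β3 ρ) (M.σ3 ρ) + 1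
  have hβ : M.β3 ρ = 1 ∨ M.β3 ρ = 2 := by
    have := M.σ_bd (M.ctl N 0) ρ
    omega
  have key : ∀ i, c i - b i = a (i + 1) - d i ∧ 3 * M.G N (κ + 12 * (i + 1) + 1) ≤ c i - b i ∧
      3 * M.G N (κ + 12 * (i + 1) + 1) ≤ d i - c i ∧ c i - b i < b i - a i ∧
      d i - c i < b i - a i ∧ c i - b i ≠ d i - c i ∧
      b i - a i < 3 * M.G N (κ + 12 * (i + 1 + 1) + 1) := by
    intro i
    have t1 := M.trk N (κ + 12 * (i + 1)) ρ
    have t2 := M.opening N (κ + 12 * i + 9)
    rw [show κ + 12 * i + 9 + 3 = κ + 12 * (i + 1) by ring] at t2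
    have s := M.σ_bd (M.ctl N (κ + 12 * i + 2)) ρ
    have t3 := M.S_bd N (κ + 12 * i + 2) s.2.2.2.2.2.2.2.1
    have t4 := M.S_mono0 N (show κ + 12 * i + 2 + 1 ≤ κ + 12 * i + 9 by omega)
    have t5 := M.S_bd N (κ + 12 * (i + 1)) s.2.2.2.2.1
    have t6 := M.S_zero N (κ + 12 * (i + 1) + 1)
    have t7 := M.S_zero N (κ + 12 * i + 2)
    have t8 := M.Bn_le N (κ + 12 * (i + 1) + 1)
    have t9 := M.G_two N (κ + 12 * (i + 1) + 1 + 3)
    have t10 := M.G_two N (κ + 12 * (i + 1) + 1 + 3 + 3)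
    have t11 := M.G_mono N (show κ + 12 * (i + 1) + 1 + 3 + 3 + 3 ≤ κ + 12 * (i + 1 + 1) + 1 by omega)
    simp only [a, b, c, d]
    omega
  have g := fun k => M.G_ge N k
  have h := richFrom_track (f := fun t => decide (∃ i, t = b i ∨ t = c i ∨ t = d i ∨ t = a (i + 1)))
    (a := a) (b := b) (c := c) (d := d) (fun i => (key i).1)
    (fun i => by have := key i; have := g (κ + 12 * (i + 1) + 1); omega)
    (fun i => by have := key i; have := g (κ + 12 * (i + 1) + 1); omega)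
    (fun i => (key i).2.2.2.1) (fun i => (key i).2.2.2.2.1) (fun i => (key i).2.2.2.2.2.1)
    (fun i => by have := key i; have := key (i + 1); omega)
    (fun i => by have := key i; have := key (i + 1); omega) fun t _ => decide_eq_true_iff
  have hκ := κ.2
  refine (h.mono ?_).congr fun t ht => ?_
  · have s := M.σ_bd (M.ctl N (κ + 12 * 0 + 2)) ρ
    have t3 := M.S_bd N (κ + 12 * 0 + 2) s.2.2.2.2.2.2.2.1
    have t4 := M.S_mono0 N (show κ.1 + 12 * 0 + 2 + 1 ≤ 14 by omega)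
    rw [S14] at t4
    simp only [a]
    omega
  rw [decide_eq_decide, M.mark_iff N _ ht]
  constructor
  · rintro ⟨i, rfl | rfl | rfl | rfl⟩
    · have : 14 ≤ κ + 12 * (i + 1) := by
        by_contra hc
        have s := M.σ_bd (M.ctl N 0) ρ
        have t3 := M.S_bd N (κ + 12 * (i + 1)) s.2.2.2.2.1
        have t4 := M.S_mono0 N (show κ + 12 * (i + 1) + 1 ≤ 14 by omega)
        rw [S14] at t4
        simp only [b] at ht
        omega
      exact ⟨_, _, 0, this, Or.inl ⟨by simp only [ctl]; omega, rfl, rfl⟩, by simp [b]⟩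
    · have : 14 ≤ κ + 12 * (i + 1) + 1 := by
        by_contra hc
        have s := M.σ_bd (M.ctl N 0) ρ
        have t3 := M.S_bd N (κ + 12 * (i + 1) + 1) s.2.2.2.2.2.1
        have t4 := M.S_mono0 N (show κ + 12 * (i + 1) + 1 + 1 ≤ 14 by omega)
        rw [S14] at t4
        simp only [c] at ht
        omega
      exact ⟨_, _, 0, this, Or.inr (Or.inl ⟨by simp only [ctl]; omega, rfl, rfl⟩), by simp [c]⟩
    · have : 14 ≤ κ + 12 * (i + 1) + M.β3 ρ := by
        by_contra hc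
        have s := M.σ_bd (M.ctl N 0) ρ
        have t3 := M.S_bd N (κ + 12 * (i + 1) + M.β3 ρ) s.2.2.2.2.2.2.1
        have t4 := M.S_mono0 N (show κ + 12 * (i + 1) + M.β3 ρ + 1 ≤ 14 by omega)
        rw [S14] at t4
        simp only [d] at ht
        omega
      exact ⟨_, _, 1, this, Or.inr (Or.inr (Or.inl ⟨by simp only [ctl]; omega, rfl, rfl⟩)), rfl⟩
    · exact ⟨_, _, 1, by omega,
        Or.inr (Or.inr (Or.inr ⟨by simp only [ctl]; omega, rfl, rfl⟩)), rfl⟩
  · rintro ⟨k, σ, i, h1, ⟨h2, rfl, rfl⟩ | ⟨h2, rfl, rfl⟩ | ⟨h2, rfl, rfl⟩ | ⟨h2, rfl, rfl⟩, rfl⟩ <;>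
      simp only [ctl] at h2
    · obtain ⟨i, rfl⟩ : ∃ i, k = κ + 12 * (i + 1) := ⟨k / 12 - 1, by omega⟩
      exact ⟨i, Or.inl (by simp [b])⟩
    · obtain ⟨i, rfl⟩ : ∃ i, k = κ + 12 * (i + 1) + 1 := ⟨(k - 1) / 12 - 1, by omega⟩
      exact ⟨i, Or.inr (Or.inl (by simp [c]))⟩
    · obtain ⟨i, rfl⟩ : ∃ i, k = κ + 12 * (i + 1) + M.β3 ρ := ⟨(k - M.β3 ρ) / 12 - 1, by omega⟩
      exact ⟨i, Or.inr (Or.inr (Or.inl rfl))⟩
    · obtain ⟨i, rfl⟩ : ∃ i, k = κ + 12 * (i + 1) + 2 := ⟨(k - 2) / 12 - 1, by omega⟩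
      exact ⟨i, Or.inr (Or.inr (Or.inr rfl))⟩

theorem complete (h : ∀ k, ¬ M.halt (M.cfg N k).1) :
    GoodC (Subtype.val : {g // M.aut.IsGate g} → _) (M.aut.val (M.cph N)) := by
  refine Aut.complete ⟨fun τ hτ => (M.pos_spec N hτ).2.1, fun τ hτ => M.cph_step N hτ,
    fun τ _ => h _, ?_⟩
    (fun c σ hσ => (M.low_rich N (· = c) (fun _ e => by rw [e]) hσ).1)
    (fun c σ hσ => (M.low_rich N (· = c) (fun _ e => by rw [e]) hσ).2)
    (fun c σ hσ hu => (M.unit_rich N c hσ hu).dec) fun c => ?_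
  · rintro (_ | ⟨κ, ρ⟩)
    exacts [M.lam_rich N, M.trk_rich N κ ρ]
  · refine (M.low_rich N (fun x => x = M.aut.nx c false ∨ x = M.aut.nx c true)
      (κ := (c.2.2 + 1).1) ?_ (Nat.zero_le _)).2.congr fun t _ => ?_
    · rintro _ (rfl | rfl) <;> rfl
    · simp [and_comm]

end MM

end Pool.Agent.MP_8e55f0_lc

end
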