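import Pool.Agent.MP_8e55f0_lc.Mg.TimeC

namespace Pool.Agent.MP_8e55f0_lc

open Classical

namespace MM

variable {P : Type} {M : MM P}

/-- a run together with its block counter -/
structure Lift (M : MM P) (ph : ℤ → (P × Bool × Fin 12) × ℕ) (bk : ℤ → ℕ) : Prop where
  run : M.aut.Run ph
  b0 : bk 0 = 14
  k0 : (ph 0).1.2.2.1 = 2
  st : ∀ τ, 0 ≤ τ →
    (bk (τ + 1) = bk τ ∧ ph (τ + 1) = ph τ ∧ ¬ M.aut.unit (ph τ).1 (ph τ).2) ∨
    (bk (τ + 1) = bk τ ∧ ph (τ + 1) = ((ph τ).1, (ph τ).2 + 1) ∧ (ph τ).2 < 4 * M.K + 7) ∨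
    (bk (τ + 1) = bk τ + 1 ∧ (ph τ).2 = 4 * M.K + 7 ∧ ∃ b, ph (τ + 1) = (M.aut.nx (ph τ).1 b, 0))

lemma exists_lift {ph : ℤ → (P × Bool × Fin 12) × ℕ} (h : M.aut.Run ph)
    (k0 : (ph 0).1.2.2.1 = 2) : ∃ bk, M.Lift ph bk := by
  let bn : ℕ → ℕ := fun n => Nat.rec 14
    (fun (n : ℕ) b => if (ph (n + 1)).1 = (ph n).1 then b else b + 1) n
  refine ⟨fun τ => bn τ.toNat, h, rfl, k0, fun τ hτ => ?_⟩
  obtain ⟨n, rfl⟩ := Int.eq_ofNat_of_zero_le hτ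
  have e : bn (n + 1) = if (ph (n + 1)).1 = (ph n).1 then bn n else bn n + 1 := rfl
  simp only [show ((n : ℤ) + 1).toNat = n + 1 by omega, Int.toNat_natCast, e]
  rcases h.step n hτ with ⟨a, b, c⟩ | ⟨a, b, c⟩ | ⟨a, b, c, d⟩
  · exact Or.inl ⟨if_pos a, Prod.ext a b, c⟩
  · exact Or.inr (Or.inl ⟨if_pos a, Prod.ext a b, c⟩)
  · exact Or.inr (Or.inr ⟨if_neg (d ▸ M.aut.nx_ne _ _), a, c, Prod.ext d b⟩)

namespace Lift

variable {ph : ℤ → (P × Bool × Fin 12) × ℕ} {bk : ℤ → ℕ} (h : M.Lift ph bk)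
include h

lemma kap {τ : ℤ} (hτ : 0 ≤ τ) : (ph τ).1.2.2.1 = bk τ % 12 := by
  induction τ, hτ using Int.leInduction with
  | base => rw [h.k0, h.b0]
  | succ τ hτ ih =>
    rcases h.st τ hτ with ⟨a, b, -⟩ | ⟨a, b, -⟩ | ⟨a, -, c, b⟩ <;> rw [a, b]
    · exact ih
    · exact ih
    · simp only [aut, Fin.val_add, ih]
      simp

lemma mono {τ τ' : ℤ} (hτ : 0 ≤ τ) (hle : τ ≤ τ') : bk τ < bk τ' ∨
    (bk τ = bk τ' ∧ (ph τ).1 = (ph τ').1 ∧ (ph τ).2 ≤ (ph τ').2 ∧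
      (ph τ').2 ≤ (ph τ).2 + (τ' - τ)) := by
  induction τ', hle using Int.leInduction with
  | base => simp
  | succ τ' hle ih =>
    rcases h.st τ' (by omega) with ⟨a, b, -⟩ | ⟨a, b, -⟩ | ⟨a, -, c, b⟩ <;> rw [a, b]
    · exact ih.imp_right fun k => ⟨k.1, k.2.1, k.2.2.1, by omega⟩
    · exact ih.imp_right fun k => ⟨k.1, k.2.1, by simp only; omega, by simp only; omega⟩
    · omega

lemma ctl_eq {τ τ' : ℤ} (hτ : 0 ≤ τ) (hτ' : 0 ≤ τ') (e : bk τ = bk τ') : (ph τ).1 = (ph τ').1 := by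
  rcases le_total τ τ' with k | k
  · exact ((h.mono hτ k).resolve_left (by omega)).2.1
  · exact ((h.mono hτ' k).resolve_left (by omega)).2.1.symm

lemma uniq {τ τ' : ℤ} (hτ : 0 ≤ τ) (hτ' : 0 ≤ τ') (e1 : bk τ = bk τ') (e2 : (ph τ).2 = (ph τ').2)
    (hu : (ph τ).2 % 4 ≠ 0) : τ = τ' := by
  have key : ∀ τ τ', 0 ≤ τ → τ < τ' → bk τ = bk τ' → (ph τ).2 = (ph τ').2 →
      (ph τ).2 % 4 ≠ 0 → False := by
    intro τ τ' a b c d e
    have k := h.mono (show 0 ≤ τ + 1 by omega) (show τ + 1 ≤ τ' by omega)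
    rcases h.st τ a with ⟨-, -, u⟩ | ⟨u, v, -⟩ | ⟨u, -⟩
    · exact u (Or.inl e)
    · rw [v] at k
      simp only at k
      omega
    · omega
  rcases lt_trichotomy τ τ' with k | k | k
  · exact (key _ _ hτ k e1 e2 hu).elim
  · exact k
  · exact (key _ _ hτ' k e1.symm e2.symm (e2 ▸ hu)).elim

lemma ivt {τ τ' : ℤ} (hτ : 0 ≤ τ) (hle : τ ≤ τ') {k σ : ℕ} (hσ : σ ≤ 4 * M.K + 7)
    (h1 : bk τ < k ∨ (bk τ = k ∧ (ph τ).2 ≤ σ)) (h2 : k < bk τ' ∨ (bk τ' = k ∧ σ ≤ (ph τ').2)) :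
    ∃ s, τ ≤ s ∧ s ≤ τ' ∧ bk s = k ∧ (ph s).2 = σ := by
  induction τ', hle using Int.leInduction with
  | base => exact ⟨τ, le_rfl, le_rfl, by omega⟩
  | succ τ' hle ih =>
    by_cases k1 : k < bk τ' ∨ (bk τ' = k ∧ σ ≤ (ph τ').2)
    · obtain ⟨s, a, b, c⟩ := ih k1
      exact ⟨s, a, by omega, c⟩
    refine ⟨τ' + 1, by omega, le_rfl, ?_⟩
    rcases h.st τ' (by omega) with ⟨a, b, -⟩ | ⟨a, b, -⟩ | ⟨a, d, c, b⟩ <;> rw [a, b] at h2 ⊢ <;>
      (try simp only at h2 ⊢) <;> omega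

lemma fwd {τ : ℤ} (hτ : 0 ≤ τ) (hu : M.aut.unit (ph τ).1 (ph τ).2) (hm : (ph τ).2 < 4 * M.K + 7) :
    bk (τ + 1) = bk τ ∧ (ph (τ + 1)).2 = (ph τ).2 + 1 := by
  rcases h.st τ hτ with ⟨-, -, u⟩ | ⟨u, v, -⟩ | ⟨-, u, -⟩
  · exact (u hu).elim
  · exact ⟨u, by rw [v]⟩
  · omega

lemma back {τ : ℤ} (hτ : 0 ≤ τ) (hu : (ph (τ + 1)).2 % 4 ≠ 0) :
    bk (τ + 1) = bk τ ∧ (ph (τ + 1)).2 = (ph τ).2 + 1 := by
  rcases h.st τ hτ with ⟨-, v, u⟩ | ⟨u, v, -⟩ | ⟨-, -, b, u⟩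
  · exact (u (Or.inl (v ▸ hu))).elim
  · exact ⟨u, by rw [v]⟩
  · simp [u] at hu

lemma ge14 {τ : ℤ} (hτ : 0 ≤ τ) : 14 ≤ bk τ := by
  have := h.mono le_rfl hτ
  have := h.b0
  omega

end Lift

/-- agreement with the canonical run -/
def Agree (M : MM P) (N : ℕ) (ph : ℤ → (P × Bool × Fin 12) × ℕ) (bk : ℤ → ℕ) (T : ℤ) : Prop :=
  ∀ τ, 0 ≤ τ → τ < T → bk τ = (M.pos N τ).1 ∧ ph τ = M.cph N τ

lemma S_nonneg (M : MM P) (N : ℕ) {k : ℕ} (hk : 14 ≤ k) (σ : ℕ) : 0 ≤ M.S N k σ := by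
  have := M.S_mono0 N hk
  have := M.S_mono N k (Nat.zero_le σ)
  have := M.S14 N
  omega

lemma Agree.at {N : ℕ} {ph : ℤ → (P × Bool × Fin 12) × ℕ} {bk : ℤ → ℕ} {T : ℤ}
    (h : M.Agree N ph bk T) {k σ : ℕ} (hk : 14 ≤ k) (hσ : σ ≤ 4 * M.K + 7) (hT : M.S N k σ < T) :
    bk (M.S N k σ) = k ∧ ph (M.S N k σ) = (M.ctl N k, σ) := by
  have h0 := M.S_nonneg N hk σ
  obtain ⟨a, b⟩ := h _ h0 hT
  rw [a, b, cph, M.pos_eq N h0 hσ le_rfl (M.S_step N k σ).1]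
  exact ⟨rfl, rfl⟩

namespace Lift

variable {ph : ℤ → (P × Bool × Fin 12) × ℕ} {bk : ℤ → ℕ} (h : M.Lift ph bk) {N : ℕ}
include h

lemma far {k : ℕ} (hk : 14 ≤ k) (ha : M.Agree N ph bk (M.S N (k + 2) 0)) {τ τ' : ℤ} (hτ : 0 ≤ τ)
    (hτ' : 0 ≤ τ') (h1 : bk τ ≤ k + 2) (h2 : k + 7 ≤ bk τ') :
    2 * (M.S N (k + 2) 0 - M.S N (k + 1) 0) - 2 ≤ τ' - τ := by
  let ex : ℕ → Prop := fun j => ∃ s, 0 ≤ s ∧ bk s = j ∧ (ph s).2 = 4 * M.K + 7
  have : ∀ j, ∃ s, ex j → 0 ≤ s ∧ bk s = j ∧ (ph s).2 = 4 * M.K + 7 := fun j => by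
    by_cases k : ex j
    · exact k.imp fun _ a _ => a
    · exact ⟨0, fun a => (k a).elim⟩
  choose e he using this
  have hex : ∀ j s, 14 ≤ j → 0 ≤ s → j < bk s → ex j ∧ e j < s := by
    intro j s a b c
    have b0 := h.b0
    have b1 : (ph 0).2 ≤ 4 * M.K + 7 := h.run.le 0 le_rfl
    obtain ⟨s', c1, -, c2⟩ := h.ivt le_rfl b (k := j) le_rfl (by omega) (Or.inl c)
    refine ⟨⟨s', c1, c2⟩, ?_⟩
    have := he j ⟨s', c1, c2⟩
    by_contra hc
    have := h.mono b (show s ≤ e j by omega)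
    omega
  let m : ℕ → ℤ := fun j => 3 * e j + if j % 3 = 2 then 1 else 0
  have low := (h.run.rich none).lower ex m 14 (fun j a b => ?_) (fun j a b => ?_) (fun t ht => ?_)
    k
  rotate_left
  · have := he _ b
    have := hex j (e (j + 1)) a this.1 (by omega)
    refine ⟨this.1, ?_⟩
    simp only [m]
    split_ifs <;> omega
  · have := he _ b
    simp only [m]
    split_ifs <;> omega
  · have k1 := h.kap (show 0 ≤ t / 3 by omega)
    rw [decide_eq_true_iff]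
    simp only [aut, mark]
    constructor
    · rintro ⟨a, b⟩
      have c : ex (bk (t / 3)) := ⟨t / 3, by omega, rfl, a⟩
      refine ⟨_, h.ge14 (by omega), c, ?_⟩
      obtain ⟨c1, c2, c3⟩ := he _ c
      have := h.uniq c1 (show 0 ≤ t / 3 by omega) c2 (by omega) (by omega)
      simp only [m]
      split_ifs at b ⊢ <;> omega
    · rintro ⟨j, a, b, rfl⟩
      obtain ⟨c1, c2, c3⟩ := he _ b
      have e1 : m j / 3 = e j := by
        simp only [m]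
        split_ifs <;> omega
      rw [e1] at k1 ⊢
      refine ⟨c3, ?_⟩
      simp only [m]
      split_ifs <;> omega
  have ek : ∀ j, 14 ≤ j → j ≤ k + 1 → e j + 1 = M.S N (j + 1) 0 := by
    intro j a b
    have c0 := M.S_end N j
    have c1 := M.S_mono0 N (show j + 1 ≤ k + 2 by omega)
    have c2 := M.S_nonneg N a (4 * M.K + 7)
    obtain ⟨c3, c4⟩ := ha.at a le_rfl (by omega)
    obtain ⟨c5, c6, c7⟩ := he j ⟨_, c2, c3, by rw [c4]⟩
    have := h.uniq c5 c2 (by omega) (by rw [c4, c7]) (by omega)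
    omega
  have e0 := ek k hk (by omega)
  have e1 : _ = M.S N (k + 2) 0 := ek (k + 1) (by omega) le_rfl
  obtain ⟨x6, y6⟩ := hex (k + 6) τ' (by omega) hτ' (by omega)
  obtain ⟨x5, y5⟩ := hex (k + 5) _ (by omega) (he _ x6).1 (by have := he _ x6; omega)
  obtain ⟨x4, y4⟩ := hex (k + 4) _ (by omega) (he _ x5).1 (by have := he _ x5; omega)
  obtain ⟨x3, y3⟩ := hex (k + 3) _ (by omega) (he _ x4).1 (by have := he _ x4; omega)
  obtain ⟨x2, y2⟩ := hex (k + 2) _ (by omega) (he _ x3).1 (by have := he _ x3; omega)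
  have y1 : τ ≤ e (k + 2) := by
    by_contra hc
    obtain ⟨c1, c2, c3⟩ := he _ x2
    have c4 := h.mono c1 (show e (k + 2) ≤ τ by omega)
    have c5 : (ph τ).2 ≤ 4 * M.K + 7 := h.run.le τ hτ
    have := h.uniq c1 hτ (by omega) (by omega) (by omega)
    omega
  have l1 : _ ≤ m (k + 3) - _ ∨ _ ≤ m (k + 4) - m (k + 3) := low (k + 2) hk (by omega) x4
  have l2 : _ ≤ m (k + 5) - _ ∨ _ ≤ m (k + 6) - m (k + 5) := low (k + 4) hk (by omega) x6
  simp only [m] at l1 l2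
  split_ifs at l1 l2 <;> omega

lemma track {k : ℕ} (hk : 17 ≤ k) {T : ℤ} (ha : M.Agree N ph bk T) (hT : M.S N (k + 2) 0 ≤ T)
    {ρ : ℕ} (hρ : ρ < M.K + 2) (h3 : M.S N (k + M.β3 ρ) (M.σ3 ρ) < T) :
    bk (M.S N (k + 2) (M.σ4 (M.ctl N (k + 2)) ρ)) = k + 2 ∧
    (ph (M.S N (k + 2) (M.σ4 (M.ctl N (k + 2)) ρ))).2 =
      M.σ4 (ph (M.S N (k + 2) (M.σ4 (M.ctl N (k + 2)) ρ))).1 ρ := by
  obtain ⟨k, rfl⟩ : ∃ j, k = j + 3 := ⟨k - 3, by omega⟩
  have hr := h.run.rich (some (⟨(k + 3) % 12, Nat.mod_lt _ (by norm_num)⟩, ⟨ρ, hρ⟩))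
  have t1 := M.trk N (k + 3) ρ
  have t2 := M.opening N k
  have s := fun c => M.σ_bd c ρ
  have s0 := s (M.ctl N 0)
  have hfar := fun τ τ' => h.far (k := k + 3) (N := N) (by omega)
    (fun τ a b => ha τ a (by omega)) (τ := τ) (τ' := τ')
  have m1 := M.S_mono0 N (show k ≤ k + 3 + 2 by omega)
  have m2 := M.S_mono0 N (show k + 3 + 1 ≤ k + 3 + 2 by omega)
  have m3 := M.S_next N (k + 3 + 1)
  have m4 := M.G3 N (k + 3)
  have m5 := M.G_lt N (k + 3)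
  have m6 := M.G_ge N (k + 3 + 1)
  have m7 := M.G_ge N (k + 3 + 2)
  have m8 := M.Wd_step N (k + 3 + 1) M.K
  have m9 := M.j4_bd (M.ctl N (k + 3 + 1 + 1)) M.K
  have b1 := M.S_bd N (k + 3) s0.2.2.2.2.1
  have b2 := M.S_bd N (k + 3 + 1) s0.2.2.2.2.2.1
  have z0 := M.S_nonneg N (show 14 ≤ k by omega) 0
  obtain ⟨a0, -⟩ := ha.at (show 14 ≤ k by omega) (Nat.zero_le _) (by omega)
  obtain ⟨a1, a1'⟩ := ha.at (show 14 ≤ k + 3 by omega) s0.2.2.2.2.1 (by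
    change M.S N (k + 3 + 1 + 1) 0 ≤ T at hT; omega)
  obtain ⟨a2, a2'⟩ := ha.at (show 14 ≤ k + 3 + 1 by omega) s0.2.2.2.2.2.1 (by
    change M.S N (k + 3 + 1 + 1) 0 ≤ T at hT; omega)
  obtain ⟨a3, a3'⟩ := ha.at (show 14 ≤ k + 3 + M.β3 ρ by omega) s0.2.2.2.2.2.2.1 h3
  replace a1' := congrArg Prod.snd a1'
  replace a2' := congrArg Prod.snd a2'
  replace a3' := congrArg Prod.snd a3'
  simp only at a1' a2' a3'
  change M.S N (k + 3 + 2) 0 = _ + M.G N (k + 3 + 2) + _ + _ + _ at m3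
  change M.Wd N (k + 3 + 2) _ + _ = _ at m8
  generalize M.S N (k + 3) (M.σ1 ρ) = τ1 at *
  generalize M.S N (k + 3 + 1) (M.σ2 ρ) = τ2 at *
  generalize M.S N (k + 3 + M.β3 ρ) (M.σ3 ρ) = τ3 at *
  generalize M.S N (k + 3 + 2) (M.σ4 (M.ctl N (k + 3 + 2)) ρ) = τ4 at *
  obtain ⟨U, hU⟩ : ∃ U : ℤ, U = M.G N (k + 3 + 3) + M.G N (k + 3 + 1) +
    M.Wd N (k + 3 + 1) M.K + M.Wd N (k + 3 + 2) M.K + 8 := ⟨_, rfl⟩
  rw [← hU] at t1 t2
  let Q : ℤ → Prop := fun τ => bk τ = k + 3 + 2 ∧ (ph τ).2 = M.σ4 (ph τ).1 ρ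
  have hQ : ∀ τ, 0 ≤ τ → Q τ → τ3 < τ := by
    rintro τ a ⟨b, c⟩
    by_contra hc
    have := h.mono a (show τ ≤ τ3 by omega)
    have := s (ph τ).1
    omega
  generalize hf : (fun t => decide (M.aut.mu (some (⟨(k + 3) % 12, Nat.mod_lt _ (by norm_num)⟩,
    ⟨ρ, hρ⟩)) (ph (t / 3)).1 (ph (t / 3)).2 (t % 3))) = f at hr
  have ch : ∀ t, 3 * M.S N k 0 ≤ t → bk (t / 3) ≤ k + 14 →
      (f t = true ↔ t = 3 * τ1 ∨ t = 3 * τ2 ∨ t = 3 * τ3 + 1 ∨ (Q (t / 3) ∧ t % 3 = 1)) := by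
    intro t c1 c2
    have c0 : 0 ≤ t / 3 := by omega
    have c3 := h.kap c0
    have c4 := h.mono z0 (show M.S N k 0 ≤ t / 3 by omega)
    simp only [← hf, aut, mark, decide_eq_true_iff, c3, Q]
    constructor
    · rintro (⟨d1, d2, d3⟩ | ⟨d1, d2, d3⟩ | ⟨d1, d2, d3⟩ | ⟨d1, d2, d3⟩)
      · have := h.uniq c0 (τ' := τ1) (by omega) (by omega) (by omega) (by omega)
        omega
      · have := h.uniq c0 (τ' := τ2) (by omega) (by omega) (by omega) (by omega)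
        omega
      · have := h.uniq c0 (τ' := τ3) (by omega) (by omega) (by omega) (by omega)
        omega
      · exact Or.inr (Or.inr (Or.inr ⟨⟨by omega, d2⟩, d3⟩))
    · rintro (rfl | rfl | rfl | ⟨⟨d1, d2⟩, d3⟩)
      · rw [show 3 * τ1 / 3 = τ1 by omega]
        omega
      · rw [show 3 * τ2 / 3 = τ2 by omega]
        omega
      · rw [show (3 * τ3 + 1) / 3 = τ3 by omega]
        omega
      · exact Or.inr (Or.inr (Or.inr ⟨by omega, d2, d3⟩))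
  obtain ⟨t, u1, u2, u3⟩ := hr.deadline (a := 3 * τ1) (b := 3 * τ2) (c := 3 * τ3 + 1)
    (L := 3 * U + 3) (by omega) (by omega) (by omega) (by omega) (by omega) (by omega)
    fun t c1 c2 => by
      have := h.mono (show 0 ≤ t / 3 by omega) (show t / 3 ≤ τ3 by omega)
      have := hQ (t / 3) (by omega)
      rw [ch t (by omega) (by omega)]
      omega
  obtain ⟨τ, v1, v2, v3⟩ : ∃ τ, 0 ≤ τ ∧ τ ≤ t / 3 ∧ Q τ := by
    by_cases c : bk (t / 3) ≤ k + 14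
    · refine ⟨t / 3, by omega, le_rfl, ?_⟩
      rcases (ch t (by omega) c).mp u3 with d | d | d | d <;> omega
    · have c0 := h.b0
      obtain ⟨x, x1, x2, x3, -⟩ := h.ivt le_rfl (show 0 ≤ t / 3 by omega) (k := k + 3 + 2)
        (Nat.zero_le _) (by omega) (by omega)
      obtain ⟨y, y1, y2, y3, y4⟩ := h.ivt le_rfl (show 0 ≤ t / 3 by omega) (k := k + 3 + 2)
        (s (ph x).1).2.2.2.2.2.2.2.1 (by omega) (by omega)
      exact ⟨y, y1, y2, y3, by rw [y4, h.ctl_eq x1 y1 (by omega)]⟩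
  have v4 := hQ τ v1 v3
  have := hr.copy (a := 3 * τ1) (b := 3 * τ2) (c := 3 * τ3 + 1) (d := 3 * τ + 1)
    (L := 3 * U + 3) (by omega) (by omega) (by omega) (by omega) (by omega) (by omega) (by omega)
    fun t c1 c2 => by
      have c3 : bk (t / 3) ≤ k + 14 := by
        by_contra hc
        have := hfar τ (t / 3) v1 (by omega) v3.1.le (by omega)
        omega
      rw [ch t (by omega) c3]
      refine or_congr_right (or_congr_right (or_congr_right ⟨?_, ?_⟩))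
      · rintro ⟨⟨d1, d2⟩, d3⟩
        have d4 := h.ctl_eq (show 0 ≤ t / 3 by omega) v1 (d1.trans v3.1.symm)
        have := s (ph (t / 3)).1
        have := h.uniq (show 0 ≤ t / 3 by omega) v1 (d1.trans v3.1.symm)
          (by rw [d2, d4, v3.2]) (by omega)
        omega
      · rintro rfl
        rw [show (3 * τ + 1) / 3 = τ by omega]
        exact ⟨v3, by omega⟩
  rwa [show τ4 = τ by omega]

lemma fill {k σ0 : ℕ} (hk : 14 ≤ k) (ha : M.Agree N ph bk (M.S N k 0))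
    (hc : (ph (M.S N k 0)).1 = M.ctl N k) (h0 : σ0 ≤ 4 * M.K + 7)
    (hσ : ∀ σ, σ ≤ σ0 → bk (M.S N k σ) = k ∧ (ph (M.S N k σ)).2 = σ) :
    M.Agree N ph bk (M.S N k σ0 + 1) := by
  intro τ a b
  by_cases c : τ < M.S N k 0
  · exact ha τ a c
  have z := M.S_nonneg N hk
  have b0 := M.S_bd N k h0
  have e := M.pos_blk N a (k := k) (by omega) (by omega)
  obtain ⟨-, p1, p2, p3⟩ := M.pos_spec N a
  rw [cph, e]
  rw [e] at p2 p3
  generalize (M.pos N τ).2 = σ at *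
  have : σ ≤ σ0 := by
    by_contra hc
    have := M.S_mono N k (show σ0 + 1 ≤ σ by omega)
    omega
  have k1 := hσ σ this
  have : bk τ = k ∧ (ph τ).2 = σ := by
    by_cases d : τ = M.S N k σ
    · rwa [d]
    have d1 : σ % 4 = 0 := by
      by_contra hc
      have := (M.S_step N k σ).2 (Or.inl hc)
      omega
    have d2 : σ ≠ σ0 := by
      rintro rfl
      omega
    have k2 := hσ (σ + 1) (by omega)
    have k3 := h.mono (z σ) p2
    have k4 := h.mono a p3.le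
    by_contra hc
    have := h.uniq a (z (σ + 1)) (by omega) (by omega) (by omega)
    omega
  refine ⟨this.1, Prod.ext ?_ this.2⟩
  rw [← hc]
  exact h.ctl_eq a (z 0) (by have := hσ 0 (Nat.zero_le _); omega)

lemma next {k : ℕ} (hk : 17 ≤ k) (ha : M.Agree N ph bk (M.S N (k + 2) 0)) :
    M.Agree N ph bk (M.S N (k + 2 + 1) 0) := by
  have z := M.S_nonneg N (show 14 ≤ k + 2 by omega)
  have e0 : _ = M.S N (k + 2) 0 := M.S_end N (k + 1)
  obtain ⟨a1, a2⟩ := ha.at (show 14 ≤ k + 1 by omega) le_rfl (by omega)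
  obtain ⟨a3, b, a4⟩ : bk (M.S N (k + 2) 0) = k + 2 ∧
      ∃ b, ph (M.S N (k + 2) 0) = (M.aut.nx (M.ctl N (k + 1)) b, 0) := by
    rcases h.st _ (M.S_nonneg N (show 14 ≤ k + 1 by omega) (4 * M.K + 7)) with
      ⟨-, -, u⟩ | ⟨-, -, u⟩ | ⟨u, -, v⟩
    · exact (u (Or.inl (by rw [a2]; simp only; omega))).elim
    · simp [a2] at u
    · rw [e0, a1] at u
      rw [e0, a2] at v
      exact ⟨u, v⟩
  generalize hc : M.aut.nx (M.ctl N (k + 1)) b = c at a4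
  have hcc : ∀ τ, 0 ≤ τ → bk τ = k + 2 → (ph τ).1 = c := fun τ a b => by
    rw [h.ctl_eq a (z 0) (by omega), a4]
  have s1 : ∀ ρ, ρ ≤ M.K → bk (M.S N (k + 2) (4 * ρ + M.j4 (M.ctl N (k + 2)) ρ)) = k + 2 ∧
      (ph (M.S N (k + 2) (4 * ρ + M.j4 (M.ctl N (k + 2)) ρ))).2 = 4 * ρ + M.j4 c ρ := by
    intro ρ hρ
    have := h.track hk ha le_rfl (ρ := ρ) (by omega) (by simp only [β3, σ3, hρ, if_true]; omega)
    rw [hcc _ (z _) this.1] at this
    simpa only [σ4, hρ, if_true] using this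
  have fw : ∀ σ, σ % 4 ≠ 0 → σ < 4 * M.K + 7 → bk (M.S N (k + 2) σ) = k + 2 ∧
      (ph (M.S N (k + 2) σ)).2 = σ → bk (M.S N (k + 2) (σ + 1)) = k + 2 ∧
      (ph (M.S N (k + 2) (σ + 1))).2 = σ + 1 := by
    rintro σ a b ⟨c, d⟩
    have := h.fwd (z σ) (Or.inl (by omega)) (by omega)
    rw [(M.S_step N _ σ).2 (Or.inl a)]
    omega
  have bw : ∀ σ, σ % 4 ≠ 0 → (σ + 1) % 4 ≠ 0 → bk (M.S N (k + 2) (σ + 1)) = k + 2 ∧
      (ph (M.S N (k + 2) (σ + 1))).2 = σ + 1 → bk (M.S N (k + 2) σ) = k + 2 ∧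
      (ph (M.S N (k + 2) σ)).2 = σ := by
    rintro σ a b ⟨c, d⟩
    rw [(M.S_step N _ σ).2 (Or.inl a)] at c d
    have := h.back (z σ) (by omega)
    omega
  have c1 : c.1 = (M.ctl N (k + 2)).1 := by rw [← hc, M.ctl_succ N (k + 1)]; rfl
  have c2 : c.2.2 = (M.ctl N (k + 2)).2.2 := by rw [← hc, M.ctl_succ N (k + 1)]; rfl
  have c3 : c.2.1 = true → M.dec c.1 = true := by
    rw [← hc]
    simp only [aut, Bool.and_eq_true]
    exact fun a => a.2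
  have c4 : (M.ctl N (k + 2)).2.1 = true → M.dec c.1 = true := by
    rw [c1]
    simp only [ctl, zf, Bool.and_eq_true]
    exact fun a => a.1
  have c5 : c = M.ctl N (k + 2) := by
    refine Prod.ext c1 (Prod.ext ?_ c2)
    by_contra hne
    have r0 := M.reg_lt c.1
    have d1 := s1 (M.reg c.1) r0.le
    have d2 := s1 (M.reg c.1 + 1) r0
    have hd : M.dec c.1 = true := by
      cases e : c.2.1
      · exact c4 (by simpa [e] using hne)
      · exact c3 e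
    simp only [j4, ← c1, lt_irrefl, if_false, Nat.lt_succ_self, if_true, hd] at d1 d2
    generalize hr : M.reg c.1 = r at *
    have d3 := fw _ (by omega) (by omega) d1
    have d4 := fw _ (by omega) (by omega) d3
    have q := M.S_step N (k + 2) (4 * r + 2 + 1 + 1)
    have q1 := M.S_step N (k + 2) (4 * r + 2 + 1 + 1 + 1)
    have q2 := M.S_step N (k + 2) (4 * r + 2 + 1 + 1 + 1 + 1)
    cases e : c.2.1
    · have e' : (M.ctl N (k + 2)).2.1 = true := by simpa [e] using hne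
      simp only [e, e', if_true, Bool.false_eq_true, if_false] at d2
      rw [show 4 * (r + 1) + 2 = 4 * r + 2 + 1 + 1 + 1 + 1 by ring] at d2
      have q3 := q.2 (Or.inr ⟨e', by rw [← c1, hr]; ring⟩)
      have := h.mono (z _) (q.1.trans q1.1).le
      omega
    · have e' : (M.ctl N (k + 2)).2.1 = false := by simpa [e] using hne
      simp only [e, e', if_true, Bool.false_eq_true, if_false] at d2
      rw [show 4 * (r + 1) + 3 = 4 * r + 2 + 1 + 1 + 1 + 1 + 1 by ring] at d2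
      have z1 := z (4 * r + 2 + 1 + 1)
      have d5 := h.fwd z1 (Or.inr (by rw [hcc _ z1 d4.1, hr]; exact ⟨e, by omega⟩)) (by omega)
      have d6 := h.fwd (show 0 ≤ M.S N (k + 2) (4 * r + 2 + 1 + 1) + 1 by omega)
        (Or.inl (by omega)) (by omega)
      have := h.uniq (show 0 ≤ M.S N (k + 2) (4 * r + 2 + 1 + 1) + 1 + 1 by omega)
        (z (4 * r + 2 + 1 + 1 + 1 + 1 + 1)) (by omega) (by omega) (by omega)
      omega
  subst c5
  have s2 : ∀ ρ, ρ ≤ M.K → bk (M.S N (k + 2) (4 * ρ + 1)) = k + 2 ∧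
      (ph (M.S N (k + 2) (4 * ρ + 1))).2 = 4 * ρ + 1 := by
    intro ρ hρ
    have d := s1 ρ hρ
    have := M.j4_bd (M.ctl N (k + 2)) ρ
    rcases (by omega : M.j4 (M.ctl N (k + 2)) ρ = 1 ∨ M.j4 (M.ctl N (k + 2)) ρ = 2 ∨
      M.j4 (M.ctl N (k + 2)) ρ = 3) with e | e | e <;> rw [e] at d
    · exact d
    · exact bw _ (by omega) (by omega) d
    · exact bw _ (by omega) (by omega) (bw _ (by omega) (by omega) d)
  have s3 : ∀ σ, σ ≤ 4 * M.K + 4 → bk (M.S N (k + 2) σ) = k + 2 ∧ (ph (M.S N (k + 2) σ)).2 = σ := by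
    intro σ
    induction σ with
    | zero => exact fun _ => ⟨a3, by rw [a4]⟩
    | succ σ ih =>
      intro hσ
      by_cases e : σ % 4 = 0
      · have := s2 (σ / 4) (by omega)
        rwa [show 4 * (σ / 4) = σ by omega] at this
      · exact fw σ e (by omega) (ih (by omega))
  have hb := h.fill (by omega) ha (by rw [a4]) (by omega) s3
  have s4 := h.track hk hb (by have := M.S_mono N (k + 2) (Nat.zero_le (4 * M.K + 4)); omega)
    (ρ := M.K + 1) (by omega) (by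
      have := M.S_mono N (k + 2) (show 4 * M.K + 3 ≤ 4 * M.K + 4 by omega)
      simp only [β3, σ3, show ¬ M.K + 1 ≤ M.K by omega, if_false]
      omega)
  simp only [σ4, show ¬ M.K + 1 ≤ M.K by omega, if_false] at s4
  have s5 := fw _ (by omega) (by omega) s4
  have s6 := fw _ (by omega) (by omega) s5
  rw [← S_end]
  refine h.fill (by omega) ha (by rw [a4]) le_rfl fun σ hσ => ?_
  rcases (by omega : σ ≤ 4 * M.K + 4 ∨ σ = 4 * M.K + 5 ∨ σ = 4 * M.K + 5 + 1 ∨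
    σ = 4 * M.K + 5 + 1 + 1) with e | rfl | rfl | rfl
  exacts [s3 σ e, s4, s5, s6]

end Lift

theorem sound {N : ℕ} {ph : ℤ → (P × Bool × Fin 12) × ℕ} (h : M.aut.Run ph)
    (ha : ∀ τ, 0 ≤ τ → τ < M.S N 19 0 → ph τ = M.cph N τ) (k : ℕ) (hk : 14 ≤ k) :
    ¬ M.halt (M.cfg N k).1 := by
  have p0 : M.pos N 0 = (14, 0) :=
    M.pos_eq N le_rfl (Nat.zero_le _) (M.S14 N).le (M.S14 N ▸ (M.S_step N 14 0).1)
  have z := M.S_mono0 N (show 14 ≤ 19 by omega)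
  rw [S14] at z
  obtain ⟨bk, hl⟩ := exists_lift h (by rw [ha 0 le_rfl (by omega), cph, p0]; rfl)
  have h0 : M.Agree N ph bk (M.S N 19 0) := by
    intro τ hτ hT
    refine ⟨?_, ha τ hτ hT⟩
    induction τ, hτ using Int.leInduction with
    | base => rw [hl.b0, p0]
    | succ τ hτ ih =>
      have k1 := congrArg Prod.snd (ha τ hτ (by omega))
      have k2 := congrArg Prod.snd (ha (τ + 1) (by omega) hT)
      have k3 := ih (by omega)
      rcases hl.st τ hτ with ⟨a, b, -⟩ | ⟨a, b, -⟩ | ⟨a, c, d, b⟩ <;>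
        rcases M.pos_step N hτ with ⟨e, f⟩ | ⟨e, f⟩ | ⟨e, f⟩ <;>
        simp only [cph, b, e] at k1 k2 ⊢ <;> omega
  have h1 : ∀ j, M.Agree N ph bk (M.S N (17 + j + 2) 0) := by
    intro j
    induction j with
    | zero => exact h0
    | succ j ih => exact hl.next (k := 17 + j) (by omega) ih
  have z1 := M.S_mono0 N (show k ≤ 17 + k + 2 by omega)
  have := h.ok _ (M.S_nonneg N hk 0)
  rwa [((h1 k).at hk (Nat.zero_le _) (by omega)).2] at this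

end MM

end Pool.Agent.MP_8e55f0_lc
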